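import Pool.Agent.W435.FB.Base

/-!
# Assembly of the parts (all parts as hypotheses)
-/

set_option autoImplicit false

namespace Pool.Agent.W435.FB

open Relation

/-! ## finite basability is invariant under isomorphism -/

theorem ev_map {S T : Type} [Semigroup S] [Semigroup T] (φ : S ≃* T) (f : ℕ → S) (w : Wd) :
    φ (ev f w) = ev (fun x => φ (f x)) w := by
  obtain ⟨x, w⟩ := w
  induction w generalizing x with
  | nil => rfl
  | cons y w ih => rw [ev_cons, ev_cons, map_mul, ih]

theorem sat_congr {S T : Type} [Semigroup S] [Semigroup T] (φ : S ≃* T) (u v : Wd) :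
    Sat S u v ↔ Sat T u v := by
  constructor
  · intro h f
    have h1 := h (fun x => φ.symm (f x))
    have h2 := congrArg φ h1
    rw [ev_map, ev_map] at h2
    simpa using h2
  · intro h f
    apply φ.injective
    rw [ev_map, ev_map]
    exact h _

theorem finBased_congr {S T : Type} [Semigroup S] [Semigroup T] (φ : S ≃* T) :
    FinBased S ↔ FinBased T := by
  constructor
  · rintro ⟨B, h1, h2⟩
    exact ⟨B, fun p hp => (sat_congr φ _ _).1 (h1 p hp), fun u v huv =>
      h2 u v ((sat_congr φ _ _).2 huv)⟩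
  · rintro ⟨B, h1, h2⟩
    exact ⟨B, fun p hp => (sat_congr φ _ _).2 (h1 p hp), fun u v huv =>
      h2 u v ((sat_congr φ _ _).1 huv)⟩

/-! ## posets -/

theorem strictMono_of_per {P : Type} [PartialOrder P] {q : ℕ} (hq : 0 < q) {σ : P → P}
    (hm : Monotone σ) (hp : ∀ x, σ^[q] x = x) : StrictMono σ := by
  apply hm.strictMono_of_injective
  intro x y hxy
  have h1 : σ^[q] x = σ^[q] y := by
    obtain ⟨k, rfl⟩ : ∃ k, q = k + 1 := ⟨q - 1, by omega⟩
    rw [Function.iterate_succ_apply, Function.iterate_succ_apply, hxy]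
  rw [hp, hp] at h1
  exact h1

theorem SysPoset.anti {q M M' : ℕ} {P : Type} [PartialOrder P] {σ : P → P}
    (h : SysPoset q M P σ) (hM : M' ≤ M) : SysPoset q M' P σ :=
  ⟨h.mono, h.per, fun k hk => h.sys k (hk.trans hM), h.conn, h.h1⟩

theorem finite_ch {P : Type} [PartialOrder P] [Finite P] : Finite (Ch P) := by
  classical
  have := Fintype.ofFinite P
  have hfin : {l : List P | l.length ≤ Fintype.card P}.Finite :=
    List.finite_length_le P (Fintype.card P)
  have hsub : {l : List P | l ≠ [] ∧ l.Pairwise (· < ·)} ⊆ {l : List P | l.length ≤ Fintype.card P} := by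
    intro l hl
    have : l.Nodup := List.Pairwise.imp (fun h => ne_of_lt h) hl.2
    exact this.length_le_card
  exact (hfin.subset hsub).to_subtype

theorem poset (hB : PosetBaseStmt) (hS : StepSysStmt) (hW : StepWStmt) (hU : BUStmt) :
    PosetStmt := by
  intro q m M hq
  have key : ∀ M : ℕ, ∃ (P : Type) (_ : PartialOrder P) (_ : Finite P) (_ : Nonempty P)
      (σ : P → P), SysPoset q (M + 1) P σ ∧ WP q m P σ := by
    intro M
    induction M with
    | zero => exact hB q m hq
    | succ M ih =>
      obtain ⟨P, i1, i2, i3, σ, h1, h2⟩ := ih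
      have hσ := strictMono_of_per hq.pos h1.mono h1.per
      refine ⟨Ch P, inferInstance, finite_ch, ?_, chMap σ hσ,
        (hS q (M + 1) P σ hσ hq (Nat.succ_pos _) h1).anti (by omega), hW q m P σ hσ h2⟩
      obtain ⟨x⟩ := i3
      exact ⟨⟨[x], by simp, by simp⟩⟩
  obtain ⟨P, i1, i2, i3, σ, h1, h2⟩ := key M
  exact ⟨P, i1, i2, i3, σ, h1.anti (Nat.le_succ _), hU q m P σ hq h2⟩

/-! ## exponents -/

theorem exists_exp {A : Type} [AddCommGroup A] [Finite A] (C : Set A) :
    ∃ n e : ℕ, 0 < n ∧ 0 < e ∧ e ∣ n ∧ (∀ k : ℕ, (∀ a : A, k • a = 0) ↔ n ∣ k) ∧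
      (∀ k : ℕ, (∀ c ∈ C, k • c = 0) ↔ e ∣ k) := by
  have hn : ∀ k : ℕ, (∀ a : A, k • a = 0) ↔ AddMonoid.exponent A ∣ k := fun k =>
    AddMonoid.exponent_dvd_iff_forall_nsmul_eq_zero.symm
  have he : ∀ k : ℕ, (∀ c ∈ C, k • c = 0) ↔
      AddMonoid.exponent (AddSubgroup.closure C) ∣ k := by
    intro k
    rw [AddMonoid.exponent_dvd_iff_forall_nsmul_eq_zero]
    constructor
    · rintro h ⟨a, ha⟩
      apply Subtype.ext
      show k • a = 0
      induction ha using AddSubgroup.closure_induction with
      | mem x hx => exact h x hx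
      | zero => simp
      | add x y _ _ hx hy => rw [nsmul_add, hx, hy, add_zero]
      | neg x _ hx => rw [smul_neg, hx, neg_zero]
    · intro h c hc
      have := h ⟨c, AddSubgroup.subset_closure hc⟩
      exact congrArg Subtype.val this
  refine ⟨AddMonoid.exponent A, AddMonoid.exponent (AddSubgroup.closure C),
    Nat.pos_of_ne_zero ?_, Nat.pos_of_ne_zero ?_, ?_, hn, he⟩
  · exact (AddMonoid.exponent_ne_zero_of_finite)
  · exact (AddMonoid.exponent_ne_zero_of_finite)
  · rw [← he]
    intro c _
    exact (hn _).2 dvd_rfl c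

/-! ## zigzags -/

theorem Zig.trans' {R : ℕ → ℕ → Prop} {b y : ℕ} (h : Zig R b y) :
    ∀ {a z : ℕ}, Zig R a y → Zig R b z → Zig R a z := by
  induction h with
  | @base b y hby =>
    intro a z h1 h2
    induction h1 with
    | base h => exact Zig.step h hby h2
    | step h3 h4 _ ih => exact Zig.step h3 h4 (ih hby)
  | @step b b1 a1 y h1 h2 _ ih =>
    intro a z h3 h4
    exact ih h3 (Zig.step h2 h1 h4)

/-! ## the one-component case: every letter repeated -/

/-- every letter repeated `n + 1` times -/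
def rep (n : ℕ) (u : List ℕ) : List ℕ := u.flatMap fun x => List.replicate (n + 1) x

theorem rep_cons (n x : ℕ) (u : List ℕ) : rep n (x :: u) = List.replicate (n + 1) x ++ rep n u := by
  simp [rep]

theorem mem_rep {n x : ℕ} {u : List ℕ} : x ∈ rep n u ↔ x ∈ u := by
  simp [rep, List.mem_flatMap, List.mem_replicate]

theorem count_rep (n x : ℕ) (u : List ℕ) : (rep n u).count x = (n + 1) * u.count x := by
  induction u with
  | nil => simp [rep]
  | cons a u ih =>
    rw [rep_cons, List.count_append, ih, List.count_replicate, List.count_cons]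
    by_cases h : a = x
    · simp [h]; ring
    · simp [h]

theorem rep_ne_nil {n : ℕ} {u : List ℕ} (h : u ≠ []) : rep n u ≠ [] := by
  obtain ⟨x, u, rfl⟩ := List.exists_cons_of_ne_nil h
  simp [rep_cons, List.replicate_succ]

theorem head_rep (n x : ℕ) (u : List ℕ) (h : rep n (x :: u) ≠ []) : (rep n (x :: u)).head h = x := by
  simp [rep_cons, List.replicate_succ]

theorem getLast_rep (n : ℕ) (u : List ℕ) (h : u ≠ []) (h' : rep n u ≠ []) :
    (rep n u).getLast h' = u.getLast h := by
  induction u with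
  | nil => exact absurd rfl h
  | cons x u ih =>
    cases u with
    | nil => simp [rep]
    | cons y u =>
      have h1 : rep n (y :: u) ≠ [] := rep_ne_nil (by simp)
      have h2 := ih (by simp) h1
      rw [getLast_cons_cons, ← h2]
      simp only [rep_cons n x]
      rw [List.getLast_append_of_ne_nil _ h1]

theorem val_rep {T : Type} [Semigroup T] {n : ℕ} (h : Sch1 n T) (f : ℕ → T) (u : List ℕ) :
    val f (rep n u) = val f u := by
  induction u with
  | nil => rfl
  | cons x u ih =>
    rw [rep_cons, val_append, ih, val_cons]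
    congr 1
    simp only [val, List.map_replicate, List.prod_replicate]
    exact h (f x)

theorem adj_replicate_append (n x : ℕ) (w : List ℕ) :
    adj (List.replicate (n + 1) x ++ w) = List.replicate n (x, x) ++ adj (x :: w) := by
  induction n with
  | zero => simp
  | succ n ih =>
    rw [List.replicate_succ, List.replicate_succ]
    simp only [List.cons_append]
    rw [adj_cons_cons, ← List.cons_append, ← List.replicate_succ, ih, List.replicate_succ]
    simp

theorem count_adj_rep (n : ℕ) (p : ℕ × ℕ) (u : List ℕ) :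
    (adj (rep n u)).count p = (adj u).count p + n * (if p.1 = p.2 then u.count p.1 else 0) := by
  induction u with
  | nil => simp [rep, adj]
  | cons x u ih =>
    have hx : (List.replicate n (x, x)).count p = n * (if p.1 = p.2 then (if x = p.1 then 1 else 0) else 0) := by
      rw [List.count_replicate]
      obtain ⟨a, b⟩ := p
      by_cases h1 : a = b
      · subst h1
        by_cases h2 : x = a
        · subst h2; simp
        · simp [h2]
      · by_cases h2 : x = a
        · subst h2; simp [h1]
        · simp [h1, h2]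
    cases u with
    | nil =>
      have : rep n [x] = List.replicate (n + 1) x ++ [] := by simp [rep]
      rw [this, adj_replicate_append, List.count_append, hx, adj_singleton]
      obtain ⟨a, b⟩ := p
      by_cases h1 : a = b <;> by_cases h2 : x = a <;> simp [h1, h2, List.count_cons]
    | cons y u =>
      have h3 : rep n (x :: y :: u) = List.replicate (n + 1) x ++ rep n (y :: u) := rep_cons _ _ _
      have h4 : rep n (y :: u) = y :: (List.replicate n y ++ rep n u) := by
        rw [rep_cons, List.replicate_succ]; rfl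
      have h5 : (x :: y :: u).count p.1 = (y :: u).count p.1 + if x = p.1 then 1 else 0 := by
        rw [List.count_cons]; simp
      have h6 : (adj (x :: y :: u)).count p = (adj (y :: u)).count p +
          if (x, y) = p then 1 else 0 := by
        rw [adj_cons_cons, List.count_cons]; simp
      have h7 : (adj (x :: rep n (y :: u))).count p = (adj (rep n (y :: u))).count p +
          if (x, y) = p then 1 else 0 := by
        rw [h4, adj_cons_cons, List.count_cons]; simp
      rw [h3, adj_replicate_append, List.count_append, hx, h7, ih, h6, h5]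
      by_cases h1 : p.1 = p.2
      · simp only [h1, if_true]; ring
      · simp only [h1, if_false]; ring

theorem E_rep_self {n : ℕ} (hn : 0 < n) {x : ℕ} {u : List ℕ} (hx : x ∈ u) : E (rep n u) x x := by
  unfold E
  rw [← List.count_pos_iff, count_adj_rep]
  have : 0 < u.count x := List.count_pos_iff.2 hx
  simp only [if_true]
  positivity

theorem E_rep_of_E {n : ℕ} {x y : ℕ} {u : List ℕ} (h : E u x y) : E (rep n u) x y := by
  unfold E at *
  rw [← List.count_pos_iff] at *
  rw [count_adj_rep]
  omega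

theorem zig_rep {n : ℕ} (hn : 0 < n) (u : List ℕ) : ∀ x ∈ u, ∀ y ∈ u, Zig (E (rep n u)) x y := by
  -- letters connected with each other
  have htrans : ∀ a b c, b ∈ u → Zig (E (rep n u)) a b → Zig (E (rep n u)) b c →
      Zig (E (rep n u)) a c := fun a b c hb h1 h2 =>
    Zig.trans' (Zig.base (E_rep_self hn hb)) h1 h2
  have hadj : ∀ a b, (a, b) ∈ adj u → Zig (E (rep n u)) a b ∧ Zig (E (rep n u)) b a := by
    intro a b hab
    have ha := mem_of_mem_adj_left hab
    have hb := mem_of_mem_adj_right hab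
    exact ⟨Zig.base (E_rep_of_E hab),
      Zig.step (E_rep_self hn hb) (E_rep_of_E hab) (Zig.base (E_rep_self hn ha))⟩
  have key : ∀ w : List ℕ, (∀ q ∈ adj w, q ∈ adj u) → (∀ a ∈ w, a ∈ u) → ∀ x ∈ w,
      ∀ y ∈ w, Zig (E (rep n u)) x y := by
    intro w
    induction w with
    | nil => intro _ _ x hx; simp at hx
    | cons a w ih =>
      intro h1 h2
      cases w with
      | nil =>
        intro x hx y hy
        obtain rfl : x = a := by simpa using hx
        obtain rfl : y = x := by simpa using hy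
        exact Zig.base (E_rep_self hn (h2 _ (by simp)))
      | cons b w =>
        have ih' := ih (fun q hq => h1 q (by rw [adj_cons_cons]; exact List.mem_cons_of_mem _ hq))
          (fun c hc => h2 c (List.mem_cons_of_mem _ hc))
        have hab := hadj a b (h1 _ (by rw [adj_cons_cons]; exact List.mem_cons_self))
        have hb : b ∈ u := h2 b (by simp)
        intro x hx y hy
        rcases List.mem_cons.1 hx with hx1 | hx1 <;> rcases List.mem_cons.1 hy with hy1 | hy1
        · rw [hx1, hy1]; exact Zig.base (E_rep_self hn (h2 _ (by simp)))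
        · rw [hx1]; exact htrans _ b _ hb hab.1 (ih' b (by simp) y hy1)
        · rw [hy1]; exact htrans _ b _ hb (ih' x hx1 b (by simp)) hab.2
        · exact ih' x hx1 y hy1
  exact key u (fun _ h => h) (fun _ h => h)

theorem mem_of_zig {u : List ℕ} {x y : ℕ} (h : Zig (E u) x y) : x ∈ u ∧ y ∈ u := by
  induction h with
  | base h => exact ⟨mem_of_mem_adj_left h, mem_of_mem_adj_right h⟩
  | step h _ _ ih => exact ⟨mem_of_mem_adj_left h, ih.2⟩

/-! ## the main equivalence for Rees matrix semigroups -/

section main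
variable (hTA : TAStmt) (hTR : TRStmt) (hSA : SchAStmt) (hSR : SchRStmt) (hD : DataStmt)
  (hDN : DataNRStmt) (hDR : DataRStmt) (hT : TransferStmt) (hF : FinBasedCritStmt)

include hTR hSR hD hDN hDR hT hF in
theorem finBased_of_rect {A I L : Type} [AddCommGroup A] [Finite A] [Nonempty I]
    (P : L → I → Option A) (hP : Reg P) (hr : Rect P) : FinBased (ARM A I L P) := by
  classical
  obtain ⟨n, e, hn, he, hen, h1, h2⟩ := exists_exp (Cyc4 P)
  obtain ⟨N, hN⟩ := hT n e
  refine (hF (ARM A I L P)).1 ⟨N, ?_⟩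
  intro T _ hST u v huv
  obtain ⟨-, t2, t3, t4, t5⟩ := hN (ARM A I L P) T hST
  obtain ⟨s2, s3, s4, s5⟩ := hSR n e A I L P hn ((h1 n).2 dvd_rfl) hr ((h2 e).2 dvd_rfl)
  have hRT := t2 s2
  obtain ⟨d1, d2, d3⟩ := hD A I L P hP u v huv
  obtain ⟨d4, d5, -⟩ := hDN A I L P hP u v huv
  have d2' := d2 n (fun k hk => (h1 k).1 hk)
  have d3' := d3 e (fun k hk => (h2 k).1 hk)
  -- first and last letters
  have hfirst : u.1 = v.1 ∨ (e = 1 ∧ SchF n T) := by
    by_cases hI : ∃ l i j, i ≠ j ∧ (P l i).isSome ∧ (P l j).isSome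
    · exact Or.inl (d4 hI)
    · right
      push Not at hI
      have hI' : ∀ l i j, (P l i).isSome → (P l j).isSome → i = j := by
        intro l i j h3 h4
        by_contra h5
        exact (hI l i j h5 h3) h4
      refine ⟨?_, t3 (s3 hI')⟩
      have : e ∣ 1 := by
        rw [← h2]
        rintro c ⟨l, m, i, j, a, b, c', d, e1, e2, e3, e4, rfl⟩
        obtain rfl : i = j := hI' l i j (by rw [e1]; rfl) (by rw [e4]; rfl)
        rw [e1] at e4; rw [e2] at e3
        obtain rfl := Option.some.inj e4
        obtain rfl := Option.some.inj e3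
        simp
      exact Nat.dvd_one.1 this
  have hlast : (u.1 :: u.2).getLast (List.cons_ne_nil _ _) =
      (v.1 :: v.2).getLast (List.cons_ne_nil _ _) ∨ (e = 1 ∧ SchL n T) := by
    by_cases hI : ∃ l m i, l ≠ m ∧ (P l i).isSome ∧ (P m i).isSome
    · exact Or.inl (d5 hI)
    · right
      push Not at hI
      have hI' : ∀ l m i, (P l i).isSome → (P m i).isSome → l = m := by
        intro l m i h3 h4
        by_contra h5
        exact (hI l m i h5 h3) h4
      refine ⟨?_, t4 (s4 hI')⟩
      have : e ∣ 1 := by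
        rw [← h2]
        rintro c ⟨l, m, i, j, a, b, c', d, e1, e2, e3, e4, rfl⟩
        obtain rfl : l = m := hI' l m i (by rw [e1]; rfl) (by rw [e2]; rfl)
        rw [e1] at e2; rw [e3] at e4
        obtain rfl := Option.some.inj e2
        obtain rfl := Option.some.inj e4
        simp
      exact Nat.dvd_one.1 this
  rw [sat_iff_val]
  intro f
  by_cases hnone : ∃ l i, P l i = none
  · obtain ⟨z1, z2, z3⟩ := hDR A I L P hP hr hnone u v huv
    refine hTR n e hn hen T hRT f (u.1 :: u.2) (v.1 :: v.2) (List.cons_ne_nil _ _)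
      (List.cons_ne_nil _ _) ?_ ?_ d1 d2' z1 d3'
    · rcases hfirst with h | h
      · exact Or.inl h
      · rcases z2 with h' | ⟨x, h3, h4⟩
        · exact Or.inl h'
        · exact Or.inr ⟨h.1, h.2, x, h3, h4⟩
    · rcases hlast with h | h
      · exact Or.inl h
      · rcases z3 with h' | ⟨x, h3, h4⟩
        · exact Or.inl h'
        · exact Or.inr ⟨h.1, h.2, x, h3, h4⟩
  · push Not at hnone
    have hsome : ∀ l i, (P l i).isSome := fun l i => Option.isSome_iff_ne_none.2 (hnone l i)
    have hR1 := t5 (s5 hsome)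
    rw [← val_rep hR1 f (u.1 :: u.2), ← val_rep hR1 f (v.1 :: v.2)]
    have hu : rep n (u.1 :: u.2) ≠ [] := rep_ne_nil (List.cons_ne_nil _ _)
    have hv : rep n (v.1 :: v.2) ≠ [] := rep_ne_nil (List.cons_ne_nil _ _)
    have hz := zig_rep hn (u.1 :: u.2)
    have hz' := zig_rep hn (v.1 :: v.2)
    refine hTR n e hn hen T hRT f _ _ hu hv ?_ ?_ ?_ ?_ ?_ ?_
    · rw [head_rep, head_rep]
      rcases hfirst with h | h
      · exact Or.inl h
      · exact Or.inr ⟨h.1, h.2, u.1, hz _ (by simp) _ (by simp),
          hz _ (by simp) _ ((d1 _).2 (by simp))⟩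
    · rw [getLast_rep n _ (List.cons_ne_nil _ _) hu, getLast_rep n _ (List.cons_ne_nil _ _) hv]
      rcases hlast with h | h
      · exact Or.inl h
      · exact Or.inr ⟨h.1, h.2, u.1, hz _ (List.getLast_mem _) _ (by simp),
          hz _ ((d1 _).2 (List.getLast_mem _)) _ (by simp)⟩
    · intro x; rw [mem_rep, mem_rep]; exact d1 x
    · intro x; rw [count_rep, count_rep]; exact (d2' x).mul_left _
    · intro x y
      constructor
      · intro h
        obtain ⟨h3, h4⟩ := mem_of_zig h
        exact hz' _ ((d1 _).1 (mem_rep.1 h3)) _ ((d1 _).1 (mem_rep.1 h4))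
      · intro h
        obtain ⟨h3, h4⟩ := mem_of_zig h
        exact hz _ ((d1 _).2 (mem_rep.1 h3)) _ ((d1 _).2 (mem_rep.1 h4))
    · intro p
      rw [count_adj_rep, count_adj_rep]
      refine (d3' p).add ?_
      have h0 : ∀ k, n * k ≡ 0 [MOD e] := fun k =>
        (Nat.modEq_zero_iff_dvd).2 (Dvd.dvd.mul_right hen k)
      exact (h0 _).trans (h0 _).symm

include hTA hSA hD hDN hT hF in
theorem finBased_of_full {A I L : Type} [AddCommGroup A] [Finite A] [Nonempty I]
    (P : L → I → Option A) (hP : Reg P) (hr : ¬ Rect P)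
    (hk : ∀ k : ℕ, (∀ c ∈ Cyc4 P, k • c = 0) → ∀ a : A, k • a = 0) : FinBased (ARM A I L P) := by
  obtain ⟨n, e, hn, he, hen, h1, h2⟩ := exists_exp (Cyc4 P)
  have hne : n ∣ e := (h1 e).1 (hk e ((h2 e).2 dvd_rfl))
  obtain rfl : e = n := Nat.dvd_antisymm hen hne
  obtain ⟨N, hN⟩ := hT e e
  refine (hF (ARM A I L P)).1 ⟨N, ?_⟩
  intro T _ hST u v huv
  obtain ⟨t1, -⟩ := hN (ARM A I L P) T hST
  have hAT := t1 (hSA e A I L P hn ((h1 e).2 dvd_rfl))
  obtain ⟨d1, d2, d3⟩ := hD A I L P hP u v huv
  obtain ⟨d4, d5, d6⟩ := hDN A I L P hP u v huv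
  have d3' := d3 e (fun k hk => (h2 k).1 hk)
  have hr' := hr
  unfold Rect at hr'
  push Not at hr'
  obtain ⟨l, l', i, i', a1, a2, a3, a4⟩ := hr'
  rw [sat_iff_val]
  intro f
  have hii : i ≠ i' := by
    rintro rfl
    exact a4 a3
  have hll : l ≠ l' := by
    rintro rfl
    exact a4 a2
  refine hTA e hn T hAT f (u.1 :: u.2) (v.1 :: v.2) (List.cons_ne_nil _ _) (List.cons_ne_nil _ _)
    ?_ ?_ (d6 hr) d3'
  · rw [List.head?_cons, List.head?_cons, d4 ⟨l, i, i', hii, a1, a2⟩]
  · rw [List.getLast?_eq_getLast_of_ne_nil (List.cons_ne_nil _ _),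
      List.getLast?_eq_getLast_of_ne_nil (List.cons_ne_nil _ _), d5 ⟨l, l', i, hll, a1, a3⟩]

variable (hPo : PosetStmt) (hSh : ShortStmt) (hCo : CoreStmt) (hLo : LongStmt)

include hD hDN hF hPo hSh hCo hLo in
theorem not_finBased {A I L : Type} [AddCommGroup A] [Finite A] [Finite L] [Nonempty I]
    (P : L → I → Option A) (hP : Reg P) (hc : ¬ Crit P) : ¬ FinBased (ARM A I L P) := by
  unfold Crit at hc
  push Not at hc
  obtain ⟨hr, k, hk1, a, hk2⟩ := hc
  obtain ⟨n, e, hn, he, hen, h1, h2⟩ := exists_exp (Cyc4 P)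
  obtain ⟨d, rfl⟩ := hen
  have hd : d ≠ 1 := by
    rintro rfl
    rw [mul_one] at h1
    exact hk2 ((h1 k).2 ((h2 k).1 hk1) a)
  obtain ⟨q, hq, hqd⟩ := Nat.exists_prime_and_dvd hd
  have heq : e * q ∣ e * d := Nat.mul_dvd_mul_left e hqd
  have hr' := hr
  unfold Rect at hr'
  push Not at hr'
  obtain ⟨l, l', i, i', a1, a2, a3, a4⟩ := hr'
  have hii : i ≠ i' := by
    rintro rfl
    exact a4 a3
  have hll : l ≠ l' := by
    rintro rfl
    exact a4 a2
  refine (hF (ARM A I L P)).2 ?_
  intro N
  obtain ⟨X, i1, i2, i3, σ, h3, h4⟩ := hPo q (Nat.card L) (2 * N * q + 2) hq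
  refine ⟨ARM (ZMod (e * q)) X X (tP q e σ), inferInstance, ?_, ?_⟩
  · intro u v hu hv huv
    obtain ⟨d1, d2, d3⟩ := hD A I L P hP u v huv
    obtain ⟨d4, d5, d6⟩ := hDN A I L P hP u v huv
    exact hSh q e (e * d) N _ X σ hq he heq h3 le_rfl u v hu hv (d4 ⟨l, i, i', hii, a1, a2⟩)
      (d5 ⟨l, l', i, hll, a1, a3⟩) d1 (d2 _ fun k hk => (h1 k).1 hk) (d6 hr)
      (d3 _ fun k hk => (h2 k).1 hk)
  · exact hLo hCo q e _ A I L P X σ hq he (by omega) ((h2 e).2 dvd_rfl) h3 h4

include hTA hTR hSA hSR hD hDN hDR hT hF hPo hSh hCo hLo in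
theorem finBased_iff {A I L : Type} [AddCommGroup A] [Finite A] [Finite L] [Nonempty I]
    (P : L → I → Option A) (hP : Reg P) : FinBased (ARM A I L P) ↔ Crit P := by
  constructor
  · intro h
    by_contra hc
    exact not_finBased hD hDN hF hPo hSh hCo hLo P hP hc h
  · intro hc
    by_cases hr : Rect P
    · exact finBased_of_rect hTR hSR hD hDN hDR hT hF P hP hr
    · exact finBased_of_full hTA hSA hD hDN hT hF P hP hr (hc.resolve_left hr)

variable (hRe : ReesStmt) (hCS : CritSStmt) (hComp : CompStmt) (hLink : LinkStmt)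

theorem critS_congr {S T : Type} [Semigroup S] [Semigroup T] (φ : S ≃* T) (z : S) :
    CritS z ↔ CritS (φ z) := by
  have hpw : ∀ (x : S) (k : ℕ), φ (pw x k) = pw (φ x) k := by
    intro x k
    induction k with
    | zero => rfl
    | succ k ih => show φ (pw x k * x) = _; rw [map_mul, ih]; rfl
  have hne : ∀ x : S, x ≠ z ↔ φ x ≠ φ z := fun x => not_congr φ.injective.eq_iff.symm
  have hcard : Nat.card S = Nat.card T := Nat.card_congr φ.toEquiv
  unfold CritS
  rw [hcard]
  refine or_congr ?_ ?_
  · constructor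
    · intro h x y x' y'
      obtain ⟨x, rfl⟩ := φ.surjective x
      obtain ⟨y, rfl⟩ := φ.surjective y
      obtain ⟨x', rfl⟩ := φ.surjective x'
      obtain ⟨y', rfl⟩ := φ.surjective y'
      simp only [← map_mul, ← hne]
      exact h x y x' y'
    · intro h x y x' y'
      have := h (φ x) (φ y) (φ x') (φ y')
      simpa only [← map_mul, ← hne] using this
  · refine forall_congr' fun k => forall_congr' fun _ => ?_
    refine imp_congr ?_ ?_
    · constructor
      · intro h x x' y y' w
        obtain ⟨x, rfl⟩ := φ.surjective x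
        obtain ⟨y, rfl⟩ := φ.surjective y
        obtain ⟨x', rfl⟩ := φ.surjective x'
        obtain ⟨y', rfl⟩ := φ.surjective y'
        obtain ⟨w, rfl⟩ := φ.surjective w
        simp only [← map_mul, ← hne, ← hpw]
        intro h1 h2 h3 h4 h5 h6 h7 h8
        rw [h x x' y y' w h1 h2 h3 h4 h5 h6 h7 h8]
      · intro h x x' y y' w h1 h2 h3 h4 h5 h6 h7 h8
        apply φ.injective
        have := h (φ x) (φ x') (φ y) (φ y') (φ w)
        simp only [← map_mul, ← hne, ← hpw] at this
        exact this h1 h2 h3 h4 h5 h6 h7 h8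
    · constructor
      · intro h x
        obtain ⟨x, rfl⟩ := φ.surjective x
        simp only [← map_mul, ← hne, ← hpw]
        intro h1
        rw [h x h1]
      · intro h x h1
        apply φ.injective
        have := h (φ x)
        simp only [← map_mul, ← hne, ← hpw] at this
        exact this h1

include hTA hTR hSA hSR hD hDN hDR hT hF hPo hSh hCo hLo hRe hCS in
theorem finBased_iff_critS {S : Type} [Semigroup S] [Finite S] (z : S) (hz : IsC0 z) :
    FinBased S ↔ CritS z := by
  obtain ⟨A, I, L, i1, i2, i3, i4, i5, P, hP, φ, hφ⟩ := hRe S z hz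
  rw [finBased_congr φ, critS_congr φ, hφ, hCS A I L P hP]
  exact finBased_iff hTA hTR hSA hSR hD hDN hDR hT hF hPo hSh hCo hLo P hP

include hTA hTR hSA hSR hD hDN hDR hT hF hPo hSh hCo hLo hRe hCS hComp hLink in
theorem final :
  ∃ P : ℕ × List (List ℕ) → Prop, ComputablePred P ∧
    ∀ (n : ℕ) (op : Fin n → Fin n → Fin n),
      (∀ a b c : Fin n, op (op a b) c = op a (op b c)) →
      (P (n, List.ofFn (fun i : Fin n => List.ofFn (fun j : Fin n => ((op i j : Fin n) : ℕ)))) ↔
        ((∃ z : Fin n, (∀ x : Fin n, op z x = z ∧ op x z = z) ∧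
            (∃ x y : Fin n, op x y ≠ z) ∧
            (∀ I : Set (Fin n), z ∈ I → (∀ x ∈ I, ∀ s : Fin n, op s x ∈ I ∧ op x s ∈ I) →
                I = {z} ∨ I = Set.univ) ∧
            (∃ e : Fin n, e ≠ z ∧ op e e = e ∧
                ∀ f : Fin n, f ≠ z → op f f = f → op e f = f → op f e = f → f = e) ∧
            (∀ e : Fin n, e ≠ z → op e e = e → ∀ a b : Fin n,
                op (op (op e a) e) (op (op e b) e) = op (op (op e b) e) (op (op e a) e))) ∧
         (∃ B : Finset ((ℕ × List ℕ) × (ℕ × List ℕ)),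
            (∀ p ∈ B, ∀ f : ℕ → Fin n,
                p.1.2.foldl (fun a y => op a (f y)) (f p.1.1) =
                  p.2.2.foldl (fun a y => op a (f y)) (f p.2.1)) ∧
            ∀ u v : ℕ × List ℕ,
              (∀ f : ℕ → Fin n,
                u.2.foldl (fun a y => op a (f y)) (f u.1) =
                  v.2.foldl (fun a y => op a (f y)) (f v.1)) →
              ∀ (T : Type) [Semigroup T],
                (∀ p ∈ B, ∀ g : ℕ → T,
                  p.1.2.foldl (fun a y => a * g y) (g p.1.1) =
                    p.2.2.foldl (fun a y => a * g y) (g p.2.1)) →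
                ∀ g : ℕ → T,
                  u.2.foldl (fun a y => a * g y) (g u.1) =
                    v.2.foldl (fun a y => a * g y) (g v.1)))) := by
  refine ⟨fun p => PredTab p.1 p.2, hComp, ?_⟩
  intro n op hop
  refine (hLink n op hop).trans ?_
  letI : Semigroup (Fin n) := { mul := op, mul_assoc := hop }
  constructor
  · rintro ⟨z, h1, h2⟩
    exact ⟨⟨z, h1⟩, (finBased_iff_critS hTA hTR hSA hSR hD hDN hDR hT hF hPo hSh hCo hLo hRe hCS
      z h1).2 h2⟩
  · rintro ⟨⟨z, h1⟩, h2⟩
    exact ⟨z, h1, (finBased_iff_critS hTA hTR hSA hSR hD hDN hDR hT hF hPo hSh hCo hLo hRe hCS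
      z h1).1 h2⟩

end main

end Pool.Agent.W435.FB
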