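import Mathlib

/-!
# Finite basability of completely 0-simple semigroups over abelian groups: definitions

Common definitions and the statements (`...Stmt : Prop`) of the parts of the proof of the
decidability theorem for MP_370e98_al.
-/

set_option autoImplicit false

namespace Pool.Agent.W435.FB

open Relation

/-! ## words, identities -/

/-- a nonempty word: first letter and the list of the other letters -/
abbrev Wd := ℕ × List ℕ

/-- value of a nonempty word -/
def ev {S : Type} [Mul S] (f : ℕ → S) (w : Wd) : S := w.2.foldl (fun a y => a * f y) (f w.1)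

/-- the identity `u ≈ v` holds in `S` -/
def Sat (S : Type) [Mul S] (u v : Wd) : Prop := ∀ f : ℕ → S, ev f u = ev f v

/-- `S` is finitely based -/
def FinBased (S : Type) [Semigroup S] : Prop :=
  ∃ B : Finset (Wd × Wd), (∀ p ∈ B, Sat S p.1 p.2) ∧
    ∀ u v : Wd, Sat S u v → ∀ (T : Type) [Semigroup T], (∀ p ∈ B, Sat T p.1 p.2) → Sat T u v

/-- value of a (possibly empty) word in the semigroup with an identity adjoined -/
def val {T : Type} [Semigroup T] (f : ℕ → T) (w : List ℕ) : WithOne T :=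
  (w.map fun x => (f x : WithOne T)).prod

/-- the adjacent pairs of a word, in order -/
def adj (w : List ℕ) : List (ℕ × ℕ) := w.zip w.tail

/-- `E w x y`: the letter `x` is immediately followed by the letter `y` somewhere in `w` -/
def E (w : List ℕ) (x y : ℕ) : Prop := (x, y) ∈ adj w

/-- `Zig R x y`: the end of `x` and the beginning of `y` are connected by a zigzag of pairs of `R` -/
inductive Zig (R : ℕ → ℕ → Prop) : ℕ → ℕ → Prop
  | base {x y : ℕ} : R x y → Zig R x y
  | step {x b a y : ℕ} : R x b → R a b → Zig R a y → Zig R x y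

/-! ## schemas of identities; `x y ...` are in `T`, `a b c` in `T` with an identity adjoined -/

/-- schemas valid in all completely 0-simple semigroups over abelian groups of exponent `n` -/
structure SchA (n : ℕ) (T : Type) [Semigroup T] : Prop where
  s1 : ∀ (x : T) (a b : WithOne T),
    (x : WithOne T) * a * x * b * x = x * b * x * a * x
  s2 : ∀ (x y : T) (a b c : WithOne T),
    (x : WithOne T) * a * y * c * x * b * y = x * b * y * c * x * a * y
  s3 : ∀ (x : T) (a : WithOne T), (x : WithOne T) * a * x = (x * a) ^ (n + 1) * x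

/-- further schemas valid if the sandwich matrix is rectangular and `e` kills all 4-cycles -/
structure SchR (n e : ℕ) (T : Type) [Semigroup T] : Prop extends SchA n T where
  r1 : ∀ (x y z w : T) (a b : WithOne T),
    (x : WithOne T) * y * a * x * w * b * z * w =
      x * y * a * x * w * b * z * (y * a * x * w * b * z) ^ n * w
  m3 : ∀ x y : T, (x : WithOne T) ^ 2 * (y : WithOne T) ^ 2 * (x * y) ^ (e + 1) =
      (x : WithOne T) ^ 2 * (y : WithOne T) ^ 2 * (x : WithOne T) ^ (e + 1) * (y : WithOne T) ^ (e + 1)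
  r2 : e = 1 → ∀ (x y x' y1 : T) (a b : WithOne T),
    (x : WithOne T) * y * a * x' * y * b * x * y1 =
      x * y * a * x' * y * b * x * (y * a * x') ^ n * y1
  r2' : e = 1 → ∀ (x y y' x0 : T) (a b : WithOne T),
    (x0 : WithOne T) * y * b * x * y' * a * x * y =
      x0 * (y' * a * x) ^ n * y * b * x * y' * a * x * y

/-- schema for changing the first letter (all `|I_j| = 1`) -/
def SchF (n : ℕ) (T : Type) [Semigroup T] : Prop :=
  ∀ (x y y' : T) (a b : WithOne T),
    (y : WithOne T) * b * x * y' * a * x * y = (y' * a * x) ^ n * y * b * x * y' * a * x * y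

/-- schema for changing the last letter (all `|Λ_j| = 1`) -/
def SchL (n : ℕ) (T : Type) [Semigroup T] : Prop :=
  ∀ (x y x' : T) (a b : WithOne T),
    (x : WithOne T) * y * a * x' * y * b * x = x * y * a * x' * y * b * x * (y * a * x') ^ n

/-- schema for the one-component case -/
def Sch1 (n : ℕ) (T : Type) [Semigroup T] : Prop := ∀ x : T, (x : WithOne T) ^ (n + 1) = x

/-! ## Rees matrix semigroups with zero, abelian group `A` written additively -/

/-- the Rees matrix semigroup with zero with sandwich matrix `P` (`none` is the zero entry) -/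
inductive ARM (A I L : Type) (P : L → I → Option A) : Type
  | zero : ARM A I L P
  | el (i : I) (g : A) (l : L) : ARM A I L P

/-- multiplication of the Rees matrix semigroup -/
def ARM.mul' {A I L : Type} [AddCommGroup A] {P : L → I → Option A} :
    ARM A I L P → ARM A I L P → ARM A I L P
  | .el i g l, .el j h m => (P l j).elim .zero fun p => .el i (g + p + h) m
  | _, _ => .zero

theorem ARM.mul_assoc' {A I L : Type} [AddCommGroup A] {P : L → I → Option A}
    (a b c : ARM A I L P) :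
    ARM.mul' (ARM.mul' a b) c = ARM.mul' a (ARM.mul' b c) := by
  rcases a with _ | ⟨i, g, l⟩
  · rfl
  rcases b with _ | ⟨j, h, m⟩
  · rfl
  rcases c with _ | ⟨k, r, q⟩
  · simp only [ARM.mul']
    rcases P l j with _ | x <;> rfl
  · simp only [ARM.mul']
    rcases h1 : P l j with _ | x <;> rcases h2 : P m k with _ | y <;>
      simp [h1, h2, add_assoc]

instance ARM.semigroup {A I L : Type} [AddCommGroup A] {P : L → I → Option A} :
    Semigroup (ARM A I L P) where
  mul := ARM.mul'
  mul_assoc := ARM.mul_assoc'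

/-- `ARM` as an option type -/
def ARM.equiv {A I L : Type} (P : L → I → Option A) : ARM A I L P ≃ Option (I × A × L) where
  toFun
    | .zero => none
    | .el i g l => some (i, g, l)
  invFun
    | none => .zero
    | some x => .el x.1 x.2.1 x.2.2
  left_inv x := by cases x <;> rfl
  right_inv x := by rcases x with _ | ⟨i, g, l⟩ <;> rfl

instance {A I L : Type} {P : L → I → Option A} [Finite A] [Finite I] [Finite L] :
    Finite (ARM A I L P) := Finite.of_equiv _ (ARM.equiv P).symm

theorem ARM.el_mul_el {A I L : Type} [AddCommGroup A] {P : L → I → Option A} {i j : I} {g h : A}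
    {l m : L} {p : A} (hp : P l j = some p) :
    (ARM.el i g l : ARM A I L P) * ARM.el j h m = ARM.el i (g + p + h) m := by
  show (P l j).elim _ _ = _
  rw [hp]; rfl

theorem ARM.el_mul_el_none {A I L : Type} [AddCommGroup A] {P : L → I → Option A} {i j : I}
    {g h : A} {l m : L} (hp : P l j = none) :
    (ARM.el i g l : ARM A I L P) * ARM.el j h m = ARM.zero := by
  show (P l j).elim _ _ = _
  rw [hp]; rfl

theorem ARM.zero_mul' {A I L : Type} [AddCommGroup A] {P : L → I → Option A}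
    (x : ARM A I L P) : ARM.zero * x = ARM.zero := rfl

theorem ARM.mul_zero' {A I L : Type} [AddCommGroup A] {P : L → I → Option A}
    (x : ARM A I L P) : x * ARM.zero = ARM.zero := by
  rcases x with _ | ⟨i, g, l⟩ <;> rfl

section props
variable {A I L : Type}

/-- every row and every column of the matrix has a nonzero entry -/
def Reg (P : L → I → Option A) : Prop :=
  (∀ l, ∃ i, (P l i).isSome) ∧ ∀ i, ∃ l, (P l i).isSome

/-- the graph of nonzero entries is a disjoint union of complete bipartite graphs -/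
def Rect (P : L → I → Option A) : Prop :=
  ∀ l l' i i', (P l i).isSome → (P l i').isSome → (P l' i).isSome → (P l' i').isSome

/-- the values of the 4-cycles -/
def Cyc4 [AddCommGroup A] (P : L → I → Option A) : Set A :=
  {c | ∃ (l m : L) (i j : I) (a b c' d : A), P l i = some a ∧ P m i = some b ∧ P m j = some c' ∧
    P l j = some d ∧ c = a - b + c' - d}

/-- the criterion -/
def Crit [AddCommGroup A] (P : L → I → Option A) : Prop :=
  Rect P ∨ ∀ k : ℕ, (∀ c ∈ Cyc4 P, k • c = 0) → ∀ a : A, k • a = 0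

end props

/-! ## Part A: the word problem modulo the schemas `SchA` -/

/-- Eulerian rearrangement -/
def EulerStmt : Prop :=
  ∀ (n : ℕ) (T : Type) [Semigroup T], SchA n T → ∀ (f : ℕ → T) (x : ℕ) (u v : List ℕ),
    (adj (x :: u)).Perm (adj (x :: v)) → val f (x :: u) = val f (x :: v)

/-- integer circulations on the edges of a word are combinations of closed factors -/
def CycStmt : Prop :=
  ∀ (u : List ℕ) (δ : ℕ → ℕ → ℤ), (∀ x y, δ x y ≠ 0 → E u x y) →
    (∀ x, ∑ y ∈ u.toFinset, δ x y = ∑ y ∈ u.toFinset, δ y x) →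
    ∃ ls : List (ℤ × ℕ × List ℕ),
      (∀ c ∈ ls, (c.2.1 :: c.2.2 ++ [c.2.1]) <:+: u) ∧
      ∀ x y, δ x y = (ls.map fun c => c.1 * ((adj (c.2.1 :: c.2.2 ++ [c.2.1])).count (x, y) : ℤ)).sum

/-- Theorem A -/
def TAStmt : Prop :=
  ∀ (n : ℕ), 0 < n → ∀ (T : Type) [Semigroup T], SchA n T → ∀ (f : ℕ → T) (u v : List ℕ),
    u ≠ [] → v ≠ [] → u.head? = v.head? → u.getLast? = v.getLast? →
    (∀ p, p ∈ adj u ↔ p ∈ adj v) → (∀ p, (adj u).count p ≡ (adj v).count p [MOD n]) →
    val f u = val f v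

/-! ## Part B: the rectangular case -/

/-- closure lemma -/
def CLStmt : Prop :=
  ∀ R : ℕ → ℕ → Prop,
    (∀ a b c d, R a b → R c d → (a, b) ≠ (c, d) → ReflTransGen R b c ∨ ReflTransGen R d a) →
    (∀ x y w z, R x y → R x w → R z w → ReflTransGen R y x → ReflTransGen R w z → R z y) →
    ∀ x y, Zig R x y → ReflTransGen R y x → R x y

/-- Theorem R: the word problem modulo the schemas `SchR` -/
def TRStmt : Prop :=
  ∀ (n e : ℕ), 0 < n → e ∣ n → ∀ (T : Type) [Semigroup T], SchR n e T →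
    ∀ (f : ℕ → T) (u v : List ℕ) (hu : u ≠ []) (hv : v ≠ []),
    (u.head hu = v.head hv ∨ (e = 1 ∧ SchF n T ∧
      ∃ x, Zig (E u) x (u.head hu) ∧ Zig (E u) x (v.head hv))) →
    (u.getLast hu = v.getLast hv ∨ (e = 1 ∧ SchL n T ∧
      ∃ y, Zig (E u) (u.getLast hu) y ∧ Zig (E u) (v.getLast hv) y)) →
    (∀ x, x ∈ u ↔ x ∈ v) → (∀ x, u.count x ≡ v.count x [MOD n]) →
    (∀ x y, Zig (E u) x y ↔ Zig (E v) x y) →
    (∀ p, (adj u).count p ≡ (adj v).count p [MOD e]) →
    val f u = val f v

/-! ## Part C: Rees matrix semigroups satisfy the schemas; consequences of identities -/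

def SchAStmt : Prop :=
  ∀ (n : ℕ) (A I L : Type) [AddCommGroup A] (P : L → I → Option A), 0 < n →
    (∀ a : A, n • a = 0) → SchA n (ARM A I L P)

def SchRStmt : Prop :=
  ∀ (n e : ℕ) (A I L : Type) [AddCommGroup A] (P : L → I → Option A), 0 < n →
    (∀ a : A, n • a = 0) → Rect P → (∀ c ∈ Cyc4 P, e • c = 0) →
    SchR n e (ARM A I L P) ∧
    ((∀ l i j, (P l i).isSome → (P l j).isSome → i = j) → SchF n (ARM A I L P)) ∧
    ((∀ l m i, (P l i).isSome → (P m i).isSome → l = m) → SchL n (ARM A I L P)) ∧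
    ((∀ l i, (P l i).isSome) → Sch1 n (ARM A I L P))

/-- consequences of an identity of a Rees matrix semigroup: letters and numbers of letters and
of adjacent pairs -/
def DataStmt : Prop :=
  ∀ (A I L : Type) [AddCommGroup A] [Nonempty I] (P : L → I → Option A), Reg P →
    ∀ u v : Wd, Sat (ARM A I L P) u v →
    (∀ x, x ∈ u.1 :: u.2 ↔ x ∈ v.1 :: v.2) ∧
    (∀ n : ℕ, (∀ k : ℕ, (∀ a : A, k • a = 0) → n ∣ k) →
      ∀ x, (u.1 :: u.2).count x ≡ (v.1 :: v.2).count x [MOD n]) ∧
    (∀ e : ℕ, (∀ k : ℕ, (∀ c ∈ Cyc4 P, k • c = 0) → e ∣ k) →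
      ∀ p, (adj (u.1 :: u.2)).count p ≡ (adj (v.1 :: v.2)).count p [MOD e])

/-- consequences of an identity: first and last letters, graph of adjacent pairs -/
def DataNRStmt : Prop :=
  ∀ (A I L : Type) [AddCommGroup A] [Nonempty I] (P : L → I → Option A), Reg P →
    ∀ u v : Wd, Sat (ARM A I L P) u v →
    ((∃ l i j, i ≠ j ∧ (P l i).isSome ∧ (P l j).isSome) → u.1 = v.1) ∧
    ((∃ l m i, l ≠ m ∧ (P l i).isSome ∧ (P m i).isSome) →
      (u.1 :: u.2).getLast (List.cons_ne_nil _ _) = (v.1 :: v.2).getLast (List.cons_ne_nil _ _)) ∧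
    (¬ Rect P → ∀ p, p ∈ adj (u.1 :: u.2) ↔ p ∈ adj (v.1 :: v.2))

/-- consequences of an identity in the rectangular case with at least two components -/
def DataRStmt : Prop :=
  ∀ (A I L : Type) [AddCommGroup A] [Nonempty I] (P : L → I → Option A), Reg P → Rect P →
    (∃ l i, P l i = none) →
    ∀ u v : Wd, Sat (ARM A I L P) u v →
    (∀ x y, Zig (E (u.1 :: u.2)) x y ↔ Zig (E (v.1 :: v.2)) x y) ∧
    (u.1 = v.1 ∨ ∃ x, Zig (E (u.1 :: u.2)) x u.1 ∧ Zig (E (u.1 :: u.2)) x v.1) ∧
    ((u.1 :: u.2).getLast (List.cons_ne_nil _ _) = (v.1 :: v.2).getLast (List.cons_ne_nil _ _) ∨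
      ∃ y, Zig (E (u.1 :: u.2)) ((u.1 :: u.2).getLast (List.cons_ne_nil _ _)) y ∧
        Zig (E (u.1 :: u.2)) ((v.1 :: v.2).getLast (List.cons_ne_nil _ _)) y)

/-! ## Part D: transfer of schemas, criteria for (non-)finite basability -/

/-- `T` satisfies all identities of `S` in letters `< N` and of length `≤ N` -/
def Small (N : ℕ) (S T : Type) [Semigroup S] [Semigroup T] : Prop :=
  ∀ u v : Wd, (∀ x ∈ u.1 :: u.2, x < N) → (∀ x ∈ v.1 :: v.2, x < N) →
    (u.1 :: u.2).length ≤ N → (v.1 :: v.2).length ≤ N → Sat S u v → Sat T u v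

def TransferStmt : Prop :=
  ∀ n e : ℕ, ∃ N : ℕ, ∀ (S T : Type) [Semigroup S] [Semigroup T], Small N S T →
    (SchA n S → SchA n T) ∧ (SchR n e S → SchR n e T) ∧ (SchF n S → SchF n T) ∧
    (SchL n S → SchL n T) ∧ (Sch1 n S → Sch1 n T)

def FinBasedCritStmt : Prop :=
  ∀ (S : Type) [Semigroup S],
    ((∃ N : ℕ, ∀ (T : Type) [Semigroup T], Small N S T → ∀ u v : Wd, Sat S u v → Sat T u v) →
      FinBased S) ∧
    ((∀ N : ℕ, ∃ (T : Type) (_ : Semigroup T),
      (∀ u v : Wd, (∀ x ∈ u.1 :: u.2, x < N) → (∀ x ∈ v.1 :: v.2, x < N) → Sat S u v → Sat T u v) ∧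
      ∃ u v : Wd, Sat S u v ∧ ¬ Sat T u v) → ¬ FinBased S)

/-! ## Part N: the non-finitely based case -/

/-- zigzag paths in a poset, with their number of steps -/
inductive Pth {P : Type} [LE P] : ℕ → P → P → Prop
  | refl (x : P) : Pth 0 x x
  | up {k : ℕ} {x y z : P} : Pth k x y → y ≤ z → Pth (k + 1) x z
  | dn {k : ℕ} {x y z : P} : Pth k x y → z ≤ y → Pth (k + 1) x z

/-- the parts of `GoodPoset` that do not involve dimension -/
structure SysPoset (q M : ℕ) (P : Type) [PartialOrder P] (σ : P → P) : Prop where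
  mono : Monotone σ
  per : ∀ x, σ^[q] x = x
  sys : ∀ k ≤ M, ∀ (x : P) (j : ℕ), Pth k x (σ^[j] x) → q ∣ j
  conn : ∀ x y : P, ∃ k, Pth k x y
  h1 : ∀ (A : Type) [AddCommGroup A] (c : P → P → A),
    (∀ x y z, x ≤ y → y ≤ z → c x z = c x y + c y z) →
      ∃ h : P → A, ∀ x y, x ≤ y → c x y = h x - h y

/-- Borsuk-Ulam type property: no equivariant labelling without a long alternating chain -/
def BU (q m : ℕ) (P : Type) [PartialOrder P] (σ : P → P) : Prop :=
  ∀ η : P → ZMod q, (∀ x, η (σ x) = η x + 1) →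
    ∃ l : List P, l.length = m + 1 ∧ l.Pairwise (· < ·) ∧ (l.map η).IsChain (· ≠ ·)

/-- boundary of a list (a list of length `k` is a simplex of dimension `k-1`; augmented) -/
noncomputable def bdl (q : ℕ) {P : Type} : List P → (List P →₀ ZMod q)
  | [] => 0
  | x :: l => Finsupp.single l 1 - Finsupp.mapDomain (List.cons x) (bdl q l)

/-- the boundary operator -/
noncomputable def bd (q : ℕ) {P : Type} : (List P →₀ ZMod q) →ₗ[ZMod q] (List P →₀ ZMod q) :=
  Finsupp.linearCombination (ZMod q) (bdl q)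

/-- the action of a self-map on chains -/
noncomputable def act (q : ℕ) {P : Type} (σ : P → P) :
    (List P →₀ ZMod q) →ₗ[ZMod q] (List P →₀ ZMod q) :=
  Finsupp.lmapDomain (ZMod q) (ZMod q) (List.map σ)

/-- `σ - 1` for even `i`, the norm `1 + σ + ⋯ + σ^(q-1)` for odd `i` -/
noncomputable def opn (q : ℕ) {P : Type} (σ : P → P) (i : ℕ) :
    (List P →₀ ZMod q) →ₗ[ZMod q] (List P →₀ ZMod q) :=
  if Even i then act q σ - LinearMap.id else ∑ j ∈ Finset.range q, act q (σ^[j])

/-- chains `w 0, ..., w m` realising the generator of the homology of the group of order `q` -/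
def WP (q m : ℕ) (P : Type) [PartialOrder P] (σ : P → P) : Prop :=
  ∃ w : ℕ → (List P →₀ ZMod q),
    (∀ i ≤ m, ∀ l ∈ (w i).support, l.length = i + 1 ∧ l.Pairwise (· < ·)) ∧
    bd q (w 0) = Finsupp.single [] 1 ∧ ∀ i < m, bd q (w (i + 1)) = opn q σ i (w i)

/-- the poset of nonempty finite chains, ordered by inclusion -/
def Ch (P : Type) [PartialOrder P] : Type := {l : List P // l ≠ [] ∧ l.Pairwise (· < ·)}

instance (P : Type) [PartialOrder P] : PartialOrder (Ch P) where
  le a b := a.1.Sublist b.1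
  le_refl a := List.Sublist.refl _
  le_trans a b c h1 h2 := List.Sublist.trans h1 h2
  le_antisymm a b h1 h2 := Subtype.ext (List.Sublist.antisymm h1 h2)

/-- the induced map -/
def chMap {P : Type} [PartialOrder P] (σ : P → P) (h : StrictMono σ) (a : Ch P) : Ch P :=
  ⟨a.1.map σ, by simpa using a.2.1, by
    rw [List.pairwise_map]; exact a.2.2.imp (fun h' => h h')⟩

def BUStmt : Prop :=
  ∀ (q m : ℕ) (P : Type) [PartialOrder P] (σ : P → P), q.Prime → WP q m P σ → BU q m P σ

def PosetBaseStmt : Prop :=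
  ∀ q m : ℕ, q.Prime → ∃ (P : Type) (_ : PartialOrder P) (_ : Finite P) (_ : Nonempty P)
    (σ : P → P), SysPoset q 1 P σ ∧ WP q m P σ

def StepSysStmt : Prop :=
  ∀ (q M : ℕ) (P : Type) [PartialOrder P] [Finite P] (σ : P → P) (hσ : StrictMono σ), q.Prime →
    0 < M → SysPoset q M P σ → SysPoset q (2 * M + 1) (Ch P) (chMap σ hσ)

def StepWStmt : Prop :=
  ∀ (q m : ℕ) (P : Type) [PartialOrder P] (σ : P → P) (hσ : StrictMono σ),
    WP q m P σ → WP q m (Ch P) (chMap σ hσ)

/-- good posets exist -/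
def PosetStmt : Prop :=
  ∀ q m M : ℕ, q.Prime → ∃ (P : Type) (_ : PartialOrder P) (_ : Finite P) (_ : Nonempty P)
    (σ : P → P), SysPoset q M P σ ∧ BU q m P σ

open Classical in
/-- the sandwich matrix given by a poset with automorphism: the entry at `(x, y)` is nonzero iff
`σ^j x ≤ y` for some `j < q`, and then it is the least such `j` -/
noncomputable def tP (q e : ℕ) {P : Type} [PartialOrder P] (σ : P → P) :
    P → P → Option (ZMod (e * q)) :=
  fun x y => if h : ∃ j, j < q ∧ σ^[j] x ≤ y then some ((Nat.find h : ℕ) : ZMod (e * q)) else none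

/-- the Rees matrix semigroup of a poset of large systole satisfies the short identities -/
def ShortStmt : Prop :=
  ∀ (q e n N M : ℕ) (P : Type) [PartialOrder P] [Finite P] (σ : P → P), q.Prime → 0 < e →
    e * q ∣ n → SysPoset q M P σ → 2 * N * q + 2 ≤ M →
    ∀ u v : Wd, (∀ x ∈ u.1 :: u.2, x < N) → (∀ x ∈ v.1 :: v.2, x < N) →
    u.1 = v.1 →
    (u.1 :: u.2).getLast (List.cons_ne_nil _ _) = (v.1 :: v.2).getLast (List.cons_ne_nil _ _) →
    (∀ x, x ∈ u.1 :: u.2 ↔ x ∈ v.1 :: v.2) →
    (∀ x, (u.1 :: u.2).count x ≡ (v.1 :: v.2).count x [MOD n]) →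
    (∀ p, p ∈ adj (u.1 :: u.2) ↔ p ∈ adj (v.1 :: v.2)) →
    (∀ p, (adj (u.1 :: u.2)).count p ≡ (adj (v.1 :: v.2)).count p [MOD e]) →
    Sat (ARM (ZMod (e * q)) P P (tP q e σ)) u v

/-- monodromy is trivial for a map of a high-dimensional poset into a sandwich matrix -/
def CoreStmt : Prop :=
  ∀ (q e M : ℕ) (A I L : Type) [AddCommGroup A] [Finite A] [Finite L] (PS : L → I → Option A)
    (P : Type) [PartialOrder P] [Finite P] (σ : P → P), q.Prime →
    (∀ c ∈ Cyc4 PS, e • c = 0) → SysPoset q M P σ → BU q (Nat.card L) P σ →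
    ∀ (f : P → L) (g : P → I) (p : P → P → A), (∀ x, f (σ x) = f x) → (∀ x, g (σ x) = g x) →
    (∀ x y, x ≤ y → PS (f x) (g y) = some (p x y)) →
    ∀ (k : ℕ) (xs ys : ℕ → P), (∀ t < k, xs t ≤ ys t ∧ xs (t + 1) ≤ ys t) →
    xs k = σ (xs 0) →
    e • ∑ t ∈ Finset.range k, (p (xs t) (ys t) - p (xs (t + 1)) (ys t)) = 0

/-- the long identity -/
def LongStmt : Prop :=
  CoreStmt → ∀ (q e M : ℕ) (A I L : Type) [AddCommGroup A] [Finite A] [Finite L]
    (PS : L → I → Option A) (P : Type) [PartialOrder P] [Finite P] [Nonempty P] (σ : P → P),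
    q.Prime → 0 < e → 2 ≤ M →
    (∀ c ∈ Cyc4 PS, e • c = 0) → SysPoset q M P σ → BU q (Nat.card L) P σ →
    ∃ u v : Wd, Sat (ARM A I L PS) u v ∧ ¬ Sat (ARM (ZMod (e * q)) P P (tP q e σ)) u v

/-! ## Part S: structure of finite 0-simple semigroups with abelian subgroups -/

/-- 0-simple with zero `z`, primitive idempotent, abelian local monoids (as in the frozen statement) -/
def IsC0 {S : Type} [Semigroup S] (z : S) : Prop :=
  (∀ x : S, z * x = z ∧ x * z = z) ∧ (∃ x y : S, x * y ≠ z) ∧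
  (∀ J : Set S, z ∈ J → (∀ x ∈ J, ∀ s : S, s * x ∈ J ∧ x * s ∈ J) → J = {z} ∨ J = Set.univ) ∧
  (∃ e : S, e ≠ z ∧ e * e = e ∧
    ∀ f : S, f ≠ z → f * f = f → e * f = f → f * e = f → f = e) ∧
  (∀ e : S, e ≠ z → e * e = e → ∀ a b : S, (e * a * e) * (e * b * e) = (e * b * e) * (e * a * e))

def ReesStmt : Prop :=
  ∀ (S : Type) [Semigroup S] [Finite S] (z : S), IsC0 z →
    ∃ (A I L : Type) (_ : AddCommGroup A) (_ : Finite A) (_ : Finite I) (_ : Finite L)
      (_ : Nonempty I) (P : L → I → Option A), Reg P ∧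
      ∃ φ : S ≃* ARM A I L P, φ z = ARM.zero

/-- `pw x k = x ^ (k + 1)` -/
def pw {S : Type} [Mul S] (x : S) : ℕ → S
  | 0 => x
  | k + 1 => pw x k * x

/-- the criterion expressed in the semigroup -/
def CritS {S : Type} [Semigroup S] (z : S) : Prop :=
  (∀ x y x' y' : S, x * y ≠ z → x * y' ≠ z → x' * y ≠ z → x' * y' ≠ z) ∨
  ∀ k : ℕ, k < Nat.card S →
    (∀ x x' y y' w : S, w * x ≠ z → w * x' ≠ z → y * w ≠ z → y' * w ≠ z →
      x * y ≠ z → x' * y ≠ z → x * y' ≠ z → x' * y' ≠ z →
      w * pw (x * y * w * x' * y' * w) k = w * pw (x' * y * w * x * y' * w) k) →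
    ∀ x : S, x * x ≠ z → pw x (k + 1) = x

def CritSStmt : Prop :=
  ∀ (A I L : Type) [AddCommGroup A] [Finite A] [Finite I] [Finite L] [Nonempty I]
    (P : L → I → Option A), Reg P → (CritS (ARM.zero : ARM A I L P) ↔ Crit P)

/-! ## Part T: tables -/

/-- entry of a table -/
def tb (t : List (List ℕ)) (i j : ℕ) : ℕ := (t.getD i []).getD j 0

/-- powers computed from a table: `tpw t x k = x ^ (k + 1)` -/
def tpw (t : List (List ℕ)) (x : ℕ) : ℕ → ℕ
  | 0 => x
  | k + 1 => tb t (tpw t x k) x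

/-- the decision procedure: a formula with bounded quantifiers about the table `t` of size `n` -/
def PredTab (n : ℕ) (t : List (List ℕ)) : Prop :=
  ∃ z < n, (∀ x < n, tb t z x = z ∧ tb t x z = z) ∧ (∃ x < n, ∃ y < n, tb t x y ≠ z) ∧
    (∀ a < n, a ≠ z → ∀ b < n, ∃ x < n, ∃ y < n, tb t (tb t x a) y = b) ∧
    (∃ e < n, e ≠ z ∧ tb t e e = e ∧
      ∀ f < n, f ≠ z → tb t f f = f → tb t e f = f → tb t f e = f → f = e) ∧
    (∀ e < n, e ≠ z → tb t e e = e → ∀ a < n, ∀ b < n,
      tb t (tb t (tb t e a) e) (tb t (tb t e b) e) =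
        tb t (tb t (tb t e b) e) (tb t (tb t e a) e)) ∧
    ((∀ x < n, ∀ y < n, ∀ x' < n, ∀ y' < n,
        tb t x y ≠ z → tb t x y' ≠ z → tb t x' y ≠ z → tb t x' y' ≠ z) ∨
      ∀ k < n,
        (∀ x < n, ∀ x' < n, ∀ y < n, ∀ y' < n, ∀ w < n,
          tb t w x ≠ z → tb t w x' ≠ z → tb t y w ≠ z → tb t y' w ≠ z →
          tb t x y ≠ z → tb t x' y ≠ z → tb t x y' ≠ z → tb t x' y' ≠ z →
          tb t w (tpw t (tb t (tb t (tb t (tb t (tb t x y) w) x') y') w) k) =
            tb t w (tpw t (tb t (tb t (tb t (tb t (tb t x' y) w) x) y') w) k)) →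
        ∀ x < n, tb t x x ≠ z → tpw t x (k + 1) = x)

def CompStmt : Prop := ComputablePred fun p : ℕ × List (List ℕ) => PredTab p.1 p.2

def LinkStmt : Prop :=
  ∀ (n : ℕ) (op : Fin n → Fin n → Fin n) (h : ∀ a b c : Fin n, op (op a b) c = op a (op b c)),
    PredTab n (List.ofFn (fun i : Fin n => List.ofFn (fun j : Fin n => ((op i j : Fin n) : ℕ)))) ↔
      ∃ z : Fin n, @IsC0 (Fin n) { mul := op, mul_assoc := h } z ∧
        @CritS (Fin n) { mul := op, mul_assoc := h } z

end Pool.Agent.W435.FB
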