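import Mathlib
import Pool.Agent.W435.FB.Defs

/-!
# The decision procedure is computable
-/

set_option autoImplicit false

namespace Pool.Agent.W435.FB

namespace CompAux

variable {α β : Type} [Primcodable α] [Primcodable β]

theorem pp_forall {f : α → List β} {P : α → β → Prop} (hf : Primrec f)
    (hP : PrimrecPred fun p : α × β => P p.1 p.2) : PrimrecPred fun a => ∀ b ∈ f a, P a b := by
  have h1 : PrimrecRel fun (b : β) (a : α) => P a b :=
    PrimrecPred.comp hP (Primrec.pair Primrec.snd Primrec.fst)
  exact h1.forall_mem_list.comp hf Primrec.id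

theorem pp_exists {f : α → List β} {P : α → β → Prop} (hf : Primrec f)
    (hP : PrimrecPred fun p : α × β => P p.1 p.2) : PrimrecPred fun a => ∃ b ∈ f a, P a b := by
  have h1 : PrimrecRel fun (b : β) (a : α) => P a b :=
    PrimrecPred.comp hP (Primrec.pair Primrec.snd Primrec.fst)
  exact h1.exists_mem_list.comp hf Primrec.id

theorem pp_imp {P Q : α → Prop} (hP : PrimrecPred P) (hQ : PrimrecPred Q) :
    PrimrecPred fun a => (P a → Q a) := by
  classical
  refine (hP.not.or hQ).of_eq fun a => ?_
  tauto

theorem pp_and {P Q : α → Prop} (hP : PrimrecPred P) (hQ : PrimrecPred Q) :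
    PrimrecPred fun a => (P a ∧ Q a) := hP.and hQ

theorem pp_or {P Q : α → Prop} (hP : PrimrecPred P) (hQ : PrimrecPred Q) :
    PrimrecPred fun a => (P a ∨ Q a) := hP.or hQ

theorem pp_forall_lt {f : α → ℕ} {P : α → ℕ → Prop} (hf : Primrec f)
    (hP : PrimrecPred fun p : α × ℕ => P p.1 p.2) : PrimrecPred fun a => ∀ b < f a, P a b :=
  (pp_forall (Primrec.list_range.comp hf) hP).of_eq (fun a => by simp)

theorem pp_exists_lt {f : α → ℕ} {P : α → ℕ → Prop} (hf : Primrec f)
    (hP : PrimrecPred fun p : α × ℕ => P p.1 p.2) : PrimrecPred fun a => ∃ b < f a, P a b :=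
  (pp_exists (Primrec.list_range.comp hf) hP).of_eq (fun a => by simp)

theorem pp_eq {f g : α → ℕ} (hf : Primrec f) (hg : Primrec g) :
    PrimrecPred fun a => f a = g a := Primrec.eq.comp hf hg

theorem pp_ne {f g : α → ℕ} (hf : Primrec f) (hg : Primrec g) :
    PrimrecPred fun a => f a ≠ g a := (pp_eq hf hg).not

theorem pr_tb {t : α → List (List ℕ)} {i j : α → ℕ} (ht : Primrec t) (hi : Primrec i)
    (hj : Primrec j) : Primrec fun a => tb (t a) (i a) (j a) := by
  unfold tb
  exact (Primrec.list_getD (α := ℕ) 0).comp ((Primrec.list_getD (α := List ℕ) []).comp ht hi) hj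

theorem pr_tpw {t : α → List (List ℕ)} {x k : α → ℕ} (ht : Primrec t) (hx : Primrec x)
    (hk : Primrec k) : Primrec fun a => tpw (t a) (x a) (k a) := by
  have h0 : Primrec fun p : List (List ℕ) × ℕ => p.2 := Primrec.snd
  have hs : Primrec₂ fun (p : List (List ℕ) × ℕ) (q : ℕ × ℕ) => tb p.1 q.2 p.2 :=
    pr_tb (Primrec.fst.comp Primrec.fst) (Primrec.snd.comp Primrec.snd)
      (Primrec.snd.comp Primrec.fst)
  have h1 := Primrec.nat_rec h0 hs
  have h2 : Primrec₂ fun (p : List (List ℕ) × ℕ) (k : ℕ) => tpw p.1 p.2 k := by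
    refine h1.of_eq fun p k => ?_
    induction k with
    | zero => rfl
    | succ k ih => simp only [tpw]; rw [← ih]
  exact h2.comp (Primrec.pair ht hx) hk

theorem pr_succ {k : α → ℕ} (hk : Primrec k) : Primrec fun a => k a + 1 :=
  Primrec.succ.comp hk

theorem pv_fst {γ : Type} [Primcodable γ] {f : γ → α × β} (hf : Primrec f) :
    Primrec fun a => (f a).1 := Primrec.fst.comp hf

theorem pv_snd {γ : Type} [Primcodable γ] {f : γ → α × β} (hf : Primrec f) :
    Primrec fun a => (f a).2 := Primrec.snd.comp hf

end CompAux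

open CompAux

theorem comp : CompStmt := by
  unfold CompStmt
  apply PrimrecPred.computablePred
  unfold PredTab
  repeat' first
    | with_reducible refine pp_and ?_ ?_
    | with_reducible refine pp_or ?_ ?_
    | with_reducible refine pp_exists_lt ?_ ?_
    | with_reducible refine pp_forall_lt ?_ ?_
    | with_reducible refine pp_ne ?_ ?_
    | with_reducible refine pp_imp ?_ ?_
    | with_reducible refine pp_eq ?_ ?_
    | with_reducible refine pr_tb ?_ ?_ ?_
    | with_reducible refine pr_tpw ?_ ?_ ?_
    | with_reducible refine pr_succ ?_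
    | with_reducible exact Primrec.fst
    | with_reducible exact Primrec.snd
    | with_reducible refine pv_snd ?_
    | with_reducible refine pv_fst ?_

end Pool.Agent.W435.FB
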