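import Pool.Agent.W435.FB.Base

/-!
# Consequences of an identity of a Rees matrix semigroup
-/

set_option autoImplicit false

namespace Pool.Agent.W435.FB

section
variable {A I L : Type} [AddCommGroup A] {P : L → I → Option A}

theorem sat_el {u v : Wd} (h : Sat (ARM A I L P) u v) (i : ℕ → I) (g : ℕ → A) (l : ℕ → L)
    (p : ℕ → ℕ → A)
    (hu : ∀ a b, (a, b) ∈ adj (u.1 :: u.2) → P (l a) (i b) = some (p a b))
    (hv : ∀ a b, (a, b) ∈ adj (v.1 :: v.2) → P (l a) (i b) = some (p a b)) :
    i u.1 = i v.1 ∧ l ((u.1 :: u.2).getLast (List.cons_ne_nil _ _)) =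
      l ((v.1 :: v.2).getLast (List.cons_ne_nil _ _)) ∧
    ((u.1 :: u.2).map g).sum + ((adj (u.1 :: u.2)).map fun q => p q.1 q.2).sum =
      ((v.1 :: v.2).map g).sum + ((adj (v.1 :: v.2)).map fun q => p q.1 q.2).sum := by
  have h1 := h (fun a => (ARM.el (i a) (g a) (l a) : ARM A I L P))
  have h2 := ev_arm_el i g l p u.2 u.1 hu
  have h3 := ev_arm_el i g l p v.2 v.1 hv
  have h4 : ARM.el (P := P) (i u.1) (((u.1 :: u.2).map g).sum +
      ((adj (u.1 :: u.2)).map fun q => p q.1 q.2).sum)
      (l ((u.1 :: u.2).getLast (List.cons_ne_nil _ _))) =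
      ARM.el (i v.1) (((v.1 :: v.2).map g).sum + ((adj (v.1 :: v.2)).map fun q => p q.1 q.2).sum)
      (l ((v.1 :: v.2).getLast (List.cons_ne_nil _ _))) := by
    rw [← h2, ← h3]; exact h1
  injection h4 with h5 h6 h7
  exact ⟨h5, h7, h6⟩

/-- if all adjacent products of `u` are nonzero the same holds for `v` -/
theorem sat_none {u v : Wd} (h : Sat (ARM A I L P) u v) (i : ℕ → I) (l : ℕ → L)
    (hu : ∀ a b, (a, b) ∈ adj (u.1 :: u.2) → (P (l a) (i b)).isSome) :
    ∀ a b, (a, b) ∈ adj (v.1 :: v.2) → (P (l a) (i b)).isSome := by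
  intro a b hab
  by_contra hn
  have hnone : P (l a) (i b) = none := by
    rcases h' : P (l a) (i b) with _ | c
    · rfl
    · rw [h'] at hn; exact absurd rfl hn
  have h1 := h (fun a => (ARM.el (i a) 0 (l a) : ARM A I L P))
  have h2 := ev_arm_el (P := P) i (fun _ => (0 : A)) l (fun a b => (P (l a) (i b)).getD 0) u.2 u.1
    (fun a b hab => by
      obtain ⟨c, hc⟩ := Option.isSome_iff_exists.1 (hu a b hab)
      rw [hc]; rfl)
  have h3 := ev_arm_none (P := P) i (fun _ => (0 : A)) l v.2 v.1 ⟨a, b, hab, hnone⟩
  have h4 : ev (fun a => (ARM.el (i a) 0 (l a) : ARM A I L P)) (u.1, u.2) = ARM.zero :=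
    h1.trans h3
  rw [h2] at h4
  exact absurd h4 (by simp)

theorem sum_map_single (w : List ℕ) (x : ℕ) (a : A) :
    (w.map fun y => if y = x then a else 0).sum = w.count x • a := by
  induction w with
  | nil => simp
  | cons y w ih =>
    rw [List.map_cons, List.sum_cons, ih, List.count_cons]
    by_cases h : y = x
    · simp [h, add_smul, add_comm]
    · simp [h]

theorem sum_map_pair (w : List (ℕ × ℕ)) (x y : ℕ) (a : A) :
    (w.map fun q => if q.1 = x ∧ q.2 = y then a else 0).sum = w.count (x, y) • a := by
  induction w with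
  | nil => simp
  | cons q w ih =>
    rw [List.map_cons, List.sum_cons, ih, List.count_cons]
    obtain ⟨q1, q2⟩ := q
    by_cases h : q1 = x ∧ q2 = y
    · obtain ⟨rfl, rfl⟩ := h
      simp [add_smul, add_comm]
    · have h2 : ((q1, q2) == (x, y)) = false := by
        simp only [beq_eq_false_iff_ne, ne_eq, Prod.mk.injEq]
        exact h
      rw [h2]
      simp only [h, if_false]
      simp

theorem modEq_of_nsmul {C : Set A} {a b e : ℕ} (h : ∀ c ∈ C, a • c = b • c)
    (he : ∀ k : ℕ, (∀ c ∈ C, k • c = 0) → e ∣ k) : a ≡ b [MOD e] := by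
  rcases Nat.le_total a b with hab | hab
  · rw [Nat.modEq_iff_dvd' hab]
    apply he
    intro c hc
    have h1 : (b - a) • c + a • c = b • c := by rw [← add_smul, Nat.sub_add_cancel hab]
    rw [h c hc] at h1
    exact add_eq_right.1 h1
  · refine Nat.ModEq.symm ?_
    rw [Nat.modEq_iff_dvd' hab]
    apply he
    intro c hc
    have h1 : (a - b) • c + b • c = a • c := by rw [← add_smul, Nat.sub_add_cancel hab]
    rw [h c hc] at h1
    exact add_eq_right.1 h1

end

/-- one inclusion of contents -/
theorem content_sub {A I L : Type} [AddCommGroup A] [Nonempty I] {P : L → I → Option A}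
    (hP : Reg P) {u v : Wd} (h : Sat (ARM A I L P) u v) (x : ℕ) (hx : x ∈ u.1 :: u.2) :
    x ∈ v.1 :: v.2 := by
  classical
  by_contra hn
  obtain ⟨i⟩ := ‹Nonempty I›
  obtain ⟨l, hl⟩ := hP.2 i
  obtain ⟨p, hp⟩ := Option.isSome_iff_exists.1 hl
  have h1 := h (fun a => if a = x then ARM.zero else ARM.el i 0 l)
  rw [ev_arm_zero_letter _ u.2 u.1 x hx (by simp)] at h1
  have h2 : ∀ (w : List ℕ) (y : ℕ), x ∉ y :: w →
      ev (fun a => if a = x then (ARM.zero : ARM A I L P) else ARM.el i 0 l) (y, w) =
        ev (fun _ => (ARM.el i 0 l : ARM A I L P)) (y, w) := by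
    intro w
    induction w with
    | nil =>
      intro y hy
      rw [ev_single, ev_single, if_neg]
      rintro rfl; exact hy (by simp)
    | cons z w ih =>
      intro y hy
      rw [ev_cons, ev_cons, ih z (fun h => hy (List.mem_cons_of_mem _ h)), if_neg]
      rintro rfl; exact hy (by simp)
  have h3 := h2 v.2 v.1 hn
  have h4 : ev (fun _ => (ARM.el i 0 l : ARM A I L P)) v ≠ ARM.zero := by
    have := ev_arm_el (P := P) (fun _ => i) (fun _ => (0 : A)) (fun _ => l) (fun _ _ => p) v.2 v.1
      (fun a b _ => hp)
    have h5 : ev (fun _ => (ARM.el i 0 l : ARM A I L P)) v =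
      ev (fun _ => (ARM.el i 0 l : ARM A I L P)) (v.1, v.2) := rfl
    rw [h5, this]
    simp
  exact h4 (h3.symm.trans h1.symm)

theorem sat_symm {S : Type} [Mul S] {u v : Wd} (h : Sat S u v) : Sat S v u := fun f => (h f).symm

theorem data : DataStmt := by
  classical
  intro A I L _ _ P hP u v h
  refine ⟨fun x => ⟨content_sub hP h x, content_sub hP (sat_symm h) x⟩, ?_, ?_⟩
  · intro n hn x
    obtain ⟨i⟩ := ‹Nonempty I›
    obtain ⟨l, hl⟩ := hP.2 i
    obtain ⟨p, hp⟩ := Option.isSome_iff_exists.1 hl
    refine modEq_of_nsmul (C := Set.univ) ?_ (fun k hk => hn k (fun a => hk a (Set.mem_univ _)))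
    intro a _
    have h1 := (sat_el h (fun _ => i) (fun y => if y = x then a else 0) (fun _ => l)
      (fun _ _ => p) (fun _ _ _ => hp) (fun _ _ _ => hp)).2.2
    have h2 := (sat_el h (fun _ => i) (fun _ => (0 : A)) (fun _ => l)
      (fun _ _ => p) (fun _ _ _ => hp) (fun _ _ _ => hp)).2.2
    rw [sum_map_single, sum_map_single] at h1
    simp only [List.map_const', List.sum_replicate, smul_zero, zero_add] at h2 h1
    rw [h2] at h1
    exact add_right_cancel h1
  · rintro e he ⟨x0, y0⟩
    refine modEq_of_nsmul (C := Cyc4 P) ?_ he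
    rintro c ⟨l, m, i, j, vli, vmi, vmj, vlj, h1, h2, h3, h4, rfl⟩
    -- the four substitutions
    have key : ∀ s t : Bool,
        ((adj (u.1 :: u.2)).map fun q => (if q.1 = x0 ∧ s = true then
          (if q.2 = y0 ∧ t = true then vli else vlj) else
          (if q.2 = y0 ∧ t = true then vmi else vmj))).sum =
        ((adj (v.1 :: v.2)).map fun q => (if q.1 = x0 ∧ s = true then
          (if q.2 = y0 ∧ t = true then vli else vlj) else
          (if q.2 = y0 ∧ t = true then vmi else vmj))).sum := by
      intro s t
      have hp : ∀ a b : ℕ, P (if a = x0 ∧ s = true then l else m)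
          (if b = y0 ∧ t = true then i else j) = some (if a = x0 ∧ s = true then
          (if b = y0 ∧ t = true then vli else vlj) else
          (if b = y0 ∧ t = true then vmi else vmj)) := by
        intro a b
        by_cases h5 : a = x0 ∧ s = true <;> by_cases h6 : b = y0 ∧ t = true
        · rw [if_pos h5, if_pos h6, if_pos h5, if_pos h6]; exact h1
        · rw [if_pos h5, if_neg h6, if_pos h5, if_neg h6]; exact h4
        · rw [if_neg h5, if_pos h6, if_neg h5, if_pos h6]; exact h2
        · rw [if_neg h5, if_neg h6, if_neg h5, if_neg h6]; exact h3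
      have := (sat_el h (fun b => if b = y0 ∧ t = true then i else j) (fun _ => (0 : A))
        (fun a => if a = x0 ∧ s = true then l else m) (fun a b => if a = x0 ∧ s = true then
          (if b = y0 ∧ t = true then vli else vlj) else
          (if b = y0 ∧ t = true then vmi else vmj)) (fun a b _ => hp a b) (fun a b _ => hp a b)).2.2
      simpa only [List.map_const', List.sum_replicate, smul_zero, zero_add] using this
    have alt : ∀ w : List (ℕ × ℕ), (w.count (x0, y0)) • (vli - vmi + vmj - vlj) =
        (w.map fun q => (if q.1 = x0 ∧ true = true then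
          (if q.2 = y0 ∧ true = true then vli else vlj) else
          (if q.2 = y0 ∧ true = true then vmi else vmj))).sum -
        (w.map fun q => (if q.1 = x0 ∧ true = true then
          (if q.2 = y0 ∧ false = true then vli else vlj) else
          (if q.2 = y0 ∧ false = true then vmi else vmj))).sum -
        (w.map fun q => (if q.1 = x0 ∧ false = true then
          (if q.2 = y0 ∧ true = true then vli else vlj) else
          (if q.2 = y0 ∧ true = true then vmi else vmj))).sum +
        (w.map fun q => (if q.1 = x0 ∧ false = true then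
          (if q.2 = y0 ∧ false = true then vli else vlj) else
          (if q.2 = y0 ∧ false = true then vmi else vmj))).sum := by
      intro w
      induction w with
      | nil => simp
      | cons q w ih =>
        simp only [List.map_cons, List.sum_cons]
        obtain ⟨q1, q2⟩ := q
        have h7 : ((q1, q2) :: w).count (x0, y0) = w.count (x0, y0) +
            if q1 = x0 ∧ q2 = y0 then 1 else 0 := by
          rw [List.count_cons]
          congr 1
          by_cases h : q1 = x0 ∧ q2 = y0
          · obtain ⟨rfl, rfl⟩ := h; simp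
          · have h2 : ((q1, q2) == (x0, y0)) = false := by
              simp only [beq_eq_false_iff_ne, ne_eq, Prod.mk.injEq]
              exact h
            rw [h2, if_neg h]; simp
        rw [h7, add_smul, ih]
        by_cases h5 : q1 = x0 <;> by_cases h6 : q2 = y0 <;> simp [h5, h6] <;> abel
    rw [alt, alt, key true true, key true false, key false true, key false false]

theorem dataNR : DataNRStmt := by
  classical
  intro A I L _ _ P hP u v h
  refine ⟨?_, ?_, ?_⟩
  · rintro ⟨l, i, j, hij, h1, h2⟩
    obtain ⟨p, hp⟩ := Option.isSome_iff_exists.1 h1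
    obtain ⟨q, hq⟩ := Option.isSome_iff_exists.1 h2
    have hp' : ∀ a b : ℕ, P l (if b = u.1 then i else j) = some (if b = u.1 then p else q) := by
      intro a b
      by_cases h5 : b = u.1
      · rw [if_pos h5, if_pos h5, hp]
      · rw [if_neg h5, if_neg h5, hq]
    have := (sat_el h (fun b => if b = u.1 then i else j) (fun _ => (0 : A)) (fun _ => l)
      (fun a b => if b = u.1 then p else q) (fun a b _ => hp' a b) (fun a b _ => hp' a b)).1
    by_contra hne
    simp only [if_true] at this
    rw [if_neg (fun h => hne h.symm)] at this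
    exact hij this
  · rintro ⟨l, m, i, hlm, h1, h2⟩
    obtain ⟨p, hp⟩ := Option.isSome_iff_exists.1 h1
    obtain ⟨q, hq⟩ := Option.isSome_iff_exists.1 h2
    obtain ⟨z, hz⟩ : ∃ z, z = (u.1 :: u.2).getLast (List.cons_ne_nil _ _) := ⟨_, rfl⟩
    have hp' : ∀ a b : ℕ, P (if a = z then l else m) i = some (if a = z then p else q) := by
      intro a b
      by_cases h5 : a = z
      · rw [if_pos h5, if_pos h5, hp]
      · rw [if_neg h5, if_neg h5, hq]
    have := (sat_el h (fun _ => i) (fun _ => (0 : A)) (fun a => if a = z then l else m)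
      (fun a b => if a = z then p else q) (fun a b _ => hp' a b) (fun a b _ => hp' a b)).2.1
    rw [← hz] at this ⊢
    by_contra hne
    simp only [if_true] at this
    rw [if_neg (fun h => hne h.symm)] at this
    exact hlm this
  · intro hR
    have key : ∀ u v : Wd, Sat (ARM A I L P) u v → ∀ p, p ∈ adj (u.1 :: u.2) →
        p ∈ adj (v.1 :: v.2) := by
      rintro u v h ⟨x, y⟩ hxy
      by_contra hn
      unfold Rect at hR
      push Not at hR
      obtain ⟨l, l', i, i', a1, a2, a3, a4⟩ := hR
      have h1 : ∀ a b, (a, b) ∈ adj (v.1 :: v.2) →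
          (P (if a = x then l' else l) (if b = y then i' else i)).isSome := by
        intro a b hab
        by_cases h5 : a = x <;> by_cases h6 : b = y
        · subst h5 h6; exact absurd hab hn
        · rw [if_pos h5, if_neg h6]; exact a3
        · rw [if_neg h5, if_pos h6]; exact a2
        · rw [if_neg h5, if_neg h6]; exact a1
      have h2 := sat_none (sat_symm h) (fun b => if b = y then i' else i)
        (fun a => if a = x then l' else l) (by simpa using h1) x y hxy
      simp only [if_true] at h2
      exact a4 h2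
    exact fun p => ⟨key u v h p, key v u (sat_symm h) p⟩

end Pool.Agent.W435.FB
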