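import Pool.Agent.W435.FB.Assembly

/-!
# Theorem R, part 1: lists, powers, insertions, reachability
-/

set_option autoImplicit false

namespace Pool.Agent.W435.FB

open Relation

/-- concatenation power of a list -/
def pow (l : List ℕ) (k : ℕ) : List ℕ := (List.replicate k l).flatten

@[simp] theorem pow_zero (l : List ℕ) : pow l 0 = [] := rfl

theorem pow_succ (l : List ℕ) (k : ℕ) : pow l (k + 1) = l ++ pow l k := by
  simp [pow, List.replicate_succ]

theorem pow_succ' (l : List ℕ) (k : ℕ) : pow l (k + 1) = pow l k ++ l := by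
  induction k with
  | zero => simp [pow_succ]
  | succ k ih =>
    calc pow l (k + 1 + 1) = l ++ pow l (k + 1) := pow_succ l (k + 1)
      _ = l ++ (pow l k ++ l) := by rw [ih]
      _ = (l ++ pow l k) ++ l := by rw [List.append_assoc]
      _ = pow l (k + 1) ++ l := by rw [← pow_succ]

theorem pow_cons_comm (x : ℕ) (c : List ℕ) (k : ℕ) :
    pow (x :: c) k ++ [x] = x :: pow (c ++ [x]) k := by
  induction k with
  | zero => simp
  | succ k ih =>
    rw [pow_succ, pow_succ, List.append_assoc, ih]
    simp

theorem pow_append_comm (x : ℕ) (c s : List ℕ) (k : ℕ) :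
    pow (x :: c) k ++ x :: s = x :: (pow (c ++ [x]) k ++ s) := by
  have := congrArg (· ++ s) (pow_cons_comm x c k)
  simpa using this

theorem count_pow (l : List ℕ) (k a : ℕ) : (pow l k).count a = k * l.count a := by
  induction k with
  | zero => simp
  | succ k ih => rw [pow_succ, List.count_append, ih]; ring

theorem mem_pow {l : List ℕ} {k a : ℕ} : a ∈ pow l k ↔ 0 < k ∧ a ∈ l := by
  induction k with
  | zero => simp
  | succ k ih =>
    rw [pow_succ, List.mem_append, ih]
    constructor
    · rintro (h | h)
      · exact ⟨Nat.succ_pos _, h⟩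
      · exact ⟨Nat.succ_pos _, h.2⟩
    · rintro ⟨-, h⟩
      exact Or.inl h

theorem val_pow {T : Type} [Semigroup T] (f : ℕ → T) (l : List ℕ) (k : ℕ) :
    val f (pow l k) = val f l ^ k := by
  induction k with
  | zero => simp [val_nil]
  | succ k ih => rw [pow_succ, val_append, ih, _root_.pow_succ']

/-- a block of a power followed by the first letter of the block -/
theorem adj_pow_append (x : ℕ) (c s : List ℕ) (k : ℕ) (q : ℕ × ℕ) :
    (adj (pow (x :: c) k ++ x :: s)).count q =
      k * (adj (x :: c ++ [x])).count q + (adj (x :: s)).count q := by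
  induction k with
  | zero => simp
  | succ k ih =>
    have h1 : pow (x :: c) (k + 1) ++ x :: s = (x :: c) ++ (pow (x :: c) k ++ x :: s) := by
      rw [pow_succ, List.append_assoc]
    have h2 : ∃ t, pow (x :: c) k ++ x :: s = x :: t := ⟨_, pow_append_comm x c s k⟩
    obtain ⟨t, ht⟩ := h2
    rw [h1]
    rw [ht] at ih ⊢
    rw [adj_append_cons, List.count_append, ih]
    ring

theorem adj_append_count (p : List ℕ) (x : ℕ) (s : List ℕ) (q : ℕ × ℕ) :
    (adj (p ++ x :: s)).count q = (adj (p ++ [x])).count q + (adj (x :: s)).count q := by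
  rw [adj_append_cons, List.count_append]

/-- number of pairs after an insertion of `k` copies of a closed walk -/
theorem adj_ins_count (p : List ℕ) (x : ℕ) (c s : List ℕ) (k : ℕ) (q : ℕ × ℕ) :
    (adj (p ++ (pow (x :: c) k ++ x :: s))).count q =
      (adj (p ++ x :: s)).count q + k * (adj (x :: c ++ [x])).count q := by
  rw [pow_append_comm, adj_append_count, ← pow_append_comm, adj_pow_append, adj_append_count p x s]
  ring

theorem count_ins (p : List ℕ) (x : ℕ) (c s : List ℕ) (k a : ℕ) :
    (p ++ (pow (x :: c) k ++ x :: s)).count a =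
      (p ++ x :: s).count a + k * (x :: c).count a := by
  rw [List.count_append, List.count_append, count_pow, List.count_append]
  ring

theorem mem_ins {p : List ℕ} {x : ℕ} {c s : List ℕ} {k a : ℕ} (hc : ∀ b ∈ c, b ∈ p ++ x :: s) :
    a ∈ p ++ (pow (x :: c) k ++ x :: s) ↔ a ∈ p ++ x :: s := by
  rw [List.mem_append, List.mem_append, mem_pow, List.mem_append]
  constructor
  · rintro (h | h | h)
    · exact Or.inl h
    · rcases List.mem_cons.1 h.2 with rfl | h'
      · exact Or.inr (by simp)
      · exact List.mem_append.1 (hc _ h')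
    · exact Or.inr h
  · rintro (h | h)
    · exact Or.inl h
    · exact Or.inr (Or.inr h)

theorem adj_ins_mem {p : List ℕ} {x : ℕ} {c s : List ℕ} {k : ℕ} (hk : 0 < k) {q : ℕ × ℕ} :
    q ∈ adj (p ++ (pow (x :: c) k ++ x :: s)) ↔ q ∈ adj (p ++ x :: s) ∨ q ∈ adj (x :: c ++ [x]) := by
  rw [← List.count_pos_iff, ← List.count_pos_iff, ← List.count_pos_iff, adj_ins_count]
  constructor
  · intro h
    by_contra h'
    push Not at h'
    obtain ⟨h1, h2⟩ := h'
    have h3 : List.count q (adj (x :: c ++ [x])) = 0 := Nat.le_zero.1 h2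
    have h4 : List.count q (adj (p ++ x :: s)) = 0 := Nat.le_zero.1 h1
    rw [h3, h4] at h
    simp at h
  · rintro (h | h)
    · omega
    · have : 0 < k * List.count q (adj (x :: c ++ [x])) := Nat.mul_pos hk h
      omega

theorem head?_ins (p : List ℕ) (x : ℕ) (c s : List ℕ) (k : ℕ) :
    (p ++ (pow (x :: c) k ++ x :: s)).head? = (p ++ x :: s).head? := by
  rw [pow_append_comm]
  cases p <;> simp

theorem getLast?_ins (p : List ℕ) (x : ℕ) (c s : List ℕ) (k : ℕ) :
    (p ++ (pow (x :: c) k ++ x :: s)).getLast? = (p ++ x :: s).getLast? := by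
  rw [← List.append_assoc, List.getLast?_append_of_ne_nil _ (List.cons_ne_nil _ _),
    List.getLast?_append_of_ne_nil _ (List.cons_ne_nil _ _)]

/-! ## reachability -/

theorem E_cons {x : ℕ} {w : List ℕ} {a b : ℕ} (h : E w a b) : E (x :: w) a b := by
  cases w with
  | nil => simp [E, adj] at h
  | cons y w => unfold E; rw [adj_cons_cons]; exact List.mem_cons_of_mem _ h

theorem reach_mono {R R' : ℕ → ℕ → Prop} (h : ∀ a b, R a b → R' a b) {a b : ℕ}
    (hr : ReflTransGen R a b) : ReflTransGen R' a b := ReflTransGen.mono h _ _ hr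

/-- the first letter reaches all letters -/
theorem reach_head (x : ℕ) (w : List ℕ) : ∀ z ∈ x :: w, ReflTransGen (E (x :: w)) x z := by
  induction w generalizing x with
  | nil => intro z hz; obtain rfl : z = x := by simpa using hz
           exact ReflTransGen.refl
  | cons y w ih =>
    intro z hz
    rcases List.mem_cons.1 hz with rfl | hz
    · exact ReflTransGen.refl
    · refine ReflTransGen.head (b := y) ?_ (reach_mono (fun a b h => E_cons h) (ih y z hz))
      unfold E; rw [adj_cons_cons]; exact List.mem_cons_self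

/-- all letters reach the last letter -/
theorem reach_last (w : List ℕ) (hw : w ≠ []) : ∀ z ∈ w, ReflTransGen (E w) z (w.getLast hw) := by
  induction w with
  | nil => exact absurd rfl hw
  | cons x w ih =>
    cases w with
    | nil => intro z hz; obtain rfl : z = x := by simpa using hz
             exact ReflTransGen.refl
    | cons y w =>
      intro z hz
      rw [getLast_cons_cons]
      have ih' := ih (List.cons_ne_nil _ _)
      rcases List.mem_cons.1 hz with rfl | hz
      · refine ReflTransGen.head (b := y) ?_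
          (reach_mono (fun a b h => E_cons h) (ih' y (by simp)))
        unfold E; rw [adj_cons_cons]; exact List.mem_cons_self
      · exact reach_mono (fun a b h => E_cons h) (ih' z hz)

/-- time order property -/
theorem word_T (w : List ℕ) : ∀ a b c d, E w a b → E w c d → (a, b) ≠ (c, d) →
    ReflTransGen (E w) b c ∨ ReflTransGen (E w) d a := by
  induction w with
  | nil => intro a b c d h; simp [E, adj] at h
  | cons x w ih =>
    cases w with
    | nil => intro a b c d h; simp [E, adj] at h
    | cons y w =>
      intro a b c d h1 h2 hne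
      unfold E at h1 h2
      rw [adj_cons_cons] at h1 h2
      have hm : ∀ {p q : ℕ}, ReflTransGen (E (y :: w)) p q → ReflTransGen (E (x :: y :: w)) p q :=
        fun h => reach_mono (fun a b h => E_cons h) h
      rcases List.mem_cons.1 h1 with h3 | h3 <;> rcases List.mem_cons.1 h2 with h4 | h4
      · exact absurd (h3.trans h4.symm) hne
      · obtain ⟨-, h5⟩ := Prod.mk.inj h3
        rw [h5]
        exact Or.inl (hm (reach_head _ w c (mem_of_mem_adj_left h4)))
      · obtain ⟨-, h5⟩ := Prod.mk.inj h4
        rw [h5]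
        exact Or.inr (hm (reach_head _ w a (mem_of_mem_adj_left h3)))
      · rcases ih a b c d h3 h4 hne with h | h
        · exact Or.inl (hm h)
        · exact Or.inr (hm h)

/-- a pair that occurs twice is on a closed walk -/
theorem reach_of_two (w : List ℕ) (x y : ℕ) (h : 2 ≤ (adj w).count (x, y)) :
    ReflTransGen (E w) y x := by
  induction w with
  | nil => simp [adj] at h
  | cons a w ih =>
    cases w with
    | nil => simp [adj] at h
    | cons b w =>
      have hm : ∀ {p q : ℕ}, ReflTransGen (E (b :: w)) p q → ReflTransGen (E (a :: b :: w)) p q :=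
        fun h => reach_mono (fun a b h => E_cons h) h
      rw [adj_cons_cons, List.count_cons] at h
      by_cases h1 : 2 ≤ (adj (b :: w)).count (x, y)
      · exact hm (ih h1)
      · have h2 : 0 < (adj (b :: w)).count (x, y) := by
          by_contra h3
          split_ifs at h <;> omega
        have h3 : (a, b) = (x, y) := by
          by_contra h3
          have : ((a, b) == (x, y)) = false := by simpa using h3
          rw [this] at h
          simp at h
          omega
        obtain ⟨rfl, rfl⟩ := Prod.mk.inj h3
        exact hm (reach_head _ w _ (mem_of_mem_adj_left (List.count_pos_iff.1 h2)))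

/-- walks of positive length -/
def Wk (u : List ℕ) (y : ℕ) (a : List ℕ) (x : ℕ) : Prop := ∀ q ∈ adj (y :: a ++ [x]), q ∈ adj u

theorem exists_wk {u : List ℕ} {x y : ℕ} (h : TransGen (E u) y x) : ∃ a, Wk u y a x := by
  induction h with
  | single h => exact ⟨[], by intro q hq; simp [adj] at hq; rw [hq]; exact h⟩
  | @tail b c _ h ih =>
    obtain ⟨a, ha⟩ := ih
    refine ⟨a ++ [b], ?_⟩
    intro q hq
    have : y :: (a ++ [b]) ++ [c] = (y :: a) ++ b :: [c] := by simp
    rw [this, adj_append_cons, List.mem_append] at hq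
    rcases hq with hq | hq
    · exact ha q hq
    · simp [adj] at hq; rw [hq]; exact h

theorem exists_wk' {u : List ℕ} {x y : ℕ} (h : ReflTransGen (E u) y x) (h' : E u x y) :
    ∃ a, Wk u y a x := by
  rcases ReflTransGen.cases_head h with rfl | ⟨b, h1, h2⟩
  · exact exists_wk (TransGen.single h')
  · exact exists_wk (TransGen.head' h1 h2)

theorem exists_wk_of_E {u : List ℕ} {x y : ℕ} (h : ReflTransGen (E u) y x) (hne : y ≠ x) :
    ∃ a, Wk u y a x := by
  rcases ReflTransGen.cases_head h with rfl | ⟨b, h1, h2⟩
  · exact absurd rfl hne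
  · exact exists_wk (TransGen.head' h1 h2)

theorem Wk.mem {u : List ℕ} {y : ℕ} {a : List ℕ} {x : ℕ} (h : Wk u y a x) :
    (∀ b ∈ a, b ∈ u) ∧ y ∈ u ∧ x ∈ u := by
  have key : ∀ (w : List ℕ), 2 ≤ w.length → ∀ b ∈ w, ∃ q ∈ adj w, b = q.1 ∨ b = q.2 := by
    intro w
    induction w with
    | nil => intro h; simp at h
    | cons c w ih =>
      intro hl b hb
      cases w with
      | nil => simp at hl
      | cons d w =>
        rcases List.mem_cons.1 hb with rfl | hb
        · exact ⟨(b, d), by rw [adj_cons_cons]; exact List.mem_cons_self, Or.inl rfl⟩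
        · cases w with
          | nil =>
            obtain rfl : b = d := by simpa using hb
            exact ⟨(c, b), by rw [adj_cons_cons]; exact List.mem_cons_self, Or.inr rfl⟩
          | cons e w =>
            obtain ⟨q, hq, h'⟩ := ih (by simp) b hb
            exact ⟨q, by rw [adj_cons_cons]; exact List.mem_cons_of_mem _ hq, h'⟩
  have h1 : ∀ b ∈ y :: a ++ [x], b ∈ u := by
    intro b hb
    obtain ⟨q, hq, h'⟩ := key (y :: a ++ [x]) (by simp) b hb
    have := h q hq
    obtain ⟨q1, q2⟩ := q
    rcases h' with rfl | rfl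
    · exact mem_of_mem_adj_left this
    · exact mem_of_mem_adj_right this
  exact ⟨fun b hb => h1 b (by simp [hb]), h1 y (by simp), h1 x (by simp)⟩

/-- concatenation of walks -/
theorem Wk.comp {u : List ℕ} {y z x : ℕ} {a b : List ℕ} (h1 : Wk u y a z) (h2 : Wk u z b x) :
    Wk u y (a ++ z :: b) x := by
  intro q hq
  have : y :: (a ++ z :: b) ++ [x] = (y :: a) ++ z :: (b ++ [x]) := by simp
  rw [this, adj_append_cons, List.mem_append] at hq
  rcases hq with hq | hq
  · exact h1 q hq
  · exact h2 q (by simpa using hq)

theorem Wk.edge {u : List ℕ} {y x : ℕ} (h : E u y x) : Wk u y [] x := by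
  intro q hq
  simp [adj] at hq
  rw [hq]; exact h

/-- splitting a word at a pair -/
theorem split_adj {u : List ℕ} {x y : ℕ} (h : E u x y) : ∃ p s, u = p ++ x :: y :: s := by
  induction u with
  | nil => simp [E, adj] at h
  | cons a u ih =>
    cases u with
    | nil => simp [E, adj] at h
    | cons b u =>
      unfold E at h
      rw [adj_cons_cons] at h
      rcases List.mem_cons.1 h with h | h
      · obtain ⟨rfl, rfl⟩ := Prod.mk.inj h
        exact ⟨[], u, rfl⟩
      · obtain ⟨p, s, hp⟩ := ih h
        exact ⟨a :: p, s, by rw [hp]; rfl⟩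

/-! ## zigzags -/

theorem zig_congr_aux {R R' : ℕ → ℕ → Prop} (h : ∀ x y, R x y → Zig R' x y) {x y : ℕ}
    (hz : Zig R x y) : Zig R' x y := by
  induction hz with
  | base h' => exact h _ _ h'
  | step h1 h2 _ ih => exact Zig.trans' (h _ _ h2) (h _ _ h1) ih

theorem zig_congr {R R' : ℕ → ℕ → Prop} (h : ∀ x y, R x y → Zig R' x y)
    (h' : ∀ x y, R' x y → Zig R x y) (x y : ℕ) : Zig R x y ↔ Zig R' x y :=
  ⟨zig_congr_aux h, zig_congr_aux h'⟩

theorem Zig.exists_right {R : ℕ → ℕ → Prop} {x y : ℕ} (h : Zig R x y) : ∃ b, R x b := by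
  cases h with
  | base h => exact ⟨_, h⟩
  | step h _ _ => exact ⟨_, h⟩

theorem Zig.exists_left {R : ℕ → ℕ → Prop} {x y : ℕ} (h : Zig R x y) : ∃ a, R a y := by
  induction h with
  | base h => exact ⟨_, h⟩
  | step _ _ _ ih => exact ih

end Pool.Agent.W435.FB
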