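import Pool.Agent.W435.FB.Data
import Pool.Agent.W435.FB.TR1

/-!
# Consequences of an identity in the rectangular case with at least two components
-/

set_option autoImplicit false

namespace Pool.Agent.W435.FB

open Classical in
theorem dataR : DataRStmt := by
  intro A I L _ _ P hP hR hnone u v h
  obtain ⟨l1, i2, h12⟩ := hnone
  obtain ⟨i1, h11⟩ := hP.1 l1
  obtain ⟨l2, h22⟩ := hP.2 i2
  have h21 : P l2 i1 = none := by
    rcases h' : P l2 i1 with _ | c
    · rfl
    · have := hR l2 l1 i1 i2 (by rw [h']; rfl) h22 h11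
      rw [h12] at this
      exact absurd this (by simp)
  have hii : i1 ≠ i2 := by
    rintro rfl
    rw [h12] at h11
    exact absurd h11 (by simp)
  have hll : l1 ≠ l2 := by
    rintro rfl
    rw [h21] at h11
    exact absurd h11 (by simp)
  -- nonzero products correspond to equal colours
  have hsome : ∀ (cL cI : ℕ → Prop) (a b : ℕ),
      (P (if cL a then l1 else l2) (if cI b then i1 else i2)).isSome ↔ (cL a ↔ cI b) := by
    intro cL cI a b
    by_cases h5 : cL a <;> by_cases h6 : cI b
    · simp only [h5, h6, if_true, iff_true]; exact h11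
    · simp only [h5, h6, if_true, if_false, h12]; simp
    · simp only [h5, h6, if_true, if_false, h21]; simp
    · simp only [h5, h6, if_false, iff_true]; exact h22
  have colour : ∀ (u v : Wd), Sat (ARM A I L P) u v → ∀ cL cI : ℕ → Prop,
      (∀ a b, E (u.1 :: u.2) a b → (cL a ↔ cI b)) → ∀ a b, E (v.1 :: v.2) a b → (cL a ↔ cI b) := by
    intro u v h cL cI hu a b hab
    have := sat_none h (fun b => if cI b then i1 else i2) (fun a => if cL a then l1 else l2)
      (fun a b hab => (hsome cL cI a b).2 (hu a b hab)) a b hab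
    exact (hsome cL cI a b).1 this
  have ends : ∀ cL cI : ℕ → Prop, (∀ a b, E (u.1 :: u.2) a b → (cL a ↔ cI b)) →
      ((cI u.1 ↔ cI v.1) ∧ (cL ((u.1 :: u.2).getLast (List.cons_ne_nil _ _)) ↔
        cL ((v.1 :: v.2).getLast (List.cons_ne_nil _ _)))) := by
    intro cL cI hu
    have hv := colour u v h cL cI hu
    have hp : ∀ a b, (cL a ↔ cI b) → P (if cL a then l1 else l2) (if cI b then i1 else i2) =
        some ((P (if cL a then l1 else l2) (if cI b then i1 else i2)).getD 0) := by
      intro a b hab
      obtain ⟨c, hc⟩ := Option.isSome_iff_exists.1 ((hsome cL cI a b).2 hab)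
      rw [hc]; rfl
    have h5 := sat_el h (fun b => if cI b then i1 else i2) (fun _ => (0 : A))
      (fun a => if cL a then l1 else l2)
      (fun a b => (P (if cL a then l1 else l2) (if cI b then i1 else i2)).getD 0)
      (fun a b hab => hp a b (hu a b hab)) (fun a b hab => hp a b (hv a b hab))
    obtain ⟨h6, h7, -⟩ := h5
    constructor
    · by_cases h8 : cI u.1 <;> by_cases h9 : cI v.1
      · simp [h8, h9]
      · simp only [h8, h9, if_true, if_false] at h6; exact absurd h6 hii
      · simp only [h8, h9, if_true, if_false] at h6; exact absurd h6.symm hii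
      · simp [h8, h9]
    · by_cases h8 : cL ((u.1 :: u.2).getLast (List.cons_ne_nil _ _)) <;>
      by_cases h9 : cL ((v.1 :: v.2).getLast (List.cons_ne_nil _ _))
      · exact ⟨fun _ => h9, fun _ => h8⟩
      · simp only [h8, h9, if_true, if_false] at h7; exact absurd h7 hll
      · simp only [h8, h9, if_true, if_false] at h7; exact absurd h7.symm hll
      · exact ⟨fun h => absurd h h8, fun h => absurd h h9⟩
  have zig : ∀ (u v : Wd), Sat (ARM A I L P) u v → ∀ x y, Zig (E (u.1 :: u.2)) x y →
      Zig (E (v.1 :: v.2)) x y := by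
    intro u v h x y hz
    have h5 := colour v u (sat_symm h)
      (fun a => a = x ∨ ∃ b, Zig (E (v.1 :: v.2)) x b ∧ E (v.1 :: v.2) a b)
      (fun b => Zig (E (v.1 :: v.2)) x b) (by
        intro a b hab
        constructor
        · rintro (rfl | ⟨b', h1, h2⟩)
          · exact Zig.base hab
          · exact Zig.trans' (Zig.base h2) h1 (Zig.base hab)
        · intro h1
          exact Or.inr ⟨b, h1, hab⟩)
    have h6 : ∀ a y, Zig (E (u.1 :: u.2)) a y →
        (a = x ∨ ∃ b, Zig (E (v.1 :: v.2)) x b ∧ E (v.1 :: v.2) a b) →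
        Zig (E (v.1 :: v.2)) x y := by
      intro a y hz
      induction hz with
      | base h7 => exact fun h8 => (h5 _ _ h7).1 h8
      | step h7 h8 _ ih => exact fun h9 => ih ((h5 _ _ h8).2 ((h5 _ _ h7).1 h9))
    exact h6 x y hz (Or.inl rfl)
  refine ⟨fun x y => ⟨zig u v h x y, zig v u (sat_symm h) x y⟩, ?_, ?_⟩
  · have h5 := (ends (fun a => Zig (E (u.1 :: u.2)) a u.1)
      (fun b => b = u.1 ∨ ∃ a, Zig (E (u.1 :: u.2)) a u.1 ∧ Zig (E (u.1 :: u.2)) a b) (by
        intro a b hab
        constructor
        · intro h1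
          exact Or.inr ⟨a, h1, Zig.base hab⟩
        · rintro (rfl | ⟨a', h1, h2⟩)
          · exact Zig.base hab
          · exact Zig.trans' h2 (Zig.base hab) h1)).1
    rcases h5.1 (Or.inl rfl) with h6 | h6
    · exact Or.inl h6.symm
    · exact Or.inr h6
  · obtain ⟨z, hz⟩ : ∃ z, z = (u.1 :: u.2).getLast (List.cons_ne_nil _ _) := ⟨_, rfl⟩
    have h5 := (ends (fun a => a = z ∨ ∃ b, Zig (E (u.1 :: u.2)) z b ∧ Zig (E (u.1 :: u.2)) a b)
      (fun b => Zig (E (u.1 :: u.2)) z b) (by
        intro a b hab
        constructor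
        · rintro (rfl | ⟨b', h1, h2⟩)
          · exact Zig.base hab
          · exact Zig.trans' h2 h1 (Zig.base hab)
        · intro h1
          exact Or.inr ⟨b, h1, Zig.base hab⟩)).2
    rw [← hz] at h5 ⊢
    rcases h5.1 (Or.inl rfl) with h6 | ⟨b, h6, h7⟩
    · exact Or.inl h6.symm
    · exact Or.inr ⟨b, h6, h7⟩

end Pool.Agent.W435.FB
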