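import Pool.Agent.W435.FB.Base
import Pool.Agent.H502.BkBase

/-!
# The table formula
-/

set_option autoImplicit false

namespace Pool.Agent.W435.FB

theorem zs_of_isC0 {S : Type} [Semigroup S] {z : S} (h : IsC0 z) : Pool.Agent.H502.Bk.ZS z := by
  obtain ⟨hz, ⟨p, q, hpq⟩, hI, -⟩ := h
  have hZS : Pool.Agent.H502.Bk.ZeroSimple S := by
    refine ⟨z, hz, ⟨p, q, hpq⟩, fun J hne hJ => hI J ?_ hJ⟩
    obtain ⟨a, ha⟩ := hne
    have := (hJ a ha z).1
    rwa [(hz a).1] at this
  obtain ⟨z', hz'⟩ := Pool.Agent.H502.Bk.zs_of_zeroSimple hZS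
  have : z = z' := by
    have h1 := (hz z').1
    have h2 := (hz'.1 z).2
    rw [h1] at h2
    exact h2
  rw [this]; exact hz'

theorem tb_table {n : ℕ} (op : Fin n → Fin n → Fin n) (i j : Fin n) :
    tb (List.ofFn (fun i : Fin n => List.ofFn (fun j : Fin n => ((op i j : Fin n) : ℕ)))) i j =
      op i j := by
  unfold tb
  simp [List.getD_eq_getElem?_getD]

theorem ball_iff {n : ℕ} {S : Type} (v : S ≃ Fin n) {p : ℕ → Prop} :
    (∀ x < n, p x) ↔ ∀ x : S, p (v x) :=
  ⟨fun h x => h (v x) (v x).2, fun h x hx => by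
    have := h (v.symm ⟨x, hx⟩)
    simpa using this⟩

theorem bex_iff {n : ℕ} {S : Type} (v : S ≃ Fin n) {p : ℕ → Prop} :
    (∃ x < n, p x) ↔ ∃ x : S, p (v x) :=
  ⟨fun ⟨x, hx, h⟩ => ⟨v.symm ⟨x, hx⟩, by simpa using h⟩, fun ⟨x, h⟩ => ⟨v x, (v x).2, h⟩⟩

theorem link_aux {n : ℕ} {S : Type} [Semigroup S] (v : S ≃ Fin n) (t : List (List ℕ))
    (htb : ∀ i j : S, tb t (v i) (v j) = ((v (i * j) : Fin n) : ℕ)) :
    PredTab n t ↔ ∃ z : S, IsC0 z ∧ CritS z := by
  have htpw : ∀ (x : S) (k : ℕ), tpw t (v x) k = ((v (pw x k) : Fin n) : ℕ) := by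
    intro x k
    induction k with
    | zero => rfl
    | succ k ih =>
      show tb t (tpw t (v x) k) (v x) = _
      rw [ih, htb]; rfl
  unfold PredTab
  rw [bex_iff v]
  refine exists_congr fun z => ?_
  unfold IsC0 CritS
  simp only [ball_iff v, bex_iff v]
  have heq : ∀ a b : S, ((v a : ℕ) = (v b : ℕ)) ↔ a = b := fun a b => by
    rw [Fin.val_inj, v.injective.eq_iff]
  have hcard : Nat.card S = n := by rw [Nat.card_congr v]; simp
  simp only [htb, htpw, heq, ne_eq]
  rw [hcard]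
  constructor
  · rintro ⟨h1, h2, h3, h4, h5, h6⟩
    refine ⟨⟨h1, h2, ?_, h4, ?_⟩, ?_⟩
    · intro J hzJ hJ
      by_cases hne' : ∃ a ∈ J, a ≠ z
      · right
        obtain ⟨a, ha, haz⟩ := hne'
        ext b
        simp only [Set.mem_univ, iff_true]
        obtain ⟨x, y, hxy⟩ := h3 a haz b
        rw [← hxy]
        exact (hJ _ (hJ a ha x).1 y).2
      · left
        push Not at hne'
        ext b
        rw [Set.mem_singleton_iff]
        exact ⟨hne' b, fun hb => hb ▸ hzJ⟩
    · exact h5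
    · rcases h6 with h6 | h6
      · left
        intro x y x' y'
        exact h6 x y x' y'
      · right
        intro k hk
        have h7 := h6 (v.symm ⟨k, hk⟩)
        simp only [Equiv.apply_symm_apply] at h7
        exact h7
  · rintro ⟨⟨h1, h2, h3, h4, h5⟩, h6⟩
    have hZS := zs_of_isC0 (S := S) (z := z) ⟨h1, h2, h3, h4, h5⟩
    refine ⟨h1, h2, ?_, h4, h5, ?_⟩
    · intro a ha b
      exact hZS.2.2 a ha b
    · rcases h6 with h6 | h6
      · left
        intro x y x' y'
        exact h6 x y x' y'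
      · right
        intro k
        exact h6 (v k) (v k).2

theorem link : LinkStmt := by
  intro n op h
  exact @link_aux n (Fin n) { mul := op, mul_assoc := h } (Equiv.refl _) _
    (fun i j => tb_table op i j)

end Pool.Agent.W435.FB
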