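import Pool.Agent.W435.FB.Link
import Pool.Agent.H502.BkJ_rees_coord

/-!
# Rees theorem for finite 0-simple semigroups with abelian subgroups
-/

set_option autoImplicit false

namespace Pool.Agent.W435.FB

open Pool.Agent.H502.Bk

open Classical in
theorem rees : ReesStmt := by
  intro C _ _ z hC0
  have h : ZS z := zs_of_isC0 hC0
  obtain ⟨e, he, hez⟩ := J11713.rc_idem h
  obtain ⟨grp, hmul⟩ := J11713.rc_group h he hez
  have : Nonempty C := ⟨z⟩
  -- commutativity
  have hcomm : ∀ x y : {x : C // x ≠ z ∧ e * x = x ∧ x * e = x}, x * y = y * x := by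
    intro x y
    apply Subtype.ext
    rw [hmul, hmul]
    have h1 := hC0.2.2.2.2 e hez he x.1 y.1
    rw [x.2.2.1, x.2.2.2, y.2.2.1, y.2.2.2] at h1
    exact h1
  let cg : CommGroup {x : C // x ≠ z ∧ e * x = x ∧ x * e = x} :=
    { grp with mul_comm := hcomm }
  have hX : ∃ X : C → C, (∀ a, a ≠ z → X a ≠ z ∧ RR (X a) a ∧ LL (X a) e) ∧
      ∀ a b, RR a b → X a = X b := by
    refine ⟨fun a => Classical.epsilon (fun x => x ≠ z ∧ RR x a ∧ LL x e), ?_, ?_⟩
    · intro a ha
      exact Classical.epsilon_spec (h.meet ha hez)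
    · intro a b hab
      have : (fun x => x ≠ z ∧ RR x a ∧ LL x e) = (fun x => x ≠ z ∧ RR x b ∧ LL x e) := by
        funext x
        apply propext
        constructor
        · rintro ⟨h1, h2, h3⟩
          exact ⟨h1, h2.trans hab, h3⟩
        · rintro ⟨h1, h2, h3⟩
          exact ⟨h1, h2.trans hab.symm, h3⟩
      simp only
      rw [this]
  have hZ : ∃ Z : C → C, (∀ a, a ≠ z → Z a ≠ z ∧ RR (Z a) e ∧ LL (Z a) a) ∧
      ∀ a b, LL a b → Z a = Z b := by
    refine ⟨fun a => Classical.epsilon (fun x => x ≠ z ∧ RR x e ∧ LL x a), ?_, ?_⟩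
    · intro a ha
      exact Classical.epsilon_spec (h.meet hez ha)
    · intro a b hab
      have : (fun x => x ≠ z ∧ RR x e ∧ LL x a) = (fun x => x ≠ z ∧ RR x e ∧ LL x b) := by
        funext x
        apply propext
        constructor
        · rintro ⟨h1, h2, h3⟩
          exact ⟨h1, h2, h3.trans hab⟩
        · rintro ⟨h1, h2, h3⟩
          exact ⟨h1, h2, h3.trans hab.symm⟩
      simp only
      rw [this]
  obtain ⟨X, hX1, hX2⟩ := hX
  obtain ⟨Z, hZ1, hZ2⟩ := hZ
  have hXe : ∀ a, a ≠ z → X a * e = X a := by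
    intro a ha
    obtain ⟨-, -, -, c, hc⟩ := hX1 a ha
    rw [← hc, mul_assoc, he]
  have hZe : ∀ a, a ≠ z → e * Z a = Z a := by
    intro a ha
    obtain ⟨-, ⟨-, c, hc⟩, -⟩ := hZ1 a ha
    rw [← hc, ← mul_assoc, he]
  have hex : ∀ a, ∃ g : {x : C // x ≠ z ∧ e * x = x ∧ x * e = x}, a ≠ z → X a * g.1 * Z a = a := by
    intro a
    by_cases ha : a ≠ z
    · obtain ⟨-, ⟨⟨c, hc⟩, -⟩, ⟨x', hx'⟩, -⟩ := hX1 a ha
      obtain ⟨-, ⟨⟨z', hz'⟩, -⟩, ⟨d, hd⟩, -⟩ := hZ1 a ha
      have e1 : X a * x' * a = a := by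
        calc X a * x' * a = X a * x' * (X a * c) := by rw [hc]
          _ = X a * (x' * X a) * c := by simp only [mul_assoc]
          _ = a := by rw [hx', hXe a ha, hc]
      have e2 : a * z' * Z a = a := by
        calc a * z' * Z a = d * Z a * z' * Z a := by rw [hd]
          _ = d * ((Z a * z') * Z a) := by simp only [mul_assoc]
          _ = a := by rw [hz', hZe a ha, hd]
      have e3 : X a * (e * (x' * a * z') * e) * Z a = a := by
        calc X a * (e * (x' * a * z') * e) * Z a = (X a * e) * x' * a * z' * (e * Z a) := by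
              simp only [mul_assoc]
          _ = (X a * x' * a) * z' * Z a := by rw [hXe a ha, hZe a ha]
          _ = a := by rw [e1, e2]
      refine ⟨⟨e * (x' * a * z') * e, ?_, ?_, ?_⟩, fun _ => e3⟩
      · intro h0
        rw [h0, (h.1 _).2, (h.1 _).1] at e3
        exact ha e3.symm
      · rw [← mul_assoc, ← mul_assoc, he]
      · rw [mul_assoc, he]
    · exact ⟨⟨e, hez, he, he⟩, fun h1 => absurd h1 ha⟩
  have huniq : ∀ a b, a ≠ z → b ≠ z → ∀ g g' : {x : C // x ≠ z ∧ e * x = x ∧ x * e = x},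
      X a * g.1 * Z b = X a * g'.1 * Z b → g = g' := by
    intro a b ha hb g g' hgg
    obtain ⟨-, -, ⟨x', hx'⟩, -⟩ := hX1 a ha
    obtain ⟨-, ⟨⟨z', hz'⟩, -⟩, -⟩ := hZ1 b hb
    have key : ∀ g : {x : C // x ≠ z ∧ e * x = x ∧ x * e = x},
        x' * (X a * g.1 * Z b) * z' = g.1 := by
      intro g
      calc x' * (X a * g.1 * Z b) * z' = (x' * X a) * g.1 * (Z b * z') := by
            simp only [mul_assoc]
        _ = g.1 := by rw [hx', hz', g.2.2.1, g.2.2.2]
    apply Subtype.ext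
    rw [← key g, ← key g', hgg]
  choose γ hγ using hex
  -- index sets
  let I : Type := {x : C // ∃ a, a ≠ z ∧ X a = x}
  let L : Type := {x : C // ∃ a, a ≠ z ∧ Z a = x}
  have hIe : ∀ i : I, i.1 * e = i.1 := by
    rintro ⟨_, a, ha, rfl⟩
    exact hXe a ha
  have hLe : ∀ l : L, e * l.1 = l.1 := by
    rintro ⟨_, a, ha, rfl⟩
    exact hZe a ha
  let P : L → I → Option (Additive {x : C // x ≠ z ∧ e * x = x ∧ x * e = x}) := fun l i =>
    if hli : l.1 * i.1 ≠ z then
      some (Additive.ofMul ⟨l.1 * i.1, hli, by rw [← mul_assoc, hLe], by rw [mul_assoc, hIe]⟩)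
    else none
  have hPs : ∀ (l : L) (i : I), (P l i).isSome ↔ l.1 * i.1 ≠ z := by
    intro l i
    by_cases hli : l.1 * i.1 ≠ z
    · simp only [P, dif_pos hli]; simp [hli]
    · simp only [P, dif_neg hli]; simp [hli]
  have hprod : ∀ a b, a ≠ z → b ≠ z → (Z a * X b ≠ z ↔ a * b ≠ z) := by
    intro a b ha hb
    constructor
    · intro h1
      exact h.ne_of_rr (hX1 b hb).2.1 (h.ne_of_ll (hZ1 a ha).2.2 h1)
    · intro h1
      exact h.ne_of_rr (hX1 b hb).2.1.symm (h.ne_of_ll (hZ1 a ha).2.2.symm h1)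
  let φ : C → ARM (Additive {x : C // x ≠ z ∧ e * x = x ∧ x * e = x}) I L P := fun a =>
    if ha : a = z then ARM.zero else ARM.el ⟨X a, a, ha, rfl⟩ (Additive.ofMul (γ a)) ⟨Z a, a, ha, rfl⟩
  have hφz : φ z = ARM.zero := dif_pos rfl
  have hφ : ∀ a (ha : a ≠ z), φ a = ARM.el ⟨X a, a, ha, rfl⟩ (Additive.ofMul (γ a))
      ⟨Z a, a, ha, rfl⟩ := by
    intro a ha
    simp only [φ]; rw [dif_neg ha]
  have hφmul : ∀ a b, φ (a * b) = φ a * φ b := by
    intro a b
    by_cases ha : a = z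
    · rw [ha, (h.1 b).1, hφz, ARM.zero_mul']
    by_cases hb : b = z
    · rw [hb, (h.1 a).2, hφz, ARM.mul_zero']
    rw [hφ a ha, hφ b hb]
    by_cases hab : a * b = z
    · rw [hab, hφz, ARM.el_mul_el_none]
      simp only [P]
      rw [dif_neg]
      intro h1
      exact ((hprod a b ha hb).1 h1) hab
    · have h1 : Z a * X b ≠ z := (hprod a b ha hb).2 hab
      have h2 : P ⟨Z a, a, ha, rfl⟩ ⟨X b, b, hb, rfl⟩ = some (Additive.ofMul
          ⟨Z a * X b, h1, by rw [← mul_assoc, hZe a ha], by rw [mul_assoc, hXe b hb]⟩) := by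
        simp only [P]; rw [dif_pos h1]
      rw [hφ (a * b) hab, ARM.el_mul_el h2]
      have h3 : X (a * b) = X a := hX2 _ _ (h.rr_mul hab)
      have h4 : Z (a * b) = Z b := hZ2 _ _ (h.ll_mul hab)
      congr 1
      · exact Subtype.ext h3
      · have h5 : γ (a * b) = γ a * ⟨Z a * X b, h1, by rw [← mul_assoc, hZe a ha],
            by rw [mul_assoc, hXe b hb]⟩ * γ b := by
          apply huniq a b ha hb
          have h6 := hγ (a * b) hab
          rw [h3, h4] at h6
          rw [h6, hmul, hmul]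
          calc a * b = (X a * (γ a).1 * Z a) * (X b * (γ b).1 * Z b) := by rw [hγ a ha, hγ b hb]
            _ = _ := by simp only [mul_assoc]
        rw [h5]; rfl
      · exact Subtype.ext h4
  have hbij : Function.Bijective φ := by
    constructor
    · intro a b hab
      by_cases ha : a = z <;> by_cases hb : b = z
      · rw [ha, hb]
      · rw [ha, hφz, hφ b hb] at hab; exact absurd hab (by simp)
      · rw [hb, hφz, hφ a ha] at hab; exact absurd hab (by simp)
      · rw [hφ a ha, hφ b hb] at hab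
        injection hab with h1 h2 h3
        have h1' := congrArg Subtype.val h1
        have h3' := congrArg Subtype.val h3
        have h2' : γ a = γ b := h2
        simp only at h1' h3'
        rw [← hγ a ha, ← hγ b hb, h1', h2', h3']
    · intro y
      rcases y with _ | ⟨⟨_, a, ha, rfl⟩, g, ⟨_, b, hb, rfl⟩⟩
      · exact ⟨z, hφz⟩
      · obtain ⟨g', hg'⟩ : ∃ g' : {x : C // x ≠ z ∧ e * x = x ∧ x * e = x},
            Additive.ofMul g' = g := ⟨Additive.toMul g, rfl⟩
        have h1 : X a * g'.1 ≠ z := by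
          have : e * g'.1 ≠ z := by rw [g'.2.2.1]; exact g'.2.1
          exact h.ne_of_ll (hX1 a ha).2.2.symm this
        have h2 : g'.1 * Z b ≠ z := by
          have : g'.1 * e ≠ z := by rw [g'.2.2.2]; exact g'.2.1
          exact h.ne_of_rr (hZ1 b hb).2.1.symm this
        have h3 : X a * g'.1 * Z b ≠ z := h.cat h1 h2
        have h4 : X (X a * g'.1 * Z b) = X a := by
          rw [hX2 _ _ (h.rr_mul h3), hX2 _ _ (h.rr_mul h1), hX2 _ _ (hX1 a ha).2.1]
        have h5 : Z (X a * g'.1 * Z b) = Z b := by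
          rw [hZ2 _ _ (h.ll_mul h3), hZ2 _ _ (hZ1 b hb).2.2]
        have h6 : γ (X a * g'.1 * Z b) = g' := by
          apply huniq a b ha hb
          have := hγ _ h3
          rw [h4, h5] at this
          exact this
        refine ⟨X a * g'.1 * Z b, ?_⟩
        rw [hφ _ h3]
        congr 1
        · exact Subtype.ext h4
        · rw [h6]; exact hg'
        · exact Subtype.ext h5
  refine ⟨Additive {x : C // x ≠ z ∧ e * x = x ∧ x * e = x}, I, L, inferInstance, ?_, ?_, ?_, ?_,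
    P, ⟨?_, ?_⟩, MulEquiv.ofBijective (MulHom.mk φ hφmul) hbij, hφz⟩
  · exact inferInstanceAs (Finite {x : C // x ≠ z ∧ e * x = x ∧ x * e = x})
  · exact Subtype.finite
  · exact Subtype.finite
  · exact ⟨⟨X e, e, hez, rfl⟩⟩
  · rintro ⟨_, a, ha, rfl⟩
    obtain ⟨d, hd⟩ := h.exists_right (hZ1 a ha).1
    have hdz : d ≠ z := h.mul_right_ne hd
    refine ⟨⟨X d, d, hdz, rfl⟩, ?_⟩
    rw [hPs]
    exact h.ne_of_rr (hX1 d hdz).2.1.symm hd
  · rintro ⟨_, a, ha, rfl⟩
    obtain ⟨d, hd⟩ := h.exists_left (hX1 a ha).1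
    have hdz : d ≠ z := h.mul_left_ne hd
    refine ⟨⟨Z d, d, hdz, rfl⟩, ?_⟩
    rw [hPs]
    exact h.ne_of_ll (hZ1 d hdz).2.2.symm hd

end Pool.Agent.W435.FB
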