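import Pool.Agent.W435.FB.Base

/-!
# Rees matrix semigroups satisfy the schemas `SchA`
-/

set_option autoImplicit false

namespace Pool.Agent.W435.FB

section
variable {A I L : Type} [AddCommGroup A] {P : L → I → Option A}

/-- right multiplication by `a * el j h m` of elements with last coordinate `l` -/
theorem right_mul (l : L) (a : WithOne (ARM A I L P)) (j : I) (h : A) (m : L) :
    (∃ δ : A, ∀ (k : I) (r : A), ((ARM.el k r l : ARM A I L P) : WithOne (ARM A I L P)) * a *
      ((ARM.el j h m : ARM A I L P) : WithOne (ARM A I L P)) =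
        ((ARM.el k (r + δ) m : ARM A I L P) : WithOne (ARM A I L P))) ∨
    (∀ (k : I) (r : A), ((ARM.el k r l : ARM A I L P) : WithOne (ARM A I L P)) * a *
      ((ARM.el j h m : ARM A I L P) : WithOne (ARM A I L P)) =
        ((ARM.zero : ARM A I L P) : WithOne (ARM A I L P))) := by
  induction a using WithOne.recOneCoe with
  | one =>
    rcases hp : P l j with _ | p
    · right
      intro k r
      rw [mul_one, ← WithOne.coe_mul, ARM.el_mul_el_none hp]
    · left
      refine ⟨p + h, fun k r => ?_⟩
      rw [mul_one, ← WithOne.coe_mul, ARM.el_mul_el hp, add_assoc]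
  | coe a =>
    rcases a with _ | ⟨i', g', l'⟩
    · right
      intro k r
      rw [← WithOne.coe_mul, ← WithOne.coe_mul, ARM.mul_zero', ARM.zero_mul']
    · rcases hp : P l i' with _ | p
      · right
        intro k r
        rw [← WithOne.coe_mul, ← WithOne.coe_mul, ARM.el_mul_el_none hp, ARM.zero_mul']
      · rcases hq : P l' j with _ | q
        · right
          intro k r
          rw [← WithOne.coe_mul, ← WithOne.coe_mul, ARM.el_mul_el hp, ARM.el_mul_el_none hq]
        · left
          refine ⟨p + g' + q + h, fun k r => ?_⟩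
          rw [← WithOne.coe_mul, ← WithOne.coe_mul, ARM.el_mul_el hp, ARM.el_mul_el hq]
          congr 2
          abel

/-- the zero absorbs -/
theorem zero_mul_one (a : WithOne (ARM A I L P)) :
    ((ARM.zero : ARM A I L P) : WithOne (ARM A I L P)) * a = (ARM.zero : ARM A I L P) := by
  induction a using WithOne.recOneCoe with
  | one => rw [mul_one]
  | coe a => rw [← WithOne.coe_mul, ARM.zero_mul']

theorem mul_zero_one (a : WithOne (ARM A I L P)) :
    a * ((ARM.zero : ARM A I L P) : WithOne (ARM A I L P)) = (ARM.zero : ARM A I L P) := by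
  induction a using WithOne.recOneCoe with
  | one => rw [one_mul]
  | coe a => rw [← WithOne.coe_mul, ARM.mul_zero']

end

theorem schA : SchAStmt := by
  intro n A I L _ P hn hA
  refine ⟨?_, ?_, ?_⟩
  · intro x a b
    rcases x with _ | ⟨i, g, l⟩
    · simp only [zero_mul_one]
    · rcases right_mul (P := P) l a i g l with ⟨δ, h1⟩ | h1 <;>
      rcases right_mul (P := P) l b i g l with ⟨ε, h2⟩ | h2
      · rw [h1, h2, h2, h1]; congr 2; abel
      · rw [h1, h2, h2, zero_mul_one, zero_mul_one]
      · rw [h1, h2, h1, zero_mul_one, zero_mul_one]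
      · rw [h1, h2, zero_mul_one, zero_mul_one, zero_mul_one, zero_mul_one]
  · intro x y a b c
    rcases x with _ | ⟨i, g, l⟩
    · simp only [zero_mul_one]
    rcases y with _ | ⟨j, h, m⟩
    · simp only [mul_zero_one]
    rcases right_mul (P := P) l a j h m with ⟨δ, h1⟩ | h1 <;>
    rcases right_mul (P := P) l b j h m with ⟨ε, h2⟩ | h2 <;>
    rcases right_mul (P := P) m c i g l with ⟨ζ, h3⟩ | h3 <;>
    simp only [h1, h2, h3, zero_mul_one]
    congr 2; abel
  · intro x a
    rcases x with _ | ⟨i, g, l⟩
    · rw [mul_zero_one, mul_zero_one]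
    rcases right_mul (P := P) l a i g l with ⟨δ, h1⟩ | h1
    · have key : ∀ k : ℕ, (((ARM.el i g l : ARM A I L P) : WithOne (ARM A I L P)) * a) ^ k *
          ((ARM.el i g l : ARM A I L P) : WithOne (ARM A I L P)) =
          ((ARM.el i (g + k • δ) l : ARM A I L P) : WithOne (ARM A I L P)) := by
        intro k
        induction k with
        | zero => rw [_root_.pow_zero, one_mul, zero_smul, add_zero]
        | succ k ih =>
          rw [_root_.pow_succ, ← mul_assoc, ih, h1]
          congr 2
          rw [succ_nsmul, add_assoc]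
      rw [key, h1, succ_nsmul, hA δ, zero_add]
    · have h2 := h1 i g
      rw [h2, _root_.pow_succ, mul_assoc, h2, mul_zero_one]

end Pool.Agent.W435.FB
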