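import Pool.Agent.W435.FB.SA

/-!
# Rees matrix semigroups with rectangular matrix satisfy the schemas `SchR`
-/

set_option autoImplicit false

namespace Pool.Agent.W435.FB

section
variable {A I L : Type} [AddCommGroup A] {P : L → I → Option A}

/-- abbreviation for the coerced element -/
def cel (P : L → I → Option A) (i : I) (g : A) (l : L) : WithOne (ARM A I L P) :=
  ((ARM.el i g l : ARM A I L P) : WithOne (ARM A I L P))

/-- the coerced zero -/
def cz (P : L → I → Option A) : WithOne (ARM A I L P) :=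
  ((ARM.zero : ARM A I L P) : WithOne (ARM A I L P))

theorem cz_mul (a : WithOne (ARM A I L P)) : cz P * a = cz P := zero_mul_one a
theorem mul_cz (a : WithOne (ARM A I L P)) : a * cz P = cz P := mul_zero_one a

theorem cel_mul {i j : I} {g h : A} {l m : L} {p : A} (hp : P l j = some p) :
    cel P i g l * cel P j h m = cel P i (g + p + h) m := by
  unfold cel; rw [← WithOne.coe_mul, ARM.el_mul_el hp]

theorem cel_mul_none {i j : I} {g h : A} {l m : L} (hp : P l j = none) :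
    cel P i g l * cel P j h m = cz P := by
  unfold cel cz; rw [← WithOne.coe_mul, ARM.el_mul_el_none hp]

theorem cel_pow {i : I} {l : L} {p : A} (hp : P l i = some p) (g : A) (k : ℕ) :
    cel P i g l ^ (k + 1) = cel P i (g + k • (p + g)) l := by
  induction k with
  | zero => rw [zero_add, pow_one, zero_smul, add_zero]
  | succ k ih =>
    rw [_root_.pow_succ, ih, cel_mul hp]
    congr 1
    rw [succ_nsmul]; abel

theorem cel_mid (i : I) (g : A) (l : L) (a : WithOne (ARM A I L P)) (j : I) (h : A) (m : L) :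
    cel P i g l * a * cel P j h m = cz P ∨ ∃ β, cel P i g l * a * cel P j h m = cel P i β m := by
  rcases right_mul (P := P) l a j h m with ⟨δ, h1⟩ | h1
  · exact Or.inr ⟨_, h1 i g⟩
  · exact Or.inl (h1 i g)

end

theorem schR : SchRStmt := by
  intro n e A I L _ P hn hA hR hC
  obtain ⟨k, rfl⟩ : ∃ k, n = k + 1 := ⟨n - 1, by omega⟩
  have hneg : ∀ a : A, k • a = -a := by
    intro a
    have := hA a
    rw [succ_nsmul] at this
    exact eq_neg_of_add_eq_zero_left this
  refine ⟨⟨schA (k + 1) A I L P hn hA, ?_, ?_, ?_, ?_⟩, ?_, ?_, ?_⟩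
  · -- r1
    intro x y z w a b
    rcases x with _ | ⟨i1, g1, l1⟩
    · simp only [zero_mul_one]
    rcases y with _ | ⟨i2, g2, l2⟩
    · simp only [zero_mul_one, mul_zero_one]
    rcases z with _ | ⟨i3, g3, l3⟩
    · simp only [zero_mul_one, mul_zero_one]
    rcases w with _ | ⟨i4, g4, l4⟩
    · simp only [zero_mul_one, mul_zero_one]
    show cel P i1 g1 l1 * cel P i2 g2 l2 * a * cel P i1 g1 l1 * cel P i4 g4 l4 * b *
      cel P i3 g3 l3 * cel P i4 g4 l4 = cel P i1 g1 l1 * cel P i2 g2 l2 * a * cel P i1 g1 l1 *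
      cel P i4 g4 l4 * b * cel P i3 g3 l3 * (cel P i2 g2 l2 * a * cel P i1 g1 l1 *
      cel P i4 g4 l4 * b * cel P i3 g3 l3) ^ (k + 1) * cel P i4 g4 l4
    have e1 : cel P i1 g1 l1 * cel P i2 g2 l2 * a * cel P i1 g1 l1 * cel P i4 g4 l4 * b *
      cel P i3 g3 l3 = cel P i1 g1 l1 * ((cel P i2 g2 l2 * a * cel P i1 g1 l1) *
        (cel P i4 g4 l4 * b * cel P i3 g3 l3)) := by simp only [mul_assoc]
    have e2 : cel P i2 g2 l2 * a * cel P i1 g1 l1 * cel P i4 g4 l4 * b * cel P i3 g3 l3 =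
      (cel P i2 g2 l2 * a * cel P i1 g1 l1) * (cel P i4 g4 l4 * b * cel P i3 g3 l3) := by
      simp only [mul_assoc]
    rw [e1, e2]
    rcases cel_mid (P := P) i2 g2 l2 a i1 g1 l1 with h1 | ⟨β, h1⟩
    · rw [h1]; simp only [cz_mul, mul_cz]
    rcases cel_mid (P := P) i4 g4 l4 b i3 g3 l3 with h2 | ⟨γ, h2⟩
    · rw [h2]; simp only [cz_mul, mul_cz]
    rw [h1, h2]
    rcases h3 : P l1 i4 with _ | p
    · rw [cel_mul_none h3]; simp only [cz_mul, mul_cz]
    rw [cel_mul h3]
    rcases h4 : P l1 i2 with _ | q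
    · rw [cel_mul_none h4]; simp only [cz_mul]
    rcases h5 : P l3 i4 with _ | r
    · rw [mul_assoc, cel_mul_none h5, mul_cz, _root_.pow_succ, mul_assoc _ (_ * _) _,
        mul_assoc _ _ (cel P i4 g4 l4), cel_mul_none h5]
      simp only [mul_cz]
    · have h6 : (P l3 i2).isSome := hR l1 l3 i4 i2 (by rw [h3]; rfl) (by rw [h4]; rfl)
        (by rw [h5]; rfl)
      obtain ⟨t, ht⟩ := Option.isSome_iff_exists.1 h6
      rw [cel_pow ht, hneg, cel_mul h4, cel_mul ht, cel_mul h5, cel_mul h5]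
      congr 1; abel
  · -- m3
    intro x y
    rcases x with _ | ⟨i, g, l⟩
    · show cz P ^ 2 * _ * _ = cz P ^ 2 * _ * _ * _
      simp only [pow_two, cz_mul]
    rcases y with _ | ⟨j, h, m⟩
    · show _ * cz P ^ 2 * _ = _ * cz P ^ 2 * _ * _
      simp only [pow_two, cz_mul, mul_cz]
    show cel P i g l ^ 2 * cel P j h m ^ 2 * (cel P i g l * cel P j h m) ^ (e + 1) =
      cel P i g l ^ 2 * cel P j h m ^ 2 * cel P i g l ^ (e + 1) * cel P j h m ^ (e + 1)
    rcases h1 : P l i with _ | p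
    · rw [pow_two (cel P i g l), cel_mul_none h1]; simp only [cz_mul]
    rcases h2 : P l j with _ | q
    · rw [cel_mul_none h2]
      have : cel P i g l ^ 2 * cel P j h m ^ 2 = cz P := by
        rw [pow_two, pow_two, mul_assoc, ← mul_assoc (cel P i g l) (cel P j h m),
          cel_mul_none h2]
        simp only [cz_mul, mul_cz]
      rw [this]; simp only [cz_mul]
    rcases h3 : P m j with _ | s
    · rw [pow_two (cel P j h m), cel_mul_none h3]; simp only [cz_mul, mul_cz]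
    rcases h4 : P m i with _ | r
    · have e1 : cel P j h m ^ 2 * (cel P i g l * cel P j h m) ^ (e + 1) = cz P := by
        rw [pow_two, _root_.pow_succ', mul_assoc, mul_assoc (cel P i g l), ← mul_assoc (cel P j h m)
          (cel P i g l), cel_mul_none h4]
        simp only [cz_mul, mul_cz]
      have e2 : cel P j h m ^ 2 * cel P i g l ^ (e + 1) = cz P := by
        rw [pow_two, _root_.pow_succ', mul_assoc, ← mul_assoc (cel P j h m)
          (cel P i g l), cel_mul_none h4]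
        simp only [cz_mul, mul_cz]
      rw [mul_assoc, e1, mul_assoc (cel P i g l ^ 2), e2]
      simp only [cz_mul, mul_cz]
    · have hc : e • (p - r + s - q) = 0 := hC _ ⟨l, m, i, j, p, r, s, q, h1, h4, h3, h2, rfl⟩
      have e1 : cel P i g l ^ 2 = cel P i (g + 1 • (p + g)) l := cel_pow h1 g 1
      have e2 : cel P j h m ^ 2 = cel P j (h + 1 • (s + h)) m := cel_pow h3 h 1
      rw [e1, e2, cel_mul h2, cel_mul h2, cel_pow h4, cel_mul h4, cel_pow h1, cel_pow h3,
        cel_mul h4, cel_mul h2]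
      congr 1
      have h5 : e • p + e • s = e • r + e • q := by
        have : e • (p - r + s - q) = (e • p + e • s) - (e • r + e • q) := by
          simp only [smul_sub, smul_add]; abel
        rw [this] at hc
        exact sub_eq_zero.1 hc
      have h6 : g + 1 • (p + g) + q + (h + 1 • (s + h)) + r + (g + e • (p + g)) + q +
          (h + e • (s + h)) = g + 1 • (p + g) + q + (h + 1 • (s + h)) + r + (g + q + h) +
          (e • g + e • h) + (e • p + e • s) := by
        simp only [smul_add]; abel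
      rw [h6, h5]
      simp only [smul_add]; abel
  · -- r2
    intro he x y x' y1 a b
    subst he
    rcases x with _ | ⟨i1, g1, l1⟩
    · simp only [zero_mul_one]
    rcases y with _ | ⟨i2, g2, l2⟩
    · simp only [zero_mul_one, mul_zero_one]
    rcases x' with _ | ⟨i3, g3, l3⟩
    · simp only [zero_mul_one, mul_zero_one]
    rcases y1 with _ | ⟨i4, g4, l4⟩
    · simp only [mul_zero_one]
    show cel P i1 g1 l1 * cel P i2 g2 l2 * a * cel P i3 g3 l3 * cel P i2 g2 l2 * b *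
      cel P i1 g1 l1 * cel P i4 g4 l4 = cel P i1 g1 l1 * cel P i2 g2 l2 * a * cel P i3 g3 l3 *
      cel P i2 g2 l2 * b * cel P i1 g1 l1 * (cel P i2 g2 l2 * a * cel P i3 g3 l3) ^ (k + 1) *
      cel P i4 g4 l4
    have e1 : cel P i1 g1 l1 * cel P i2 g2 l2 * a * cel P i3 g3 l3 * cel P i2 g2 l2 * b *
      cel P i1 g1 l1 = cel P i1 g1 l1 * (cel P i2 g2 l2 * a * cel P i3 g3 l3) *
        (cel P i2 g2 l2 * b * cel P i1 g1 l1) := by simp only [mul_assoc]
    rw [e1]
    rcases cel_mid (P := P) i2 g2 l2 a i3 g3 l3 with h1 | ⟨β, h1⟩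
    · rw [h1]; simp only [cz_mul, mul_cz]
    rcases cel_mid (P := P) i2 g2 l2 b i1 g1 l1 with h2 | ⟨γ, h2⟩
    · rw [h2]; simp only [cz_mul, mul_cz]
    rw [h1, h2]
    rcases h3 : P l1 i2 with _ | p1
    · rw [cel_mul_none h3]; simp only [cz_mul]
    rcases h4 : P l3 i2 with _ | p2
    · rw [cel_mul h3, cel_mul_none h4]; simp only [cz_mul]
    rw [cel_mul h3, cel_mul h4, cel_pow h4, cel_mul h3]
    rcases h5 : P l1 i4 with _ | p3
    · rcases h6 : P l3 i4 with _ | p4
      · rw [cel_mul_none h5, cel_mul_none h6]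
      · have := hR l3 l1 i2 i4 (by rw [h4]; rfl) (by rw [h6]; rfl) (by rw [h3]; rfl)
        rw [h5] at this
        exact absurd this (by simp)
    · have := hR l1 l3 i2 i4 (by rw [h3]; rfl) (by rw [h5]; rfl) (by rw [h4]; rfl)
      obtain ⟨p4, h6⟩ := Option.isSome_iff_exists.1 this
      rw [cel_mul h5, cel_mul h6, hneg]
      have hc := hC _ ⟨l1, l3, i2, i4, p1, p2, p4, p3, h3, h4, h6, h5, rfl⟩
      rw [one_smul] at hc
      congr 1
      have h7 : p3 = p1 - p2 + p4 := (sub_eq_zero.1 hc).symm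
      rw [h7]; abel
  · -- r2'
    intro he x y y' x0 a b
    subst he
    rcases x with _ | ⟨i1, g1, l1⟩
    · simp only [zero_mul_one, mul_zero_one]
    rcases y with _ | ⟨i2, g2, l2⟩
    · simp only [zero_mul_one, mul_zero_one]
    rcases y' with _ | ⟨i3, g3, l3⟩
    · simp only [zero_mul_one, mul_zero_one]
    rcases x0 with _ | ⟨i4, g4, l4⟩
    · simp only [zero_mul_one]
    show cel P i4 g4 l4 * cel P i2 g2 l2 * b * cel P i1 g1 l1 * cel P i3 g3 l3 * a *
      cel P i1 g1 l1 * cel P i2 g2 l2 = cel P i4 g4 l4 * (cel P i3 g3 l3 * a *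
      cel P i1 g1 l1) ^ (k + 1) * cel P i2 g2 l2 * b * cel P i1 g1 l1 * cel P i3 g3 l3 * a *
      cel P i1 g1 l1 * cel P i2 g2 l2
    have e1 : cel P i4 g4 l4 * cel P i2 g2 l2 * b * cel P i1 g1 l1 * cel P i3 g3 l3 * a *
      cel P i1 g1 l1 * cel P i2 g2 l2 = cel P i4 g4 l4 * (cel P i2 g2 l2 * b * cel P i1 g1 l1) *
      (cel P i3 g3 l3 * a * cel P i1 g1 l1) * cel P i2 g2 l2 := by simp only [mul_assoc]
    have e2 : cel P i4 g4 l4 * (cel P i3 g3 l3 * a *
      cel P i1 g1 l1) ^ (k + 1) * cel P i2 g2 l2 * b * cel P i1 g1 l1 * cel P i3 g3 l3 * a *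
      cel P i1 g1 l1 * cel P i2 g2 l2 = cel P i4 g4 l4 * (cel P i3 g3 l3 * a *
      cel P i1 g1 l1) ^ (k + 1) * (cel P i2 g2 l2 * b * cel P i1 g1 l1) *
      (cel P i3 g3 l3 * a * cel P i1 g1 l1) * cel P i2 g2 l2 := by simp only [mul_assoc]
    rw [e1, e2]
    rcases cel_mid (P := P) i3 g3 l3 a i1 g1 l1 with h1 | ⟨β, h1⟩
    · rw [h1]; simp only [cz_mul, mul_cz]
    rcases cel_mid (P := P) i2 g2 l2 b i1 g1 l1 with h2 | ⟨γ, h2⟩
    · rw [h2]; simp only [cz_mul, mul_cz]
    rw [h1, h2]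
    rcases h3 : P l1 i3 with _ | q2
    · rw [mul_assoc _ (cel P i2 γ l1) (cel P i3 β l1), cel_mul_none h3,
        mul_assoc _ (cel P i2 γ l1) (cel P i3 β l1), cel_mul_none h3]
      simp only [cz_mul, mul_cz]
    rcases h4 : P l1 i2 with _ | q3
    · rw [mul_assoc _ (cel P i3 β l1) (cel P i2 g2 l2), cel_mul_none h4,
        mul_assoc _ (cel P i3 β l1) (cel P i2 g2 l2), cel_mul_none h4]
      simp only [mul_cz]
    rw [cel_pow h3]
    rcases h5 : P l4 i2 with _ | q1
    · rcases h6 : P l4 i3 with _ | q4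
      · rw [cel_mul_none h5, cel_mul_none h6]
        simp only [cz_mul]
      · have := hR l1 l4 i3 i2 (by rw [h3]; rfl) (by rw [h4]; rfl) (by rw [h6]; rfl)
        rw [h5] at this
        exact absurd this (by simp)
    · have := hR l1 l4 i2 i3 (by rw [h4]; rfl) (by rw [h3]; rfl) (by rw [h5]; rfl)
      obtain ⟨q4, h6⟩ := Option.isSome_iff_exists.1 this
      rw [cel_mul h5, cel_mul h3, cel_mul h4, cel_mul h6, cel_mul h4, cel_mul h3, cel_mul h4, hneg]
      have hc := hC _ ⟨l4, l1, i2, i3, q1, q3, q2, q4, h5, h4, h3, h6, rfl⟩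
      rw [one_smul] at hc
      congr 1
      have h7 : q4 = q1 - q3 + q2 := (sub_eq_zero.1 hc).symm
      rw [h7]; abel
  · -- SchF
    intro hi x y y' a b
    rcases x with _ | ⟨i1, g1, l1⟩
    · simp only [zero_mul_one, mul_zero_one]
    rcases y with _ | ⟨i2, g2, l2⟩
    · simp only [mul_zero_one]
    rcases y' with _ | ⟨i3, g3, l3⟩
    · simp only [zero_mul_one, mul_zero_one]
    show cel P i2 g2 l2 * b * cel P i1 g1 l1 * cel P i3 g3 l3 * a *
      cel P i1 g1 l1 * cel P i2 g2 l2 = (cel P i3 g3 l3 * a *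
      cel P i1 g1 l1) ^ (k + 1) * cel P i2 g2 l2 * b * cel P i1 g1 l1 * cel P i3 g3 l3 * a *
      cel P i1 g1 l1 * cel P i2 g2 l2
    have e1 : cel P i2 g2 l2 * b * cel P i1 g1 l1 * cel P i3 g3 l3 * a *
      cel P i1 g1 l1 * cel P i2 g2 l2 = (cel P i2 g2 l2 * b * cel P i1 g1 l1) *
      (cel P i3 g3 l3 * a * cel P i1 g1 l1) * cel P i2 g2 l2 := by simp only [mul_assoc]
    have e2 : (cel P i3 g3 l3 * a *
      cel P i1 g1 l1) ^ (k + 1) * cel P i2 g2 l2 * b * cel P i1 g1 l1 * cel P i3 g3 l3 * a *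
      cel P i1 g1 l1 * cel P i2 g2 l2 = (cel P i3 g3 l3 * a *
      cel P i1 g1 l1) ^ (k + 1) * (cel P i2 g2 l2 * b * cel P i1 g1 l1) *
      (cel P i3 g3 l3 * a * cel P i1 g1 l1) * cel P i2 g2 l2 := by simp only [mul_assoc]
    rw [e1, e2]
    rcases cel_mid (P := P) i3 g3 l3 a i1 g1 l1 with h1 | ⟨β, h1⟩
    · rw [h1]; simp only [cz_mul, mul_cz]
    rcases cel_mid (P := P) i2 g2 l2 b i1 g1 l1 with h2 | ⟨γ, h2⟩
    · rw [h2]; simp only [cz_mul, mul_cz]
    rw [h1, h2]
    rcases h3 : P l1 i3 with _ | q2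
    · rw [cel_mul_none h3, mul_assoc _ (cel P i2 γ l1) (cel P i3 β l1), cel_mul_none h3]
      simp only [cz_mul, mul_cz]
    rcases h4 : P l1 i2 with _ | q3
    · rw [mul_assoc _ (cel P i3 β l1) (cel P i2 g2 l2), cel_mul_none h4,
        mul_assoc _ (cel P i3 β l1) (cel P i2 g2 l2), cel_mul_none h4]
      simp only [mul_cz]
    obtain rfl : i2 = i3 := hi l1 i2 i3 (by rw [h4]; rfl) (by rw [h3]; rfl)
    obtain rfl : q2 = q3 := by rw [h3] at h4; exact Option.some.inj h4
    rw [cel_pow h3, cel_mul h3, cel_mul h3, cel_mul h3, cel_mul h3, cel_mul h3, hneg]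
    congr 1; abel
  · -- SchL
    intro hi x y x' a b
    rcases x with _ | ⟨i1, g1, l1⟩
    · simp only [zero_mul_one]
    rcases y with _ | ⟨i2, g2, l2⟩
    · simp only [zero_mul_one, mul_zero_one]
    rcases x' with _ | ⟨i3, g3, l3⟩
    · simp only [zero_mul_one, mul_zero_one]
    show cel P i1 g1 l1 * cel P i2 g2 l2 * a * cel P i3 g3 l3 * cel P i2 g2 l2 * b *
      cel P i1 g1 l1 = cel P i1 g1 l1 * cel P i2 g2 l2 * a * cel P i3 g3 l3 *
      cel P i2 g2 l2 * b * cel P i1 g1 l1 * (cel P i2 g2 l2 * a * cel P i3 g3 l3) ^ (k + 1)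
    have e1 : cel P i1 g1 l1 * cel P i2 g2 l2 * a * cel P i3 g3 l3 * cel P i2 g2 l2 * b *
      cel P i1 g1 l1 = cel P i1 g1 l1 * (cel P i2 g2 l2 * a * cel P i3 g3 l3) *
        (cel P i2 g2 l2 * b * cel P i1 g1 l1) := by simp only [mul_assoc]
    rw [e1]
    rcases cel_mid (P := P) i2 g2 l2 a i3 g3 l3 with h1 | ⟨β, h1⟩
    · rw [h1]; simp only [cz_mul, mul_cz]
    rcases cel_mid (P := P) i2 g2 l2 b i1 g1 l1 with h2 | ⟨γ, h2⟩
    · rw [h2]; simp only [cz_mul, mul_cz]
    rw [h1, h2]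
    rcases h3 : P l1 i2 with _ | p1
    · rw [cel_mul_none h3]; simp only [cz_mul]
    rcases h4 : P l3 i2 with _ | p2
    · rw [cel_mul h3, cel_mul_none h4]; simp only [cz_mul]
    obtain rfl : l1 = l3 := hi l1 l3 i2 (by rw [h3]; rfl) (by rw [h4]; rfl)
    obtain rfl : p1 = p2 := by rw [h3] at h4; exact Option.some.inj h4
    rw [cel_pow h3, cel_mul h3, cel_mul h3, cel_mul h3, hneg]
    congr 1; abel
  · -- Sch1
    intro hs x
    rcases x with _ | ⟨i, g, l⟩
    · show cz P ^ (k + 1 + 1) = cz P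
      rw [_root_.pow_succ, mul_cz]
    · obtain ⟨p, hp⟩ := Option.isSome_iff_exists.1 (hs l i)
      show cel P i g l ^ (k + 1 + 1) = cel P i g l
      rw [cel_pow hp, hA, add_zero]

end Pool.Agent.W435.FB
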