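import Pool.Agent.W435.FB.TR5

/-!
# Theorem R, part 6: changing the first and the last letter; proof of Theorem R
-/

set_option autoImplicit false

namespace Pool.Agent.W435.FB

open Relation

section
variable {T : Type} [Semigroup T] {f : ℕ → T} {n e : ℕ}
variable (hTA : TAStmt) (hCL : CLStmt) (hn : 0 < n) (he : e ∣ n) (hT : SchR n e T)

theorem closed_pairs {u : List ℕ} {y x : ℕ} {a : List ℕ} (h : Wk u y a x) (h' : E u x y) :
    ∀ q ∈ adj (y :: (a ++ [x]) ++ [y]), q ∈ adj u := by
  intro q hq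
  have e1 : y :: (a ++ [x]) ++ [y] = (y :: a) ++ x :: [y] := by simp
  rw [e1, adj_append_cons, List.mem_append] at hq
  rcases hq with hq | hq
  · exact h q hq
  · simp [adj] at hq; rw [hq]; exact h'

include hTA hCL hn in
theorem first_change (hT : SchR n 1 T) (hF : SchF n T) {u : List ℕ} (hM : Maxl f n 1 u)
    (hu : u ≠ []) {y : ℕ} (hne : y ≠ u.head hu) (hz : ∃ z, Zig (E u) z (u.head hu) ∧ Zig (E u) z y)
    (hr : ReflTransGen (E u) y (u.head hu)) :
    ∃ u', Sim f n 1 u u' ∧ u'.head? = some y ∧ u'.getLast? = u.getLast? := by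
  obtain ⟨x, s, rfl⟩ := List.exists_cons_of_ne_nil hu
  rw [List.head_cons] at hne hz hr
  obtain ⟨z, hz1, hz2⟩ := hz
  obtain ⟨x2, hx2⟩ := hz2.exists_left
  have hz3 : Zig (E (x :: s)) x2 x := Zig.trans' hz2 (Zig.base hx2) hz1
  have hr1 : ReflTransGen (E (x :: s)) x x2 := reach_head x s x2 (mem_of_mem_adj_left hx2)
  have hE : E (x :: s) x2 x := hM.closed hTA hCL hn (one_dvd _) hT hz3 hr1
  obtain ⟨a, ha⟩ := exists_wk' (hr.trans hr1) hx2
  obtain ⟨b, hb⟩ := exists_wk' hr1 hE
  obtain ⟨c, hc⟩ : ∃ c, c = b ++ x2 :: y :: a ++ [x2] := ⟨_, rfl⟩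
  have c1 : ∀ q ∈ adj (x :: c ++ [x]), q ∈ adj ([] ++ x :: s) := by
    have := Wk.comp hb (Wk.comp (a := []) (Wk.edge hx2) (Wk.comp (b := []) ha (Wk.edge hE)))
    rw [hc]
    simpa [Wk] using this
  obtain ⟨i1, i2, -⟩ := sim_ins_walk (f := f) (e := 1) hTA hn (one_dvd _) hT.toSchA [] x c s c1
  rw [List.nil_append, List.nil_append] at i1 i2
  obtain ⟨k, rfl⟩ : ∃ k, n = k + 1 := ⟨n - 1, by omega⟩
  obtain ⟨s', hs'⟩ : ∃ s', pow (x :: c) k ++ x :: s = x :: s' := ⟨_, pow_append_comm _ _ _ _⟩
  have hu1 : pow (x :: c) (k + 1) ++ x :: s = (x :: c) ++ x :: s' := by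
    rw [FB.pow_succ, List.append_assoc, hs']
  rw [hu1] at i1 i2
  have hval : FB.val f (pow (y :: (a ++ [x2])) (k + 1) ++ ((x :: c) ++ x :: s')) =
      FB.val f ((x :: c) ++ x :: s') := by
    have e1 : (x :: c) ++ x :: s' = ((x :: c) ++ [x]) ++ s' := by simp
    rw [e1, val_append, val_pow, val_append]
    have e3 : FB.val f (x :: c ++ [x]) =
        (f x : WithOne T) * FB.val f b * f x2 * f y * FB.val f a * f x2 * f x := by
      rw [hc]
      simp only [val_append, val_cons, val_nil, mul_one, one_mul, mul_assoc, List.cons_append,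
        List.append_assoc]
    have e4 : FB.val f (y :: (a ++ [x2])) = (f y : WithOne T) * FB.val f a * f x2 := by
      simp only [val_append, val_cons, val_nil, mul_one, mul_assoc]
    rw [e3, e4]
    have := hF (f x2) (f x) (f y) (FB.val f a) (FB.val f b)
    simp only [← mul_assoc] at this ⊢
    rw [← this]
  have hm := ha.mem
  have hsub : ∀ q, q ∈ adj (pow (y :: (a ++ [x2])) (k + 1) ++ ((x :: c) ++ x :: s')) →
      q ∈ adj ((x :: c) ++ x :: s') := by
    intro q hq
    have h1 : q ∈ adj ([] ++ x2 :: (pow (y :: (a ++ [x2])) (k + 1) ++ x :: (c ++ x :: s'))) := by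
      rw [List.nil_append]
      exact E_cons (a := q.1) (b := q.2) (by unfold E; simpa using hq)
    rw [adj_block] at h1
    rw [i2]
    rcases h1 with h | h | ⟨-, h⟩ | h | h | h
    · simp [adj] at h
    · rw [h]; exact hx2
    · exact closed_pairs ha hx2 q h
    · exact ha q h
    · rw [h]; exact hE
    · exact (i2 q).1 h
  refine ⟨pow (y :: (a ++ [x2])) (k + 1) ++ ((x :: c) ++ x :: s'), Sim.trans i1.1
    ⟨hval, fun z => ?_, fun z => ?_, fun z w => ?_, fun q => Nat.modEq_one⟩, ?_, ?_⟩
  · rw [List.mem_append, mem_pow]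
    constructor
    · rintro (⟨-, h⟩ | h)
      · rw [i1.1.mem]
        rcases List.mem_cons.1 h with rfl | h
        · exact hm.2.1
        · rcases List.mem_append.1 h with h | h
          · exact hm.1 z h
          · obtain rfl : z = x2 := by simpa using h
            exact hm.2.2
      · exact h
    · exact Or.inr
  · rw [List.count_append, count_pow, Nat.add_comm (_ * _)]
    exact modEq_add_mul_of_dvd dvd_rfl
  · refine zig_congr ?_ ?_ z w
    · exact fun z w h => Zig.base (hsub _ h)
    · intro z w h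
      apply Zig.base
      have e1 : pow (y :: (a ++ [x2])) (k + 1) ++ ((x :: c) ++ x :: s') =
        pow (y :: (a ++ [x2])) (k + 1) ++ x :: (c ++ x :: s') := by simp
      show (z, w) ∈ adj _
      rw [e1, adj_append_cons, List.mem_append]
      exact Or.inr h
  · rw [FB.pow_succ]; simp
  · rw [List.getLast?_append_of_ne_nil _ (by simp)]
    exact i1.2.2

include hTA hCL hn in
theorem last_change (hT : SchR n 1 T) (hL : SchL n T) {u : List ℕ} (hM : Maxl f n 1 u)
    (hu : u ≠ []) {y : ℕ} (hne : y ≠ u.getLast hu)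
    (hz : ∃ z, Zig (E u) (u.getLast hu) z ∧ Zig (E u) y z)
    (hr : ReflTransGen (E u) (u.getLast hu) y) :
    ∃ u', Sim f n 1 u u' ∧ u'.head? = u.head? ∧ u'.getLast? = some y := by
  obtain ⟨s, x, hsx⟩ : ∃ s x, u = s ++ [x] := ⟨u.dropLast, u.getLast hu,
    (List.dropLast_append_getLast hu).symm⟩
  have hx : u.getLast hu = x := by simp [hsx]
  rw [hx] at hne hz hr
  have hlast : ∀ z ∈ u, ReflTransGen (E u) z x := by rw [← hx]; exact reach_last u hu
  obtain ⟨z, hz1, hz2⟩ := hz
  obtain ⟨y2, hy2⟩ := hz2.exists_right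
  have hz3 : Zig (E u) x y2 := Zig.trans' hz2 hz1 (Zig.base hy2)
  have hr1 : ReflTransGen (E u) y2 x := hlast y2 (mem_of_mem_adj_right hy2)
  have hE : E u x y2 := hM.closed hTA hCL hn (one_dvd _) hT hz3 hr1
  obtain ⟨a, ha⟩ := exists_wk' (hr1.trans hr) hy2
  obtain ⟨b, hb⟩ := exists_wk' hr1 hE
  obtain ⟨c, hc⟩ : ∃ c, c = y2 :: a ++ y :: y2 :: b := ⟨_, rfl⟩
  have c1 : ∀ q ∈ adj (x :: c ++ [x]), q ∈ adj (s ++ x :: []) := by
    rw [← hsx]
    have := Wk.comp (a := []) (Wk.edge hE) (Wk.comp ha (Wk.comp (a := []) (Wk.edge hy2) hb))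
    rw [hc]
    simpa [Wk] using this
  obtain ⟨i1, i2, -⟩ := sim_ins_walk (f := f) (e := 1) hTA hn (one_dvd _) hT.toSchA s x c [] c1
  rw [← hsx] at i1 i2
  obtain ⟨k, rfl⟩ : ∃ k, n = k + 1 := ⟨n - 1, by omega⟩
  obtain ⟨A, hA⟩ : ∃ A, A = s ++ pow (x :: c) k := ⟨_, rfl⟩
  have hu1 : s ++ (pow (x :: c) (k + 1) ++ [x]) = A ++ ((x :: c) ++ [x]) := by
    rw [pow_succ', hA]; simp
  rw [hu1] at i1 i2
  have hval : FB.val f ((A ++ ((x :: c) ++ [x])) ++ pow (y2 :: (a ++ [y])) (k + 1)) =
      FB.val f (A ++ ((x :: c) ++ [x])) := by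
    rw [val_append, val_pow, val_append]
    have e3 : FB.val f (x :: c ++ [x]) =
        (f x : WithOne T) * f y2 * FB.val f a * f y * f y2 * FB.val f b * f x := by
      rw [hc]
      simp only [val_append, val_cons, val_nil, mul_one, mul_assoc, List.cons_append,
        List.append_assoc]
    have e4 : FB.val f (y2 :: (a ++ [y])) = (f y2 : WithOne T) * FB.val f a * f y := by
      simp only [val_append, val_cons, val_nil, mul_one, mul_assoc]
    rw [e3, e4]
    have := hL (f x) (f y2) (f y) (FB.val f a) (FB.val f b)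
    rw [mul_assoc (FB.val f A), ← this]
  have hm := ha.mem
  have hsub : ∀ q, q ∈ adj ((A ++ ((x :: c) ++ [x])) ++ pow (y2 :: (a ++ [y])) (k + 1)) →
      q ∈ adj (A ++ ((x :: c) ++ [x])) := by
    intro q hq
    have h1 : q ∈ adj ((A ++ (x :: c)) ++ x :: (pow (y2 :: (a ++ [y])) (k + 1) ++ y2 :: [])) := by
      have e1 : (A ++ (x :: c)) ++ x :: (pow (y2 :: (a ++ [y])) (k + 1) ++ y2 :: []) =
        ((A ++ ((x :: c) ++ [x])) ++ pow (y2 :: (a ++ [y])) (k + 1)) ++ y2 :: [] := by simp
      have e2 : (A ++ ((x :: c) ++ [x])) ++ pow (y2 :: (a ++ [y])) (k + 1) =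
        ((A ++ ((x :: c) ++ [x])) ++ (pow (y2 :: (a ++ [y])) k ++ (y2 :: a))) ++ [y] := by
        rw [pow_succ']; simp
      rw [e1]
      rw [e2] at hq ⊢
      have e3 : ((A ++ ((x :: c) ++ [x])) ++ (pow (y2 :: (a ++ [y])) k ++ (y2 :: a))) ++ [y] ++
        y2 :: [] = ((A ++ ((x :: c) ++ [x])) ++ (pow (y2 :: (a ++ [y])) k ++ (y2 :: a))) ++
          y :: [y2] := by simp
      rw [e3, adj_append_cons, List.mem_append]
      exact Or.inl hq
    rw [adj_block] at h1
    rw [i2]
    rcases h1 with h | h | ⟨-, h⟩ | h | h | h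
    · rw [← i2]
      have e1 : A ++ ((x :: c) ++ [x]) = (A ++ (x :: c)) ++ [x] := by simp
      rw [e1]; exact h
    · rw [h]; exact hE
    · exact closed_pairs ha hy2 q h
    · exact ha q h
    · rw [h]; exact hy2
    · simp [adj] at h
  refine ⟨(A ++ ((x :: c) ++ [x])) ++ pow (y2 :: (a ++ [y])) (k + 1), Sim.trans i1.1
    ⟨hval, fun z => ?_, fun z => ?_, fun z w => ?_, fun q => Nat.modEq_one⟩, ?_, ?_⟩
  · rw [List.mem_append, mem_pow]
    constructor
    · rintro (h | ⟨-, h⟩)
      · exact h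
      · rw [i1.1.mem]
        rcases List.mem_cons.1 h with rfl | h
        · exact hm.2.1
        · rcases List.mem_append.1 h with h | h
          · exact hm.1 z h
          · obtain rfl : z = y := by simpa using h
            exact hm.2.2
    · exact Or.inl
  · rw [List.count_append, count_pow]
    exact modEq_add_mul_of_dvd dvd_rfl
  · refine zig_congr ?_ ?_ z w
    · exact fun z w h => Zig.base (hsub _ h)
    · intro z w h
      apply Zig.base
      have e1 : (A ++ ((x :: c) ++ [x])) ++ pow (y2 :: (a ++ [y])) (k + 1) =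
        (A ++ (x :: c)) ++ x :: pow (y2 :: (a ++ [y])) (k + 1) := by simp
      have e2 : A ++ ((x :: c) ++ [x]) = (A ++ (x :: c)) ++ [x] := by simp
      show (z, w) ∈ adj _
      unfold E at h
      rw [e2] at h
      rw [e1, adj_append_cons, List.mem_append]
      exact Or.inl h
  · rw [← i1.2.1]
    cases A <;> simp
  · rw [pow_succ']
    have e1 : A ++ (x :: c ++ [x]) ++ (pow (y2 :: (a ++ [y])) k ++ y2 :: (a ++ [y])) =
      (A ++ (x :: c ++ [x]) ++ (pow (y2 :: (a ++ [y])) k ++ y2 :: a)) ++ [y] := by simp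
    rw [e1, List.getLast?_append_of_ne_nil _ (by simp)]
    rfl

end

/-- Theorem R -/
theorem tr (hTA : TAStmt) (hCL : CLStmt) : TRStmt := by
  classical
  intro n e hn he T _ hT f u v hu hv hfst hlst hmem hcnt hzig hadj
  have zcongr : ∀ {w w' : List ℕ}, (∀ x y, Zig (E w) x y ↔ Zig (E w') x y) →
      Zig (E w) = Zig (E w') := fun h => by funext x y; exact propext (h x y)
  -- adjust the first letter
  obtain ⟨u1, s1, hu1, l1⟩ : ∃ u1, Sim f n e u u1 ∧ u1.head? = v.head? ∧
      u1.getLast? = u.getLast? := by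
    by_cases hh : u.head hu = v.head hv
    · exact ⟨u, Sim.refl u, by
        rw [List.head?_eq_some_head hu, List.head?_eq_some_head hv, hh], rfl⟩
    · rcases hfst with h | ⟨he1, hF, x, hx1, hx2⟩
      · exact absurd h hh
      · subst he1
        obtain ⟨w, hw, hwM⟩ := exists_maxl (f := f) (n := n) (e := 1) u
        have hwne := hw.ne_nil hu
        have hwh : w.head hwne = u.head hu := by
          have := hw.2.1
          rw [List.head?_eq_some_head hu, List.head?_eq_some_head hwne] at this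
          exact Option.some.inj this
        have hzw := zcongr hw.1.zig
        obtain ⟨u', k1, k2, k3⟩ := first_change (f := f) hTA hCL hn hT hF hwM hwne
          (y := v.head hv) (by rw [hwh]; exact fun h => hh h.symm)
          ⟨x, by rw [hwh, hzw]; exact hx1, by rw [hzw]; exact hx2⟩ (by
            rw [hwM.reach_iff hTA hCL hn he hT, hzw, zcongr hzig, hwh]
            apply ReflTransGen.mono (fun _ _ h => Zig.base h)
            obtain ⟨y, t, rfl⟩ := List.exists_cons_of_ne_nil hv
            exact reach_head y t _ ((hmem _).1 (List.head_mem hu)))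
        exact ⟨u', hw.1.trans k1, by rw [k2, List.head?_eq_some_head hv], k3.trans hw.2.2⟩
  have hu1ne : u1 ≠ [] := by
    rintro rfl
    rw [List.head?_nil] at hu1
    exact hv (List.head?_eq_none_iff.1 hu1.symm)
  -- adjust the last letter
  obtain ⟨u2, s2, hu2, l2⟩ : ∃ u2, Sim f n e u u2 ∧ u2.head? = v.head? ∧
      u2.getLast? = v.getLast? := by
    by_cases hh : u.getLast hu = v.getLast hv
    · exact ⟨u1, s1, hu1, by
        rw [l1, List.getLast?_eq_getLast_of_ne_nil hu, List.getLast?_eq_getLast_of_ne_nil hv, hh]⟩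
    · rcases hlst with h | ⟨he1, hL, x, hx1, hx2⟩
      · exact absurd h hh
      · subst he1
        obtain ⟨w, hw, hwM⟩ := exists_maxl (f := f) (n := n) (e := 1) u1
        have hwne := hw.ne_nil hu1ne
        have hwh : w.getLast hwne = u.getLast hu := by
          have := hw.2.2.trans l1
          rw [List.getLast?_eq_getLast_of_ne_nil hu,
            List.getLast?_eq_getLast_of_ne_nil hwne] at this
          exact Option.some.inj this
        have hzw := zcongr (s1.trans hw.1).zig
        obtain ⟨u', k1, k2, k3⟩ := last_change (f := f) hTA hCL hn hT hL hwM hwne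
          (y := v.getLast hv) (by rw [hwh]; exact fun h => hh h.symm)
          ⟨x, by rw [hwh, hzw]; exact hx1, by rw [hzw]; exact hx2⟩ (by
            rw [hwM.reach_iff hTA hCL hn he hT, hzw, zcongr hzig, hwh]
            apply ReflTransGen.mono (fun _ _ h => Zig.base h)
            exact reach_last v hv _ ((hmem _).1 (List.getLast_mem hu)))
        exact ⟨u', (s1.trans hw.1).trans k1, by rw [k2, hw.2.1, hu1], by
          rw [k3, List.getLast?_eq_getLast_of_ne_nil hv]⟩
  -- same pairs
  obtain ⟨U, V, g1, g2, m1, m2, hp⟩ := exists_same_pairs (f := f) hTA hCL hn he hT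
    (u := u2) (v := v) (fun x y => (s2.zig x y).trans (hzig x y))
    (fun p => (s2.adj p).trans (hadj p))
  have hVne := g2.ne_nil hv
  have hu2ne : u2 ≠ [] := by
    rintro rfl
    rw [List.head?_nil] at hu2
    exact hv (List.head?_eq_none_iff.1 hu2.symm)
  have hUne := g1.ne_nil hu2ne
  have hfin : FB.val f U = FB.val f V := by
    refine adjust (f := f) hTA hCL hn he hT hVne m2 _ U hUne ?_ ?_ hp ?_ ?_ le_rfl
    · have := (g1.2.1.trans hu2).trans g2.2.1.symm
      rw [List.head?_eq_some_head hUne, List.head?_eq_some_head hVne] at this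
      exact Option.some.inj this
    · have := (g1.2.2.trans l2).trans g2.2.2.symm
      rw [List.getLast?_eq_getLast_of_ne_nil hUne, List.getLast?_eq_getLast_of_ne_nil hVne] at this
      exact Option.some.inj this
    · intro x
      exact ((g1.1.cnt x).trans (s2.cnt x)).trans ((hcnt x).trans (g2.1.cnt x).symm)
    · intro q
      exact ((g1.1.adj q).trans (s2.adj q)).trans ((hadj q).trans (g2.1.adj q).symm)
  rw [← s2.val, ← g1.1.val, hfin, g2.1.val]

end Pool.Agent.W435.FB
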