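import Pool.Agent.W435.FB.TR1

/-!
# Transfer of schemas; criteria for finite basability
-/

set_option autoImplicit false

namespace Pool.Agent.W435.FB

open Classical in
theorem prod_filter {M : Type} [Monoid M] (g : ℕ → M) (w : List ℕ) :
    ((w.filter fun i => g i ≠ 1).map g).prod = (w.map g).prod := by
  induction w with
  | nil => rfl
  | cons a w ih =>
    by_cases h : g a = 1
    · rw [List.filter_cons_of_neg (by simpa using h), ih, List.map_cons, List.prod_cons, h, one_mul]
    · rw [List.filter_cons_of_pos (by simpa using h), List.map_cons, List.prod_cons, ih,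
        List.map_cons, List.prod_cons]

open Classical in
theorem transfer_gen {S T : Type} [Semigroup S] [Semigroup T] {N : ℕ} (h : Small N S T)
    (u v : List ℕ) (D : ℕ → Prop) (hu : ∀ x ∈ u, x < N) (hv : ∀ x ∈ v, x < N)
    (lu : u.length ≤ N) (lv : v.length ≤ N) (Du : ∃ x ∈ u, D x) (Dv : ∃ x ∈ v, D x)
    (hS : ∀ g : ℕ → WithOne S, (∀ i, D i → g i ≠ 1) → (u.map g).prod = (v.map g).prod)
    (g : ℕ → WithOne T) (hg : ∀ i, D i → g i ≠ 1) : (u.map g).prod = (v.map g).prod := by
  obtain ⟨x0, hx0, hD0⟩ := Du
  obtain ⟨y0, hy0, hE0⟩ := Dv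
  obtain ⟨t0, ht0⟩ := WithOne.ne_one_iff_exists.1 (hg x0 hD0)
  -- representatives
  have hex : ∀ i, ∃ t : T, g i ≠ 1 → (t : WithOne T) = g i := by
    intro i
    by_cases hi : g i = 1
    · exact ⟨t0, fun h' => absurd hi h'⟩
    · obtain ⟨t, ht⟩ := WithOne.ne_one_iff_exists.1 hi
      exact ⟨t, fun _ => ht⟩
  choose g' hg' using hex
  have hval : ∀ w : List ℕ, (w.map g).prod = val g' (w.filter fun i => g i ≠ 1) := by
    intro w
    rw [← prod_filter g w]
    unfold val
    congr 1
    apply List.map_congr_left
    intro i hi
    have := (List.mem_filter.1 hi).2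
    exact (hg' i (by simpa using this)).symm
  rw [hval, hval]
  have hune : (u.filter fun i => g i ≠ 1) ≠ [] := by
    intro h'
    have : x0 ∈ u.filter fun i => g i ≠ 1 := List.mem_filter.2 ⟨hx0, by simpa using hg x0 hD0⟩
    rw [h'] at this
    simp at this
  have hvne : (v.filter fun i => g i ≠ 1) ≠ [] := by
    intro h'
    have : y0 ∈ v.filter fun i => g i ≠ 1 := List.mem_filter.2 ⟨hy0, by simpa using hg y0 hE0⟩
    rw [h'] at this
    simp at this
  obtain ⟨a, u', hu'⟩ := List.exists_cons_of_ne_nil hune
  obtain ⟨b, v', hv'⟩ := List.exists_cons_of_ne_nil hvne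
  have hsatS : Sat S (a, u') (b, v') := by
    rw [sat_iff_val]
    intro f
    show val f (a :: u') = val f (b :: v')
    rw [← hu', ← hv']
    have h1 := hS (fun i => if g i = 1 then 1 else (f i : WithOne S)) (by
      intro i hi
      rw [if_neg (hg i hi)]
      exact WithOne.coe_ne_one)
    have h2 : ∀ w : List ℕ, (w.map fun i => if g i = 1 then (1 : WithOne S) else (f i : WithOne S)).prod =
        val f (w.filter fun i => g i ≠ 1) := by
      intro w
      induction w with
      | nil => rfl
      | cons c w ih =>
        rw [List.filter_cons]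
        by_cases hc : g c = 1
        · simp [hc] at ih ⊢
          exact ih
        · simp only [List.map_cons, List.prod_cons, hc, if_false, ih]
          simp [val_cons, hc]
    rw [h2, h2] at h1
    exact h1
  have hsatT := h (a, u') (b, v') (fun x hx => hu x (List.mem_of_mem_filter (by rw [hu']; exact hx)))
    (fun x hx => hv x (List.mem_of_mem_filter (by rw [hv']; exact hx)))
    (by
      show (a :: u').length ≤ N
      rw [← hu']; exact (List.length_filter_le _ _).trans lu)
    (by
      show (b :: v').length ≤ N
      rw [← hv']; exact (List.length_filter_le _ _).trans lv) hsatS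
  rw [hu', hv']
  exact (sat_iff_val _ _).1 hsatT g'

theorem prod_map_pow {M : Type} [Monoid M] (g : ℕ → M) (l : List ℕ) (k : ℕ) :
    ((pow l k).map g).prod = ((l.map g).prod) ^ k := by
  induction k with
  | zero => simp
  | succ k ih => rw [pow_succ, List.map_append, List.prod_append, ih, _root_.pow_succ']

theorem length_pow (l : List ℕ) (k : ℕ) : (pow l k).length = k * l.length := by
  induction k with
  | zero => simp
  | succ k ih => rw [pow_succ, List.length_append, ih]; ring

theorem mem_pow' {l : List ℕ} {k a N : ℕ} (hl : ∀ b ∈ l, b < N) (h : a ∈ pow l k) : a < N :=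
  hl a (mem_pow.1 h).2

theorem transfer : TransferStmt := by
  intro n e
  refine ⟨10 + 10 * (n + 1) + 10 * (e + 1), fun S T _ _ h => ?_⟩
  have hA : SchA n S → SchA n T := by
    intro hS
    refine ⟨?_, ?_, ?_⟩
    · intro x a b
      have := transfer_gen h [0, 1, 0, 2, 0] [0, 2, 0, 1, 0] (fun i => i = 0)
        (by intro x hx; simp at hx; omega) (by intro x hx; simp at hx; omega)
        (by simp; omega) (by simp; omega) ⟨0, by simp, rfl⟩ ⟨0, by simp, rfl⟩
        (by
          intro g hg
          obtain ⟨x, hx⟩ := WithOne.ne_one_iff_exists.1 (hg 0 rfl)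
          have := hS.s1 x (g 1) (g 2)
          simpa [← hx, mul_assoc] using this)
        (fun i => [(x : WithOne T), a, b].getD i 1) (by rintro i rfl; simp)
      simpa [mul_assoc] using this
    · intro x y a b c
      have := transfer_gen h [0, 2, 1, 4, 0, 3, 1] [0, 3, 1, 4, 0, 2, 1] (fun i => i = 0 ∨ i = 1)
        (by intro x hx; simp at hx; omega) (by intro x hx; simp at hx; omega)
        (by simp; omega) (by simp; omega) ⟨0, by simp, Or.inl rfl⟩ ⟨0, by simp, Or.inl rfl⟩
        (by
          intro g hg
          obtain ⟨x, hx⟩ := WithOne.ne_one_iff_exists.1 (hg 0 (Or.inl rfl))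
          obtain ⟨y, hy⟩ := WithOne.ne_one_iff_exists.1 (hg 1 (Or.inr rfl))
          have := hS.s2 x y (g 2) (g 3) (g 4)
          simpa [← hx, ← hy, mul_assoc] using this)
        (fun i => [(x : WithOne T), y, a, b, c].getD i 1) (by rintro i (rfl | rfl) <;> simp)
      simpa [mul_assoc] using this
    · intro x a
      have := transfer_gen h [0, 1, 0] (pow [0, 1] (n + 1) ++ [0]) (fun i => i = 0)
        (by intro x hx; simp at hx; omega)
        (by
          intro x hx
          rcases List.mem_append.1 hx with hx | hx
          · exact mem_pow' (by intro b hb; simp at hb; omega) hx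
          · simp at hx; omega)
        (by simp; omega) (by simp [length_pow]; omega) ⟨0, by simp, rfl⟩ ⟨0, by simp, rfl⟩
        (by
          intro g hg
          obtain ⟨x, hx⟩ := WithOne.ne_one_iff_exists.1 (hg 0 rfl)
          have := hS.s3 x (g 1)
          simpa [← hx, mul_assoc, prod_map_pow] using this)
        (fun i => [(x : WithOne T), a].getD i 1) (by rintro i rfl; simp)
      simpa [mul_assoc, prod_map_pow] using this
  refine ⟨hA, ?_, ?_, ?_, ?_⟩
  · intro hS
    refine ⟨hA hS.toSchA, ?_, ?_, ?_, ?_⟩
    · intro x y z w a b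
      have := transfer_gen h [0, 1, 4, 0, 3, 5, 2, 3]
        ([0, 1, 4, 0, 3, 5, 2] ++ (pow [1, 4, 0, 3, 5, 2] n ++ [3])) (fun i => i < 4)
        (by intro x hx; simp at hx; omega)
        (by
          intro x hx
          rcases List.mem_append.1 hx with hx | hx
          · simp at hx; omega
          rcases List.mem_append.1 hx with hx | hx
          · exact mem_pow' (by intro b hb; simp at hb; omega) hx
          · simp at hx; omega)
        (by simp; omega) (by simp [length_pow]; omega) ⟨0, by simp, by simp⟩ ⟨0, by simp, by simp⟩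
        (by
          intro g hg
          obtain ⟨x, hx⟩ := WithOne.ne_one_iff_exists.1 (hg 0 (by simp))
          obtain ⟨y, hy⟩ := WithOne.ne_one_iff_exists.1 (hg 1 (by simp))
          obtain ⟨z, hz⟩ := WithOne.ne_one_iff_exists.1 (hg 2 (by simp))
          obtain ⟨w, hw⟩ := WithOne.ne_one_iff_exists.1 (hg 3 (by simp))
          have := hS.r1 x y z w (g 4) (g 5)
          simpa [← hx, ← hy, ← hz, ← hw, mul_assoc, prod_map_pow] using this)
        (fun i => [(x : WithOne T), y, z, w, a, b].getD i 1)
        (by intro i hi; interval_cases i <;> simp)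
      simpa [mul_assoc, prod_map_pow] using this
    · intro x y
      have := transfer_gen h ([0, 0, 1, 1] ++ pow [0, 1] (e + 1))
        ([0, 0, 1, 1] ++ (pow [0] (e + 1) ++ pow [1] (e + 1))) (fun i => i < 2)
        (by
          intro x hx
          rcases List.mem_append.1 hx with hx | hx
          · simp at hx; omega
          · exact mem_pow' (by intro b hb; simp at hb; omega) hx)
        (by
          intro x hx
          rcases List.mem_append.1 hx with hx | hx
          · simp at hx; omega
          rcases List.mem_append.1 hx with hx | hx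
          · exact mem_pow' (by intro b hb; simp at hb; omega) hx
          · exact mem_pow' (by intro b hb; simp at hb; omega) hx)
        (by simp [length_pow]; omega) (by simp [length_pow]; omega) ⟨0, by simp, by simp⟩
        ⟨0, by simp, by simp⟩
        (by
          intro g hg
          obtain ⟨x, hx⟩ := WithOne.ne_one_iff_exists.1 (hg 0 (by simp))
          obtain ⟨y, hy⟩ := WithOne.ne_one_iff_exists.1 (hg 1 (by simp))
          have := hS.m3 x y
          simpa [← hx, ← hy, mul_assoc, prod_map_pow, pow_two] using this)
        (fun i => [(x : WithOne T), y].getD i 1)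
        (by intro i hi; interval_cases i <;> simp)
      simpa [mul_assoc, prod_map_pow, pow_two] using this
    · intro he x y x' y1 a b
      have := transfer_gen h [0, 1, 4, 2, 1, 5, 0, 3]
        ([0, 1, 4, 2, 1, 5, 0] ++ (pow [1, 4, 2] n ++ [3])) (fun i => i < 4)
        (by intro x hx; simp at hx; omega)
        (by
          intro x hx
          rcases List.mem_append.1 hx with hx | hx
          · simp at hx; omega
          rcases List.mem_append.1 hx with hx | hx
          · exact mem_pow' (by intro b hb; simp at hb; omega) hx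
          · simp at hx; omega)
        (by simp; omega) (by simp [length_pow]; omega) ⟨0, by simp, by simp⟩ ⟨0, by simp, by simp⟩
        (by
          intro g hg
          obtain ⟨x, hx⟩ := WithOne.ne_one_iff_exists.1 (hg 0 (by simp))
          obtain ⟨y, hy⟩ := WithOne.ne_one_iff_exists.1 (hg 1 (by simp))
          obtain ⟨z, hz⟩ := WithOne.ne_one_iff_exists.1 (hg 2 (by simp))
          obtain ⟨w, hw⟩ := WithOne.ne_one_iff_exists.1 (hg 3 (by simp))
          have := hS.r2 he x y z w (g 4) (g 5)
          simpa [← hx, ← hy, ← hz, ← hw, mul_assoc, prod_map_pow] using this)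
        (fun i => [(x : WithOne T), y, x', y1, a, b].getD i 1)
        (by intro i hi; interval_cases i <;> simp)
      simpa [mul_assoc, prod_map_pow] using this
    · intro he x y y' x0 a b
      have := transfer_gen h [3, 1, 5, 0, 2, 4, 0, 1]
        ([3] ++ (pow [2, 4, 0] n ++ [1, 5, 0, 2, 4, 0, 1])) (fun i => i < 4)
        (by intro x hx; simp at hx; omega)
        (by
          intro x hx
          rcases List.mem_append.1 hx with hx | hx
          · simp at hx; omega
          rcases List.mem_append.1 hx with hx | hx
          · exact mem_pow' (by intro b hb; simp at hb; omega) hx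
          · simp at hx; omega)
        (by simp; omega) (by simp [length_pow]; omega) ⟨0, by simp, by simp⟩ ⟨0, by simp, by simp⟩
        (by
          intro g hg
          obtain ⟨x, hx⟩ := WithOne.ne_one_iff_exists.1 (hg 0 (by simp))
          obtain ⟨y, hy⟩ := WithOne.ne_one_iff_exists.1 (hg 1 (by simp))
          obtain ⟨z, hz⟩ := WithOne.ne_one_iff_exists.1 (hg 2 (by simp))
          obtain ⟨w, hw⟩ := WithOne.ne_one_iff_exists.1 (hg 3 (by simp))
          have := hS.r2' he x y z w (g 4) (g 5)
          simpa [← hx, ← hy, ← hz, ← hw, mul_assoc, prod_map_pow] using this)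
        (fun i => [(x : WithOne T), y, y', x0, a, b].getD i 1)
        (by intro i hi; interval_cases i <;> simp)
      simpa [mul_assoc, prod_map_pow] using this
  · intro hS x y y' a b
    have := transfer_gen h [1, 4, 0, 2, 3, 0, 1]
        (pow [2, 3, 0] n ++ [1, 4, 0, 2, 3, 0, 1]) (fun i => i < 3)
        (by intro x hx; simp at hx; omega)
        (by
          intro x hx
          rcases List.mem_append.1 hx with hx | hx
          · exact mem_pow' (by intro b hb; simp at hb; omega) hx
          · simp at hx; omega)
        (by simp; omega) (by simp [length_pow]; omega) ⟨0, by simp, by simp⟩ ⟨0, by simp, by simp⟩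
        (by
          intro g hg
          obtain ⟨x, hx⟩ := WithOne.ne_one_iff_exists.1 (hg 0 (by simp))
          obtain ⟨y, hy⟩ := WithOne.ne_one_iff_exists.1 (hg 1 (by simp))
          obtain ⟨z, hz⟩ := WithOne.ne_one_iff_exists.1 (hg 2 (by simp))
          have := hS x y z (g 3) (g 4)
          simpa [← hx, ← hy, ← hz, mul_assoc, prod_map_pow] using this)
        (fun i => [(x : WithOne T), y, y', a, b].getD i 1)
        (by intro i hi; interval_cases i <;> simp)
    simpa [mul_assoc, prod_map_pow] using this
  · intro hS x y x' a b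
    have := transfer_gen h [0, 1, 3, 2, 1, 4, 0]
        ([0, 1, 3, 2, 1, 4, 0] ++ pow [1, 3, 2] n) (fun i => i < 3)
        (by intro x hx; simp at hx; omega)
        (by
          intro x hx
          rcases List.mem_append.1 hx with hx | hx
          · simp at hx; omega
          · exact mem_pow' (by intro b hb; simp at hb; omega) hx)
        (by simp; omega) (by simp [length_pow]; omega) ⟨0, by simp, by simp⟩ ⟨0, by simp, by simp⟩
        (by
          intro g hg
          obtain ⟨x, hx⟩ := WithOne.ne_one_iff_exists.1 (hg 0 (by simp))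
          obtain ⟨y, hy⟩ := WithOne.ne_one_iff_exists.1 (hg 1 (by simp))
          obtain ⟨z, hz⟩ := WithOne.ne_one_iff_exists.1 (hg 2 (by simp))
          have := hS x y z (g 3) (g 4)
          simpa [← hx, ← hy, ← hz, mul_assoc, prod_map_pow] using this)
        (fun i => [(x : WithOne T), y, x', a, b].getD i 1)
        (by intro i hi; interval_cases i <;> simp)
    simpa [mul_assoc, prod_map_pow] using this
  · intro hS x
    have := transfer_gen h (pow [0] (n + 1)) [0] (fun i => i < 1)
        (by
          intro x hx
          exact mem_pow' (by intro b hb; simp at hb; omega) hx)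
        (by intro x hx; simp at hx; omega)
        (by simp [length_pow]; omega) (by simp; omega) ⟨0, by simp [mem_pow], by simp⟩ ⟨0, by simp, by simp⟩
        (by
          intro g hg
          obtain ⟨x, hx⟩ := WithOne.ne_one_iff_exists.1 (hg 0 (by simp))
          have := hS x
          simpa [← hx, mul_assoc, prod_map_pow] using this)
        (fun i => [(x : WithOne T)].getD i 1)
        (by intro i hi; interval_cases i; simp)
    simpa [mul_assoc, prod_map_pow] using this

theorem finite_words (N : ℕ) :
    {w : Wd | (∀ x ∈ w.1 :: w.2, x < N) ∧ (w.1 :: w.2).length ≤ N}.Finite := by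
  have h1 : {l : List (Fin N) | l.length ≤ N}.Finite := List.finite_length_le (Fin N) N
  have h2 : ({l : List ℕ | (∀ x ∈ l, x < N) ∧ l.length ≤ N}).Finite := by
    refine (h1.image (List.map Fin.val)).subset ?_
    rintro l ⟨hl1, hl2⟩
    refine ⟨l.pmap (fun x hx => (⟨x, hx⟩ : Fin N)) hl1, by simpa using hl2, ?_⟩
    rw [List.map_pmap]
    simp
  refine Set.Finite.of_finite_image (f := fun w : Wd => w.1 :: w.2) (h2.subset ?_) ?_
  · rintro _ ⟨w, hw, rfl⟩
    exact hw
  · rintro ⟨a, u⟩ _ ⟨b, v⟩ _ h
    simpa using h

theorem finBasedCrit : FinBasedCritStmt := by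
  classical
  intro S _
  constructor
  · rintro ⟨N, hN⟩
    have hfin := finite_words N
    have hfin2 : {p : Wd × Wd | (p.1 ∈ {w : Wd | (∀ x ∈ w.1 :: w.2, x < N) ∧ (w.1 :: w.2).length ≤ N} ∧
      p.2 ∈ {w : Wd | (∀ x ∈ w.1 :: w.2, x < N) ∧ (w.1 :: w.2).length ≤ N}) ∧
      Sat S p.1 p.2}.Finite := by
      refine (hfin.prod hfin).subset ?_
      rintro p ⟨⟨h1, h2⟩, -⟩
      exact ⟨h1, h2⟩
    refine ⟨hfin2.toFinset, ?_, ?_⟩
    · intro p hp
      rw [Set.Finite.mem_toFinset] at hp
      exact hp.2
    · intro u v huv T _ hT
      apply hN T _ u v huv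
      intro u' v' h1 h2 h3 h4 h5
      exact hT (u', v') (by
        rw [Set.Finite.mem_toFinset]
        exact ⟨⟨⟨h1, h3⟩, ⟨h2, h4⟩⟩, h5⟩)
  · rintro h ⟨B, hB1, hB2⟩
    -- a bound on the letters
    obtain ⟨N, hN⟩ : ∃ N, ∀ p ∈ B, (∀ x ∈ p.1.1 :: p.1.2, x < N) ∧ ∀ x ∈ p.2.1 :: p.2.2, x < N := by
      refine ⟨B.sup (fun p => (p.1.1 :: p.1.2).sum + (p.2.1 :: p.2.2).sum) + 1, ?_⟩
      intro p hp
      have h1 : (p.1.1 :: p.1.2).sum + (p.2.1 :: p.2.2).sum ≤
          B.sup (fun p => (p.1.1 :: p.1.2).sum + (p.2.1 :: p.2.2).sum) :=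
        Finset.le_sup (f := fun p : Wd × Wd => (p.1.1 :: p.1.2).sum + (p.2.1 :: p.2.2).sum) hp
      constructor
      · intro x hx
        have h2 := List.single_le_sum (fun y _ => Nat.zero_le y) x hx
        omega
      · intro x hx
        have h2 := List.single_le_sum (fun y _ => Nat.zero_le y) x hx
        omega
    obtain ⟨T, _, h1, u, v, h2, h3⟩ := h N
    apply h3
    exact hB2 u v h2 T (fun p hp => h1 p.1 p.2 (hN p hp).1 (hN p hp).2 (hB1 p hp))

end Pool.Agent.W435.FB
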