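import Pool.Agent.W435.FB.Defs

/-!
# Basic lemmas on words, values and evaluation in Rees matrix semigroups
-/

set_option autoImplicit false

namespace Pool.Agent.W435.FB

section words

theorem adj_nil : adj [] = [] := rfl

theorem adj_singleton (x : ℕ) : adj [x] = [] := rfl

theorem adj_cons_cons (x y : ℕ) (w : List ℕ) : adj (x :: y :: w) = (x, y) :: adj (y :: w) := rfl

/-- splitting at a letter -/
theorem adj_append_cons (p : List ℕ) (x : ℕ) (s : List ℕ) :
    adj (p ++ x :: s) = adj (p ++ [x]) ++ adj (x :: s) := by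
  induction p with
  | nil => simp [adj]
  | cons a p ih =>
    cases p with
    | nil => simp [adj_cons_cons, adj_singleton]
    | cons b p =>
      simp only [List.cons_append, adj_cons_cons] at ih ⊢
      rw [ih]

theorem mem_of_mem_adj_left {w : List ℕ} {x y : ℕ} (h : (x, y) ∈ adj w) : x ∈ w :=
  (List.of_mem_zip h).1

theorem mem_of_mem_adj_right {w : List ℕ} {x y : ℕ} (h : (x, y) ∈ adj w) : y ∈ w :=
  List.mem_of_mem_tail (List.of_mem_zip h).2

theorem getLast_cons_cons (x y : ℕ) (w : List ℕ) :
    (x :: y :: w).getLast (List.cons_ne_nil _ _) = (y :: w).getLast (List.cons_ne_nil _ _) := by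
  simp

end words

section values
variable {T : Type} [Semigroup T]

theorem val_nil (f : ℕ → T) : val f [] = 1 := rfl

theorem val_cons (f : ℕ → T) (x : ℕ) (w : List ℕ) : val f (x :: w) = (f x : WithOne T) * val f w := by
  simp [val]

theorem val_append (f : ℕ → T) (u v : List ℕ) : val f (u ++ v) = val f u * val f v := by
  simp [val]

theorem foldl_mul_coe (f : ℕ → T) (w : List ℕ) (a : T) :
    ((w.foldl (fun a y => a * f y) a : T) : WithOne T) = (a : WithOne T) * val f w := by
  induction w generalizing a with
  | nil => simp [val_nil]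
  | cons y w ih => rw [List.foldl_cons, ih, val_cons, WithOne.coe_mul, mul_assoc]

theorem coe_ev (f : ℕ → T) (w : Wd) : ((ev f w : T) : WithOne T) = val f (w.1 :: w.2) := by
  rw [val_cons]; exact foldl_mul_coe f w.2 (f w.1)

theorem sat_iff_val (u v : Wd) : Sat T u v ↔ ∀ f : ℕ → T, val f (u.1 :: u.2) = val f (v.1 :: v.2) := by
  unfold Sat
  refine forall_congr' fun f => ?_
  rw [← coe_ev, ← coe_ev]
  exact (WithOne.coe_inj).symm

theorem ev_single (f : ℕ → T) (x : ℕ) : ev f (x, []) = f x := rfl

theorem ev_cons (f : ℕ → T) (x y : ℕ) (w : List ℕ) : ev f (x, y :: w) = f x * ev f (y, w) := by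
  have : ((ev f (x, y :: w) : T) : WithOne T) = ((f x * ev f (y, w) : T) : WithOne T) := by
    rw [WithOne.coe_mul, coe_ev, coe_ev, val_cons]
  exact WithOne.coe_inj.mp this

end values

section arm
variable {A I L : Type} [AddCommGroup A] {P : L → I → Option A}

/-- the value of a word in a Rees matrix semigroup is zero as soon as a letter is zero -/
theorem ev_arm_zero_letter (f : ℕ → ARM A I L P) (w : List ℕ) (x z : ℕ) (hz : z ∈ x :: w)
    (h : f z = ARM.zero) : ev f (x, w) = ARM.zero := by
  induction w generalizing x with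
  | nil =>
    obtain rfl : z = x := by simpa using hz
    exact h
  | cons y w ih =>
    rw [ev_cons]
    rcases List.mem_cons.1 hz with rfl | hz
    · rw [h]; exact ARM.zero_mul' _
    · rw [ih y hz]; exact ARM.mul_zero' _

/-- the value of a word all of whose adjacent products are nonzero -/
theorem ev_arm_el (i : ℕ → I) (g : ℕ → A) (l : ℕ → L) (p : ℕ → ℕ → A) (w : List ℕ) (x : ℕ)
    (h : ∀ a b, (a, b) ∈ adj (x :: w) → P (l a) (i b) = some (p a b)) :
    ev (fun a => (ARM.el (i a) (g a) (l a) : ARM A I L P)) (x, w) =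
      ARM.el (i x) (((x :: w).map g).sum + ((adj (x :: w)).map fun q => p q.1 q.2).sum)
        (l ((x :: w).getLast (List.cons_ne_nil _ _))) := by
  induction w generalizing x with
  | nil => simp [ev_single, adj_singleton]
  | cons y w ih =>
    rw [ev_cons, ih y (fun a b hab => h a b (by rw [adj_cons_cons]; exact List.mem_cons_of_mem _ hab)),
      ARM.el_mul_el (h x y (by rw [adj_cons_cons]; exact List.mem_cons_self)), getLast_cons_cons,
      adj_cons_cons]
    simp only [List.map_cons, List.sum_cons]
    congr 1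
    abel

/-- the value of a word with some adjacent product zero -/
theorem ev_arm_none (i : ℕ → I) (g : ℕ → A) (l : ℕ → L) (w : List ℕ) (x : ℕ)
    (h : ∃ a b, (a, b) ∈ adj (x :: w) ∧ P (l a) (i b) = none) :
    ev (fun a => (ARM.el (i a) (g a) (l a) : ARM A I L P)) (x, w) = ARM.zero := by
  classical
  induction w generalizing x with
  | nil =>
    obtain ⟨a, b, hab, -⟩ := h
    simp [adj_singleton] at hab
  | cons y w ih =>
    rw [ev_cons]
    by_cases h' : ∃ a b, (a, b) ∈ adj (y :: w) ∧ P (l a) (i b) = none
    · rw [ih y h']; exact ARM.mul_zero' _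
    · push Not at h'
      have hsome : ∀ a b, (a, b) ∈ adj (y :: w) → P (l a) (i b) = some ((P (l a) (i b)).getD 0) := by
        intro a b hab
        have := h' a b hab
        rcases h1 : P (l a) (i b) with _ | c
        · exact absurd h1 this
        · rfl
      rw [ev_arm_el i g l (fun a b => (P (l a) (i b)).getD 0) w y hsome]
      obtain ⟨a, b, hab, hn⟩ := h
      rw [adj_cons_cons] at hab
      rcases List.mem_cons.1 hab with h1 | h1
      · obtain ⟨rfl, rfl⟩ := Prod.mk.inj h1
        exact ARM.el_mul_el_none hn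
      · exact absurd hn (h' a b h1)

end arm

/-- an action of the cyclic group of order `q` all of whose point stabilisers are trivial admits
an equivariant map to `ZMod q` -/
theorem exists_equivariant {X : Type} {q : ℕ} (hq : 0 < q) (τ : X → X) (h : ∀ x, τ^[q] x = x)
    (hf : ∀ x j, τ^[j] x = x → q ∣ j) : ∃ η : X → ZMod q, ∀ x, η (τ x) = η x + 1 := by
  classical
  have : NeZero q := ⟨hq.ne'⟩
  let r : Setoid X :=
    { r := fun x y => ∃ j, τ^[j] x = y
      iseqv := by
        refine ⟨fun x => ⟨0, rfl⟩, ?_, ?_⟩
        · rintro x y ⟨j, rfl⟩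
          refine ⟨(q - 1) * j, ?_⟩
          rw [← Function.iterate_add_apply]
          have : (q - 1) * j + j = q * j := by
            obtain ⟨k, rfl⟩ : ∃ k, q = k + 1 := ⟨q - 1, by omega⟩
            simp; ring
          rw [this, Function.iterate_mul]
          have hid : ∀ n, (τ^[q])^[n] x = x := by
            intro n
            induction n with
            | zero => rfl
            | succ n ih => rw [Function.iterate_succ_apply', ih, h]
          exact hid j
        · rintro x y z ⟨j, rfl⟩ ⟨k, rfl⟩
          exact ⟨k + j, by rw [Function.iterate_add_apply]⟩ }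
  have hrep : ∀ x : X, ∃ j, τ^[j] (Quotient.out (Quotient.mk r x)) = x := fun x =>
    Quotient.exact (Quotient.out_eq (Quotient.mk r x))
  choose k hk using hrep
  refine ⟨fun x => (k x : ZMod q), fun x => ?_⟩
  have he : Quotient.mk r (τ x) = Quotient.mk r x := by
    apply Quotient.sound
    refine ⟨q - 1, ?_⟩
    rw [← Function.iterate_succ_apply, Nat.succ_eq_add_one, Nat.sub_add_cancel hq, h]
  have h1 := hk (τ x)
  rw [he] at h1
  have h2 : τ^[k x + 1] (Quotient.out (Quotient.mk r x)) = τ x := by
    rw [Function.iterate_succ_apply', hk x]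
  -- both `k (τ x)` and `k x + 1` bring the representative to `τ x`
  set a := Quotient.out (Quotient.mk r x) with ha
  have key : ∀ m n : ℕ, m ≤ n → τ^[m] a = τ^[n] a → ((m : ZMod q) = n) := by
    intro m n hmn he
    obtain ⟨d, rfl⟩ := Nat.exists_eq_add_of_le hmn
    have h3 : τ^[d] (τ^[m] a) = τ^[m] a := by
      rw [← Function.iterate_add_apply, Nat.add_comm d m, he]
    have h4 := hf _ _ h3
    rw [Nat.cast_add, (ZMod.natCast_eq_zero_iff d q).2 h4, add_zero]
  have h5 : τ^[k (τ x)] a = τ^[k x + 1] a := by rw [h1, h2]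
  have h6 : ((k (τ x) : ℕ) : ZMod q) = ((k x + 1 : ℕ) : ZMod q) := by
    rcases Nat.le_total (k (τ x)) (k x + 1) with h7 | h7
    · exact key _ _ h7 h5
    · exact (key _ _ h7 h5.symm).symm
  show ((k (τ x) : ℕ) : ZMod q) = ((k x : ℕ) : ZMod q) + 1
  rw [h6]; push_cast; rfl

end Pool.Agent.W435.FB
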