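import Pool.Agent.W435.FB.Base

/-!
# The criterion in terms of the semigroup
-/

set_option autoImplicit false

namespace Pool.Agent.W435.FB

section
variable {A I L : Type} [AddCommGroup A] {P : L → I → Option A}

theorem pw_el {i : I} {l : L} {p : A} (hp : P l i = some p) (g : A) (k : ℕ) :
    pw (ARM.el i g l : ARM A I L P) k = ARM.el i (g + k • (p + g)) l := by
  induction k with
  | zero => simp [pw]
  | succ k ih =>
    show pw (ARM.el i g l : ARM A I L P) k * ARM.el i g l = _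
    rw [ih, ARM.el_mul_el hp]
    congr 1
    rw [succ_nsmul]; abel

theorem el_mul_ne {i j : I} {g h : A} {l m : L} :
    (ARM.el i g l : ARM A I L P) * ARM.el j h m ≠ ARM.zero ↔ (P l j).isSome := by
  rcases hp : P l j with _ | p
  · rw [ARM.el_mul_el_none hp]; simp
  · rw [ARM.el_mul_el hp]; simp

theorem ne_zero_left {x y : ARM A I L P} (h : x * y ≠ ARM.zero) : ∃ i g l, x = ARM.el i g l := by
  rcases x with _ | ⟨i, g, l⟩
  · exact absurd (ARM.zero_mul' y) h
  · exact ⟨i, g, l, rfl⟩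

theorem ne_zero_right {x y : ARM A I L P} (h : x * y ≠ ARM.zero) : ∃ i g l, y = ARM.el i g l := by
  rcases y with _ | ⟨i, g, l⟩
  · exact absurd (ARM.mul_zero' x) h
  · exact ⟨i, g, l, rfl⟩

end

theorem critS : CritSStmt := by
  classical
  intro A I L _ _ _ _ _ P hP
  unfold CritS Crit
  refine or_congr ?_ ?_
  · constructor
    · intro h l l' i i' h1 h2 h3
      have := h (ARM.el i 0 l) (ARM.el i 0 l) (ARM.el i 0 l') (ARM.el i' 0 l) (el_mul_ne.2 h1)
        (el_mul_ne.2 h2) (el_mul_ne.2 h3)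
      exact el_mul_ne.1 this
    · intro h x y x' y' h1 h2 h3
      obtain ⟨i1, g1, l1, rfl⟩ := ne_zero_left h1
      obtain ⟨i2, g2, l2, rfl⟩ := ne_zero_right h1
      obtain ⟨i3, g3, l3, rfl⟩ := ne_zero_left h3
      obtain ⟨i4, g4, l4, rfl⟩ := ne_zero_right h2
      rw [el_mul_ne] at *
      exact h l1 l3 i2 i4 h1 h2 h3
  · -- the two parts for a given exponent
    have hA : ∀ k : ℕ, (∀ x x' y y' w : ARM A I L P, w * x ≠ ARM.zero → w * x' ≠ ARM.zero →
        y * w ≠ ARM.zero → y' * w ≠ ARM.zero → x * y ≠ ARM.zero → x' * y ≠ ARM.zero →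
        x * y' ≠ ARM.zero → x' * y' ≠ ARM.zero →
        w * pw (x * y * w * x' * y' * w) k = w * pw (x' * y * w * x * y' * w) k) ↔
        ∀ c ∈ Cyc4 P, (k + 1) • c = 0 := by
      intro k
      have calc1 : ∀ (i1 i2 i3 i4 i5 : I) (g1 g2 g3 g4 g5 : A) (l1 l2 l3 l4 l5 : L)
          (a1 a2 a3 a4 a5 a6 a7 a8 : A), P l5 i1 = some a1 → P l1 i2 = some a2 →
          P l2 i5 = some a3 → P l5 i3 = some a4 → P l3 i4 = some a5 → P l4 i5 = some a6 →
          (ARM.el i5 g5 l5 : ARM A I L P) * pw (ARM.el i1 g1 l1 * ARM.el i2 g2 l2 *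
            ARM.el i5 g5 l5 * ARM.el i3 g3 l3 * ARM.el i4 g4 l4 * ARM.el i5 g5 l5) k =
          ARM.el i5 (g5 + (k + 1) • (a1 + g1 + a2 + g2 + a3 + g5 + a4 + g3 + a5 + g4 + a6 + g5))
            l5 := by
        intro i1 i2 i3 i4 i5 g1 g2 g3 g4 g5 l1 l2 l3 l4 l5 a1 a2 a3 a4 a5 a6 _ _ h1 h2 h3 h4 h5 h6
        rw [ARM.el_mul_el h2, ARM.el_mul_el h3, ARM.el_mul_el h4, ARM.el_mul_el h5,
          ARM.el_mul_el h6, pw_el h1, ARM.el_mul_el h1]
        congr 1
        rw [succ_nsmul]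
        simp only [smul_add]
        abel
      constructor
      · rintro h c ⟨l, m, i, j, a, b, c', d, e1, e2, e3, e4, rfl⟩
        have h1 := h (ARM.el i 0 l) (ARM.el i 0 m) (ARM.el i 0 m) (ARM.el j 0 m) (ARM.el i 0 l)
          (el_mul_ne.2 (by rw [e1]; rfl)) (el_mul_ne.2 (by rw [e1]; rfl))
          (el_mul_ne.2 (by rw [e2]; rfl)) (el_mul_ne.2 (by rw [e2]; rfl))
          (el_mul_ne.2 (by rw [e1]; rfl)) (el_mul_ne.2 (by rw [e2]; rfl))
          (el_mul_ne.2 (by rw [e4]; rfl)) (el_mul_ne.2 (by rw [e3]; rfl))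
        rw [calc1 i i i j i 0 0 0 0 0 l m m m l a a b a c' b 0 0 e1 e1 e2 e1 e3 e2,
          calc1 i i i j i 0 0 0 0 0 m m l m l a b b a d b 0 0 e1 e2 e2 e1 e4 e2] at h1
        injection h1 with _ h2 _
        have h3 : (k + 1) • (a - b + c' - d) = (k + 1) • (a + 0 + a + 0 + b + 0 + a + 0 + c' + 0 + b + 0) -
            (k + 1) • (a + 0 + b + 0 + b + 0 + a + 0 + d + 0 + b + 0) := by
          rw [← smul_sub]; congr 1; abel
        rw [h3, add_left_cancel h2, sub_self]
      · intro h x x' y y' w h1 h2 h3 h4 h5 h6 h7 h8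
        obtain ⟨i5, g5, l5, rfl⟩ := ne_zero_left h1
        obtain ⟨i1, g1, l1, rfl⟩ := ne_zero_right h1
        obtain ⟨i3, g3, l3, rfl⟩ := ne_zero_right h2
        obtain ⟨i2, g2, l2, rfl⟩ := ne_zero_left h3
        obtain ⟨i4, g4, l4, rfl⟩ := ne_zero_left h4
        rw [el_mul_ne] at h1 h2 h3 h4 h5 h6 h7 h8
        obtain ⟨a1, h1⟩ := Option.isSome_iff_exists.1 h1
        obtain ⟨a2, h2⟩ := Option.isSome_iff_exists.1 h2
        obtain ⟨a3, h3⟩ := Option.isSome_iff_exists.1 h3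
        obtain ⟨a4, h4⟩ := Option.isSome_iff_exists.1 h4
        obtain ⟨a5, h5⟩ := Option.isSome_iff_exists.1 h5
        obtain ⟨a6, h6⟩ := Option.isSome_iff_exists.1 h6
        obtain ⟨a7, h7⟩ := Option.isSome_iff_exists.1 h7
        obtain ⟨a8, h8⟩ := Option.isSome_iff_exists.1 h8
        rw [calc1 i1 i2 i3 i4 i5 g1 g2 g3 g4 g5 l1 l2 l3 l4 l5 a1 a5 a3 a2 a8 a4 0 0 h1 h5 h3 h2 h8 h4,
          calc1 i3 i2 i1 i4 i5 g3 g2 g1 g4 g5 l3 l2 l1 l4 l5 a2 a6 a3 a1 a7 a4 0 0 h2 h6 h3 h1 h7 h4]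
        have hc := h _ ⟨l1, l3, i2, i4, a5, a6, a8, a7, h5, h6, h8, h7, rfl⟩
        congr 1
        have h9 : (k + 1) • (a1 + g1 + a5 + g2 + a3 + g5 + a2 + g3 + a8 + g4 + a4 + g5) =
            (k + 1) • (a2 + g3 + a6 + g2 + a3 + g5 + a1 + g1 + a7 + g4 + a4 + g5) +
            (k + 1) • (a5 - a6 + a8 - a7) := by
          rw [← smul_add]; congr 1; abel
        rw [h9, hc, add_zero]
    have hB : ∀ k : ℕ, (∀ x : ARM A I L P, x * x ≠ ARM.zero → pw x (k + 1) = x) ↔
        ∀ a : A, (k + 1) • a = 0 := by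
      intro k
      constructor
      · intro h a
        obtain ⟨i⟩ := ‹Nonempty I›
        obtain ⟨l, hl⟩ := hP.2 i
        obtain ⟨p, hp⟩ := Option.isSome_iff_exists.1 hl
        have h1 := h (ARM.el i (a - p) l) (el_mul_ne.2 hl)
        rw [pw_el hp] at h1
        injection h1 with _ h2 _
        have h3 : (k + 1) • (p + (a - p)) = 0 := add_eq_left.1 h2
        rw [← h3]; congr 1; abel
      · intro h x hx
        obtain ⟨i, g, l, rfl⟩ := ne_zero_left hx
        rw [el_mul_ne] at hx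
        obtain ⟨p, hp⟩ := Option.isSome_iff_exists.1 hx
        rw [pw_el hp, h, add_zero]
    constructor
    · intro h k hk a
      -- reduce modulo the exponent
      have hfin : AddMonoid.exponent A ≠ 0 := AddMonoid.exponent_ne_zero_of_finite
      have hcard : AddMonoid.exponent A ≤ Nat.card (ARM A I L P) := by
        have h1 : AddMonoid.exponent A ∣ Nat.card A := AddGroup.exponent_dvd_nat_card
        have h2 : AddMonoid.exponent A ≤ Nat.card A := Nat.le_of_dvd Nat.card_pos h1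
        refine h2.trans ?_
        obtain ⟨i⟩ := ‹Nonempty I›
        obtain ⟨l, hl⟩ := hP.2 i
        exact Nat.card_le_card_of_injective (fun a : A => (ARM.el i a l : ARM A I L P))
          (fun a b hab => by injection hab)
      have hmod : ∀ a : A, k • a = (k % AddMonoid.exponent A) • a := by
        intro a
        conv_lhs => rw [← Nat.div_add_mod k (AddMonoid.exponent A)]
        rw [add_smul, mul_comm, mul_smul, AddMonoid.exponent_nsmul_eq_zero, smul_zero, zero_add]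
      rcases Nat.eq_zero_or_pos (k % AddMonoid.exponent A) with h0 | h0
      · rw [hmod, h0, zero_smul]
      · have hlt : k % AddMonoid.exponent A < AddMonoid.exponent A :=
          Nat.mod_lt _ (Nat.pos_of_ne_zero hfin)
        obtain ⟨j, hj⟩ : ∃ j, k % AddMonoid.exponent A = j + 1 := ⟨_, (Nat.sub_add_cancel h0).symm⟩
        have h1 := h j (by omega) ((hA j).2 (fun c hc => by rw [← hj, ← hmod]; exact hk c hc))
        have h2 := (hB j).1 h1 a
        rw [hmod, hj, h2]
    · intro h k _ h1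
      exact (hB k).2 (h (k + 1) ((hA k).1 h1))

end Pool.Agent.W435.FB
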