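import Pool.Agent.W435.FB.TR1

/-!
# Theorem R, part 2: similarity of words, closure of the set of adjacent pairs
-/

set_option autoImplicit false

namespace Pool.Agent.W435.FB

open Relation

section
variable {T : Type} [Semigroup T]

/-- `u'` has the same value as `u` and the same data (first and last letters not compared) -/
structure Sim (f : ℕ → T) (n e : ℕ) (u u' : List ℕ) : Prop where
  val : val f u' = val f u
  mem : ∀ x, x ∈ u' ↔ x ∈ u
  cnt : ∀ x, u'.count x ≡ u.count x [MOD n]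
  zig : ∀ x y, Zig (E u') x y ↔ Zig (E u) x y
  adj : ∀ p, (adj u').count p ≡ (adj u).count p [MOD e]

variable {f : ℕ → T} {n e : ℕ}

theorem Sim.refl (u : List ℕ) : Sim f n e u u :=
  ⟨rfl, fun _ => Iff.rfl, fun _ => rfl, fun _ _ => Iff.rfl, fun _ => rfl⟩

theorem Sim.trans {u v w : List ℕ} (h1 : Sim f n e u v) (h2 : Sim f n e v w) : Sim f n e u w :=
  ⟨h2.val.trans h1.val, fun x => (h2.mem x).trans (h1.mem x), fun x => (h2.cnt x).trans (h1.cnt x),
    fun x y => (h2.zig x y).trans (h1.zig x y), fun p => (h2.adj p).trans (h1.adj p)⟩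

/-- similarity including the first and the last letter -/
def Sim' (f : ℕ → T) (n e : ℕ) (u u' : List ℕ) : Prop :=
  Sim f n e u u' ∧ u'.head? = u.head? ∧ u'.getLast? = u.getLast?

theorem Sim'.refl (u : List ℕ) : Sim' f n e u u := ⟨Sim.refl u, rfl, rfl⟩

theorem Sim'.trans {u v w : List ℕ} (h1 : Sim' f n e u v) (h2 : Sim' f n e v w) : Sim' f n e u w :=
  ⟨h1.1.trans h2.1, h2.2.1.trans h1.2.1, h2.2.2.trans h1.2.2⟩

theorem Sim'.ne_nil {u v : List ℕ} (h : Sim' f n e u v) (hu : u ≠ []) : v ≠ [] := by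
  rintro rfl
  have h2 := h.2.1
  rw [List.head?_nil] at h2
  exact hu (List.head?_eq_none_iff.1 h2.symm)

theorem modEq_add_mul_of_dvd {a k e n : ℕ} (h : e ∣ n) : a + n * k ≡ a [MOD e] := by
  have : n * k ≡ 0 [MOD e] := (Nat.modEq_zero_iff_dvd).2 (Dvd.dvd.mul_right h k)
  simpa using Nat.ModEq.add_left a this

/-- insertion of `n` copies of a closed walk, if it does not change the value -/
theorem sim_ins (hn : 0 < n) (he : e ∣ n) (p : List ℕ) (x : ℕ) (c s : List ℕ)
    (hc : ∀ b ∈ c, b ∈ p ++ x :: s)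
    (hz : ∀ q ∈ adj (x :: c ++ [x]), Zig (E (p ++ x :: s)) q.1 q.2)
    (hv : FB.val f (p ++ (pow (x :: c) n ++ x :: s)) = FB.val f (p ++ x :: s)) :
    Sim' f n e (p ++ x :: s) (p ++ (pow (x :: c) n ++ x :: s)) := by
  refine ⟨⟨hv, fun a => mem_ins hc, fun a => ?_, fun a b => ?_, fun q => ?_⟩,
    head?_ins _ _ _ _ _, getLast?_ins _ _ _ _ _⟩
  · rw [count_ins]; exact modEq_add_mul_of_dvd dvd_rfl
  · refine zig_congr ?_ ?_ a b
    · intro a b hab
      rcases (adj_ins_mem hn).1 hab with h | h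
      · exact Zig.base h
      · exact hz _ h
    · intro a b hab
      exact Zig.base ((adj_ins_mem hn).2 (Or.inl hab))
  · rw [adj_ins_count]; exact modEq_add_mul_of_dvd he

/-- insertion of `n` copies of a closed walk along existing pairs -/
theorem sim_ins_walk (hTA : TAStmt) (hn : 0 < n) (he : e ∣ n) (hT : SchA n T) (p : List ℕ) (x : ℕ)
    (c s : List ℕ) (hc : ∀ q ∈ adj (x :: c ++ [x]), q ∈ adj (p ++ x :: s)) :
    Sim' f n e (p ++ x :: s) (p ++ (pow (x :: c) n ++ x :: s)) ∧
      (∀ q, q ∈ adj (p ++ (pow (x :: c) n ++ x :: s)) ↔ q ∈ adj (p ++ x :: s)) ∧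
      (∀ q, (adj (p ++ (pow (x :: c) n ++ x :: s))).count q ≡ (adj (p ++ x :: s)).count q [MOD n]) := by
  have h1 : ∀ q, q ∈ adj (p ++ (pow (x :: c) n ++ x :: s)) ↔ q ∈ adj (p ++ x :: s) := by
    intro q
    rw [adj_ins_mem hn]
    exact ⟨fun h => h.elim id (hc q), Or.inl⟩
  have h2 : ∀ q, (adj (p ++ (pow (x :: c) n ++ x :: s))).count q ≡
      (adj (p ++ x :: s)).count q [MOD n] := by
    intro q
    rw [adj_ins_count]; exact modEq_add_mul_of_dvd dvd_rfl
  have hW : Wk (p ++ x :: s) x c x := hc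
  refine ⟨sim_ins hn he p x c s hW.mem.1 (fun q hq => Zig.base (hc q hq)) ?_, h1, h2⟩
  exact hTA n hn T hT f _ _ (by simp) (by simp) (head?_ins _ _ _ _ _) (getLast?_ins _ _ _ _ _) h1 h2

/-- the number of different pairs -/
def nE (u : List ℕ) : ℕ := (FB.adj u).toFinset.card

/-- maximality of the set of pairs -/
def Maxl (f : ℕ → T) (n e : ℕ) (u : List ℕ) : Prop := ∀ u', Sim' f n e u u' → nE u' ≤ nE u

theorem nE_le (u : List ℕ) : nE u ≤ u.toFinset.card * u.toFinset.card := by
  unfold nE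
  rw [← Finset.card_product]
  apply Finset.card_le_card
  rintro ⟨a, b⟩ h
  rw [List.mem_toFinset] at h
  rw [Finset.mem_product, List.mem_toFinset, List.mem_toFinset]
  exact ⟨mem_of_mem_adj_left h, mem_of_mem_adj_right h⟩

theorem exists_maxl (u : List ℕ) : ∃ u', Sim' f n e u u' ∧ Maxl f n e u' := by
  classical
  have hbd : ∀ u', Sim' f n e u u' → nE u' ≤ u.toFinset.card * u.toFinset.card := by
    intro u' h
    have : u'.toFinset = u.toFinset := by
      ext x; rw [List.mem_toFinset, List.mem_toFinset]; exact h.1.mem x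
    rw [← this]; exact nE_le u'
  have hex : ∃ k, ∃ u', Sim' f n e u u' ∧ nE u' + k = u.toFinset.card * u.toFinset.card := by
    exact ⟨_, u, Sim'.refl u, Nat.add_sub_of_le (nE_le u)⟩
  obtain ⟨u', h1, h2⟩ := Nat.find_spec hex
  refine ⟨u', h1, fun w hw => ?_⟩
  by_contra hlt
  push Not at hlt
  have h3 := hbd w (h1.trans hw)
  have h4 : ∃ u', Sim' f n e u u' ∧ nE u' + (u.toFinset.card * u.toFinset.card - nE w) =
      u.toFinset.card * u.toFinset.card := ⟨w, h1.trans hw, Nat.add_sub_of_le h3⟩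
  have h5 := Nat.find_min' hex h4
  omega

theorem Maxl.mem_of_sim {u u' : List ℕ} (h : Maxl f n e u) (hs : Sim' f n e u u')
    (hsub : ∀ q, q ∈ FB.adj u → q ∈ FB.adj u') : ∀ q, q ∈ FB.adj u' → q ∈ FB.adj u := by
  classical
  have h1 := h u' hs
  have h2 : (FB.adj u).toFinset ⊆ (FB.adj u').toFinset := by
    intro q hq
    rw [List.mem_toFinset] at hq ⊢
    exact hsub q hq
  have h3 := Finset.eq_of_subset_of_card_le h2 h1
  intro q hq
  rw [← List.mem_toFinset, h3, List.mem_toFinset]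
  exact hq

theorem Maxl.of_sim {u u' : List ℕ} (h : Maxl f n e u) (hs : Sim' f n e u u')
    (hle : nE u ≤ nE u') : Maxl f n e u' := fun w hw =>
  (h w (hs.trans hw)).trans hle

variable (hTA : TAStmt) (hCL : CLStmt) (hn : 0 < n) (he : e ∣ n) (hT : SchR n e T)

theorem val_cons_append (f : ℕ → T) (x : ℕ) (a b : List ℕ) :
    FB.val f (x :: a ++ b) = (f x : WithOne T) * FB.val f a * FB.val f b := by
  rw [val_append, val_cons]

include hTA hn he hT in
/-- the set of pairs of a maximal word is closed under the rule `r1` -/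
theorem Maxl.r1 {u : List ℕ} (h : Maxl f n e u) (x y w z : ℕ) (h1 : E u x y) (h2 : E u x w)
    (h3 : E u z w) (h4 : ReflTransGen (E u) y x) (h5 : ReflTransGen (E u) w z) : E u z y := by
  obtain ⟨a, ha⟩ := exists_wk' h4 h1
  obtain ⟨b, hb⟩ := exists_wk' h5 h3
  obtain ⟨p, s, hu⟩ := split_adj h2
  obtain ⟨k, rfl⟩ : ∃ k, n = k + 1 := ⟨n - 1, by omega⟩
  -- first insertion
  have c1 : ∀ q ∈ FB.adj (x :: (y :: a) ++ [x]), q ∈ FB.adj (p ++ x :: (w :: s)) := by
    rw [← hu]
    exact (Wk.comp (a := []) (Wk.edge h1) ha)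
  obtain ⟨i1, i2, -⟩ := sim_ins_walk (f := f) (e := e) hTA hn he hT.toSchA p x (y :: a) (w :: s) c1
  rw [← hu] at i1 i2
  set u1 := p ++ (pow (x :: (y :: a)) (k + 1) ++ x :: (w :: s)) with hu1
  have hu1' : u1 = (p ++ (pow (x :: y :: a) (k + 1) ++ [x])) ++ w :: s := by
    rw [hu1]; simp
  -- second insertion
  have c2 : ∀ q ∈ FB.adj (w :: (b ++ [z]) ++ [w]),
      q ∈ FB.adj ((p ++ (pow (x :: y :: a) (k + 1) ++ [x])) ++ w :: s) := by
    rw [← hu1']
    intro q hq
    rw [i2]
    have : w :: (b ++ [z]) ++ [w] = w :: (b ++ z :: []) ++ [w] := rfl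
    rw [this] at hq
    exact (Wk.comp hb (Wk.edge h3)) q hq
  obtain ⟨j1, j2, -⟩ := sim_ins_walk (f := f) (e := e) hTA hn he hT.toSchA
    (p ++ (pow (x :: y :: a) (k + 1) ++ [x])) w (b ++ [z]) s c2
  rw [← hu1'] at j1 j2
  set u2 := (p ++ (pow (x :: y :: a) (k + 1) ++ [x])) ++ (pow (w :: (b ++ [z])) (k + 1) ++ w :: s)
    with hu2
  -- the tail of the power of the second loop, with the rest, begins with `w`
  obtain ⟨s', hs'⟩ : ∃ s', pow (w :: (b ++ [z])) k ++ w :: s = w :: s' :=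
    ⟨_, pow_append_comm w (b ++ [z]) s k⟩
  obtain ⟨P, hP⟩ : ∃ P, P = p ++ pow (x :: y :: a) k := ⟨_, rfl⟩
  have hu2' : u2 = (P ++ (x :: y :: a ++ x :: w :: b)) ++ z :: (w :: s') := by
    have h6 : pow (w :: (b ++ [z])) (k + 1) ++ w :: s = (w :: (b ++ [z])) ++ (w :: s') := by
      rw [pow_succ, List.append_assoc, hs']
    rw [hu2, h6, pow_succ' (x :: y :: a), hP]
    simp
  -- third insertion, by the schema
  set u3 := (P ++ (x :: y :: a ++ x :: w :: b)) ++
    (pow (z :: (y :: a ++ x :: w :: b)) (k + 1) ++ z :: (w :: s')) with hu3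
  have hval : FB.val f u3 = FB.val f ((P ++ (x :: y :: a ++ x :: w :: b)) ++ z :: (w :: s')) := by
    have e1 : u3 = P ++ ((x :: y :: a ++ x :: w :: b ++ [z]) ++
        (pow ((y :: a ++ x :: w :: b) ++ [z]) (k + 1) ++ w :: s')) := by
      rw [hu3, pow_append_comm]
      simp
    have e2 : (P ++ (x :: y :: a ++ x :: w :: b)) ++ z :: (w :: s') =
        P ++ ((x :: y :: a ++ x :: w :: b ++ [z]) ++ w :: s') := by simp
    rw [e1, e2, val_append f P, val_append f (x :: y :: a ++ x :: w :: b ++ [z]),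
      val_append f (pow _ _), val_pow, val_append f P,
      val_append f (x :: y :: a ++ x :: w :: b ++ [z]), val_cons f w]
    have := hT.r1 (f x) (f y) (f z) (f w) (FB.val f a) (FB.val f b)
    have e3 : FB.val f (x :: y :: a ++ x :: w :: b ++ [z]) =
        (f x : WithOne T) * f y * FB.val f a * f x * f w * FB.val f b * f z := by
      simp only [val_append, val_cons, val_nil, mul_one, mul_assoc, List.cons_append]
    have e4 : FB.val f (y :: a ++ x :: w :: b ++ [z]) =
        (f y : WithOne T) * FB.val f a * f x * f w * FB.val f b * f z := by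
      simp only [val_append, val_cons, val_nil, mul_one, mul_assoc, List.cons_append]
    rw [e3, e4]
    congr 1
    rw [← mul_assoc, ← mul_assoc, ← mul_assoc, ← this]
  have hz : ∀ q ∈ FB.adj (z :: (y :: a ++ x :: w :: b) ++ [z]),
      q = (z, y) ∨ q ∈ FB.adj u := by
    intro q hq
    have e1 : z :: (y :: a ++ x :: w :: b) ++ [z] = z :: y :: (a ++ x :: (w :: b) ++ [z]) := by simp
    rw [e1, adj_cons_cons] at hq
    rcases List.mem_cons.1 hq with hq | hq
    · exact Or.inl hq
    · right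
      have h6 := Wk.comp ha (Wk.comp (Wk.edge h2) hb)
      exact h6 q (by simpa using hq)
  have hzy : Zig (E u) z y := Zig.step h3 h2 (Zig.base h1)
  have hmem := (Wk.comp ha (Wk.comp (Wk.edge h2) hb)).mem
  have i2' : ∀ q, q ∈ FB.adj u2 ↔ q ∈ FB.adj u := fun q => (j2 q).trans (i2 q)
  have hs3 : Sim' f (k + 1) e u2 u3 := by
    rw [hu2', hu3]
    refine sim_ins hn he _ z _ _ ?_ ?_ ?_
    · intro c hc
      rw [← hu2', j1.1.mem, i1.1.mem]
      rcases List.mem_cons.1 hc with rfl | hc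
      · exact hmem.2.1
      · exact hmem.1 c (by simpa using hc)
    · intro q hq
      rw [← hu2']
      rcases hz q hq with rfl | hq
      · exact (j1.1.zig _ _).2 ((i1.1.zig _ _).2 hzy)
      · exact Zig.base ((i2' q).2 hq)
    · rw [← hu3]; exact hval
  have hfin : Sim' f (k + 1) e u u3 := (i1.trans j1).trans hs3
  have hsub : ∀ q, q ∈ FB.adj u → q ∈ FB.adj u3 := by
    intro q hq
    rw [hu3, adj_ins_mem hn, ← hu2', i2']
    exact Or.inl hq
  apply h.mem_of_sim hfin hsub
  rw [hu3, adj_ins_mem hn]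
  right
  show (z, y) ∈ FB.adj (z :: (y :: a ++ x :: w :: b) ++ [z])
  have e1 : z :: (y :: a ++ x :: w :: b) ++ [z] = z :: y :: (a ++ x :: (w :: b) ++ [z]) := by simp
  rw [e1, adj_cons_cons]
  exact List.mem_cons_self

include hTA hCL hn he hT in
/-- closure property of maximal words -/
theorem Maxl.closed {u : List ℕ} (h : Maxl f n e u) {x y : ℕ} (h1 : Zig (E u) x y)
    (h2 : ReflTransGen (E u) y x) : E u x y :=
  hCL (E u) (word_T u) (fun x y w z a b c d e' => h.r1 hTA hn he hT x y w z a b c d e') x y h1 h2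

include hTA hCL hn he hT in
theorem Maxl.reach_zig {u : List ℕ} (h : Maxl f n e u) {a b : ℕ} (h1 : Zig (E u) a b) :
    ReflTransGen (E u) a b := by
  obtain ⟨b0, hb0⟩ := h1.exists_right
  obtain ⟨a0, ha0⟩ := h1.exists_left
  by_cases hE : E u a b
  · exact ReflTransGen.single hE
  · have hne : (a, b0) ≠ (a0, b) := by
      intro h2
      obtain ⟨rfl, rfl⟩ := Prod.mk.inj h2
      exact hE hb0
    rcases word_T u a b0 a0 b hb0 ha0 hne with h2 | h2
    · exact (ReflTransGen.head hb0 h2).trans (ReflTransGen.single ha0)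
    · exact absurd (h.closed hTA hCL hn he hT h1 h2) hE

include hTA hCL hn he hT in
theorem Maxl.reach_iff {u : List ℕ} (h : Maxl f n e u) {a b : ℕ} :
    ReflTransGen (E u) a b ↔ ReflTransGen (Zig (E u)) a b := by
  constructor
  · exact fun h1 => ReflTransGen.mono (fun _ _ h2 => Zig.base h2) _ _ h1
  · intro h1
    induction h1 with
    | refl => exact ReflTransGen.refl
    | tail _ h2 ih => exact ih.trans (h.reach_zig hTA hCL hn he hT h2)

end

end Pool.Agent.W435.FB
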