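import Pool.Agent.W435.FB.TR2

/-!
# Theorem R, part 3: similar maximal words have the same pairs
-/

set_option autoImplicit false

namespace Pool.Agent.W435.FB

open Relation

section
variable {T : Type} [Semigroup T] {f : ℕ → T} {n e : ℕ}

/-- pairs of a word with an inserted power of a block (not closed at the place of insertion) -/
theorem adj_block (A B : List ℕ) (x y y2 x2 : ℕ) (a : List ℕ) (k : ℕ) (q : ℕ × ℕ) :
    q ∈ adj (A ++ x :: (pow (y2 :: (a ++ [x2])) (k + 1) ++ y :: B)) ↔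
      q ∈ adj (A ++ [x]) ∨ q = (x, y2) ∨ (0 < k ∧ q ∈ adj (y2 :: (a ++ [x2]) ++ [y2])) ∨
        q ∈ adj (y2 :: a ++ [x2]) ∨ q = (x2, y) ∨ q ∈ adj (y :: B) := by
  have h1 : pow (y2 :: (a ++ [x2])) (k + 1) ++ y :: B =
      pow (y2 :: (a ++ [x2])) k ++ y2 :: (a ++ x2 :: y :: B) := by
    rw [pow_succ']; simp
  obtain ⟨t, ht⟩ : ∃ t, pow (y2 :: (a ++ [x2])) k ++ y2 :: (a ++ x2 :: y :: B) = y2 :: t :=
    ⟨_, pow_append_comm _ _ _ _⟩
  have h2 : q ∈ adj (y2 :: t) ↔ (0 < k ∧ q ∈ adj (y2 :: (a ++ [x2]) ++ [y2])) ∨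
      q ∈ adj (y2 :: (a ++ x2 :: y :: B)) := by
    rw [← ht, ← List.count_pos_iff, adj_pow_append, ← List.count_pos_iff, ← List.count_pos_iff]
    constructor
    · intro h
      by_contra h'
      push Not at h'
      obtain ⟨h3, h4⟩ := h'
      rcases Nat.eq_zero_or_pos k with rfl | hk
      · omega
      · have := h3 hk
        have h5 : List.count q (adj (y2 :: (a ++ [x2]) ++ [y2])) = 0 := Nat.le_zero.1 this
        rw [h5] at h
        omega
    · rintro (⟨h3, h4⟩ | h3)
      · have := Nat.mul_pos h3 h4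
        omega
      · omega
  have h3 : q ∈ adj (y2 :: (a ++ x2 :: y :: B)) ↔ q ∈ adj (y2 :: a ++ [x2]) ∨ q = (x2, y) ∨
      q ∈ adj (y :: B) := by
    have : y2 :: (a ++ x2 :: y :: B) = (y2 :: a) ++ x2 :: (y :: B) := by simp
    rw [this, adj_append_cons, List.mem_append, adj_cons_cons, List.mem_cons]
  rw [h1, ht, adj_append_cons, List.mem_append, adj_cons_cons, List.mem_cons, h2, h3]

theorem adj_split2 (A B : List ℕ) (x y : ℕ) (q : ℕ × ℕ) :
    q ∈ adj (A ++ x :: y :: B) ↔ q ∈ adj (A ++ [x]) ∨ q = (x, y) ∨ q ∈ adj (y :: B) := by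
  rw [adj_append_cons, List.mem_append, adj_cons_cons, List.mem_cons]

/-- insertion of a power of a block, `e = 1` -/
theorem sim_block (hn : 0 < n) (A B : List ℕ) (x y y2 x2 : ℕ) (a : List ℕ)
    (hW : Wk (A ++ x :: y :: B) y2 a x2) (hE : E (A ++ x :: y :: B) x2 y2)
    (h1 : Zig (E (A ++ x :: y :: B)) x y2)
    (hv : FB.val f (A ++ x :: (pow (y2 :: (a ++ [x2])) n ++ y :: B)) =
      FB.val f (A ++ x :: y :: B)) :
    Sim' f n 1 (A ++ x :: y :: B) (A ++ x :: (pow (y2 :: (a ++ [x2])) n ++ y :: B)) := by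
  obtain ⟨k, rfl⟩ : ∃ k, n = k + 1 := ⟨n - 1, by omega⟩
  have hxy : E (A ++ x :: y :: B) x y := (adj_split2 A B x y _).2 (Or.inr (Or.inl rfl))
  have hm := hW.mem
  have hsub : ∀ q, q ∈ adj (A ++ x :: (pow (y2 :: (a ++ [x2])) (k + 1) ++ y :: B)) →
      q ∈ adj (A ++ x :: y :: B) ∨ q = (x, y2) ∨ q = (x2, y) := by
    intro q hq
    rw [adj_block] at hq
    rcases hq with h | h | ⟨-, h⟩ | h | h | h
    · exact Or.inl ((adj_split2 A B x y _).2 (Or.inl h))
    · exact Or.inr (Or.inl h)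
    · left
      have e1 : y2 :: (a ++ [x2]) ++ [y2] = (y2 :: a) ++ x2 :: [y2] := by simp
      rw [e1, adj_append_cons, List.mem_append] at h
      rcases h with h | h
      · exact hW q h
      · simp [adj] at h; rw [h]; exact hE
    · exact Or.inl (hW q h)
    · exact Or.inr (Or.inr h)
    · exact Or.inl ((adj_split2 A B x y _).2 (Or.inr (Or.inr h)))
  refine ⟨⟨hv, fun z => ?_, fun z => ?_, fun z w => ?_, fun q => Nat.modEq_one⟩, ?_, ?_⟩
  · simp only [List.mem_append, List.mem_cons, mem_pow]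
    constructor
    · rintro (h | h | ⟨-, h | h | h⟩ | h | h)
      · exact Or.inl h
      · exact Or.inr (Or.inl h)
      · rw [h]; simpa using hm.2.1
      · have := hm.1 z h; simpa using this
      · have h' : z = x2 := by simpa using h
        rw [h']; simpa using hm.2.2
      · exact Or.inr (Or.inr (Or.inl h))
      · exact Or.inr (Or.inr (Or.inr h))
    · rintro (h | h | h | h)
      · exact Or.inl h
      · exact Or.inr (Or.inl h)
      · exact Or.inr (Or.inr (Or.inr (Or.inl h)))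
      · exact Or.inr (Or.inr (Or.inr (Or.inr h)))
  · have : (A ++ x :: (pow (y2 :: (a ++ [x2])) (k + 1) ++ y :: B)).count z =
        (A ++ x :: y :: B).count z + (k + 1) * (y2 :: (a ++ [x2])).count z := by
      simp only [List.count_append, List.count_cons, count_pow]
      ring
    rw [this]
    exact modEq_add_mul_of_dvd dvd_rfl
  · refine zig_congr ?_ ?_ z w
    · intro z w hzw
      rcases hsub _ hzw with h | h | h
      · exact Zig.base h
      · obtain ⟨rfl, rfl⟩ := Prod.mk.inj h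
        exact h1
      · obtain ⟨rfl, rfl⟩ := Prod.mk.inj h
        -- `(x2, y)`: `x2 - y2 ~ x - y`
        exact Zig.trans' h1 (Zig.base hE) (Zig.base hxy)
    · intro z w hzw
      have hmem : ∀ q, (q ∈ adj (A ++ [x]) ∨ q = (x, y2) ∨
          (0 < k ∧ q ∈ adj (y2 :: (a ++ [x2]) ++ [y2])) ∨
          q ∈ adj (y2 :: a ++ [x2]) ∨ q = (x2, y) ∨ q ∈ adj (y :: B)) →
          E (A ++ x :: (pow (y2 :: (a ++ [x2])) (k + 1) ++ y :: B)) q.1 q.2 := fun q hq =>
        (adj_block A B x y y2 x2 a k _).2 hq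
      rcases (adj_split2 A B x y _).1 hzw with h | h | h
      · exact Zig.base (hmem (z, w) (Or.inl h))
      · obtain ⟨rfl, rfl⟩ := Prod.mk.inj h
        have k1 := hmem (z, y2) (Or.inr (Or.inl rfl))
        have k2 := hmem (x2, w) (Or.inr (Or.inr (Or.inr (Or.inr (Or.inl rfl)))))
        by_cases h5 : (x2, y2) = (z, w)
        · obtain ⟨rfl, rfl⟩ := Prod.mk.inj h5
          exact Zig.base k1
        · refine Zig.step k1 ?_ (Zig.base k2)
          rcases (adj_split2 A B z w _).1 hE with h6 | h6 | h6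
          · exact hmem (x2, y2) (Or.inl h6)
          · exact absurd h6 h5
          · exact hmem (x2, y2) (Or.inr (Or.inr (Or.inr (Or.inr (Or.inr h6)))))
      · exact Zig.base (hmem (z, w) (Or.inr (Or.inr (Or.inr (Or.inr (Or.inr h))))))
  · cases A <;> simp
  · rw [List.getLast?_append_of_ne_nil _ (List.cons_ne_nil _ _),
      List.getLast?_append_of_ne_nil _ (List.cons_ne_nil _ _)]
    rw [List.getLast?_cons_cons]
    have : x :: (pow (y2 :: (a ++ [x2])) (k + 1) ++ y :: B) =
        (x :: pow (y2 :: (a ++ [x2])) (k + 1)) ++ y :: B := by simp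
    rw [this, List.getLast?_append_of_ne_nil _ (List.cons_ne_nil _ _)]

variable (hTA : TAStmt) (hCL : CLStmt) (hn : 0 < n) (he : e ∣ n) (hT : SchR n e T)

/-- comparison of numbers of pairs when one pair is replaced by a new one -/
theorem nE_replace {v v' : List ℕ} {r r' : ℕ × ℕ}
    (h1 : ∀ q, q ∈ adj v → q ≠ r → q ∈ adj v') (h2 : r' ∈ adj v') (h3 : r' ∉ adj v) :
    nE v ≤ nE v' := by
  classical
  unfold nE
  have hsub : insert r' ((adj v).toFinset.erase r) ⊆ (adj v').toFinset := by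
    intro q hq
    rw [List.mem_toFinset]
    rcases Finset.mem_insert.1 hq with rfl | hq
    · exact h2
    · rw [Finset.mem_erase, List.mem_toFinset] at hq
      exact h1 q hq.2 hq.1
  have hni : r' ∉ (adj v).toFinset.erase r := by
    rw [Finset.mem_erase, List.mem_toFinset]
    exact fun h => h3 h.2
  have := Finset.card_le_card hsub
  rw [Finset.card_insert_of_notMem hni] at this
  have h4 := Finset.pred_card_le_card_erase (s := (adj v).toFinset) (a := r)
  omega

include hTA hn in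
/-- conversion of a pair `(x', y)` into `(x, y)` -/
theorem conv2 (hT : SchR n 1 T) {v : List ℕ} {x x' y y2 : ℕ} (h1 : E v x' y2) (h2 : E v x y2)
    (h3 : E v x' y) (h4 : ReflTransGen (E v) y2 x) (h5 : ReflTransGen (E v) y2 x') :
    ∃ v', Sim' f n 1 v v' ∧ (∀ q, q ∈ adj v → q ≠ (x', y) → q ∈ adj v') ∧ (x, y) ∈ adj v' := by
  obtain ⟨a, ha⟩ := exists_wk' h4 h2
  obtain ⟨b, hb⟩ := exists_wk' h5 h1
  obtain ⟨p, s, hv⟩ := split_adj h3
  -- insertion of the closed walk `x' y2 a x y2 b` at `x'`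
  obtain ⟨c, hc⟩ : ∃ c, c = y2 :: a ++ x :: y2 :: b := ⟨_, rfl⟩
  have c1 : ∀ q ∈ adj (x' :: c ++ [x']), q ∈ adj (p ++ x' :: (y :: s)) := by
    rw [← hv]
    have := Wk.comp (a := []) (Wk.edge h1) (Wk.comp ha (Wk.comp (a := []) (Wk.edge h2) hb))
    rw [hc]
    simpa [Wk] using this
  obtain ⟨i1, i2, -⟩ := sim_ins_walk (f := f) (e := 1) hTA hn (one_dvd _) hT.toSchA p x' c
    (y :: s) c1
  rw [← hv] at i1 i2
  obtain ⟨k, rfl⟩ : ∃ k, n = k + 1 := ⟨n - 1, by omega⟩
  obtain ⟨P, hP⟩ : ∃ P, P = p ++ pow (x' :: c) k := ⟨_, rfl⟩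
  have hv1 : p ++ (pow (x' :: c) (k + 1) ++ x' :: (y :: s)) = (P ++ x' :: c) ++ x' :: y :: s := by
    rw [pow_succ', hP]; simp
  rw [hv1] at i1 i2
  have j1 := sim_block (f := f) (n := k + 1) hn (P ++ x' :: c) s x' y y2 x a
    (fun q hq => (i2 q).2 (ha q hq)) ((i2 _).2 h2) (Zig.base ((i2 _).2 h1)) (by
      have e1 : (P ++ x' :: c) ++ x' :: (pow (y2 :: (a ++ [x])) (k + 1) ++ y :: s) =
          P ++ ((x' :: c ++ [x']) ++ (pow (y2 :: (a ++ [x])) (k + 1) ++ y :: s)) := by simp
      have e2 : (P ++ x' :: c) ++ x' :: y :: s = P ++ ((x' :: c ++ [x']) ++ y :: s) := by simp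
      rw [e1, e2, val_append f P, val_append f (x' :: c ++ [x']), val_append f (pow _ _), val_pow,
        val_append f P, val_append f (x' :: c ++ [x']), val_cons f y]
      have e3 : FB.val f (x' :: c ++ [x']) =
          (f x' : WithOne T) * f y2 * FB.val f a * f x * f y2 * FB.val f b * f x' := by
        rw [hc]
        simp only [val_append, val_cons, val_nil, mul_one, mul_assoc, List.cons_append]
      have e4 : FB.val f (y2 :: (a ++ [x])) = (f y2 : WithOne T) * FB.val f a * f x := by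
        simp only [val_append, val_cons, val_nil, mul_one, mul_assoc]
      rw [e3, e4]
      congr 1
      have := hT.r2 rfl (f x') (f y2) (f x) (f y) (FB.val f a) (FB.val f b)
      simp only [← mul_assoc] at this ⊢
      rw [this])
  refine ⟨_, i1.trans j1, ?_, ?_⟩
  · intro q hq hne
    rw [adj_block]
    rcases (adj_split2 _ _ _ _ _).1 ((i2 q).2 hq) with h | h | h
    · exact Or.inl h
    · exact absurd h hne
    · exact Or.inr (Or.inr (Or.inr (Or.inr (Or.inr h))))
  · rw [adj_block]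
    exact Or.inr (Or.inr (Or.inr (Or.inr (Or.inl rfl))))

include hTA hn in
/-- conversion of a pair `(x, y1)` into `(x, y)` -/
theorem conv2' (hT : SchR n 1 T) {v : List ℕ} {x x2 y y1 : ℕ} (h1 : E v x2 y1) (h2 : E v x2 y)
    (h3 : E v x y1) (h4 : ReflTransGen (E v) y1 x2) (h5 : ReflTransGen (E v) y x2) :
    ∃ v', Sim' f n 1 v v' ∧ (∀ q, q ∈ adj v → q ≠ (x, y1) → q ∈ adj v') ∧ (x, y) ∈ adj v' := by
  obtain ⟨a, ha⟩ := exists_wk' h5 h2
  obtain ⟨b, hb⟩ := exists_wk' h4 h1
  obtain ⟨p, s, hv⟩ := split_adj h3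
  -- insertion of the closed walk `y1 b x2 y a x2` at `y1`
  obtain ⟨c, hc⟩ : ∃ c, c = b ++ x2 :: y :: a ++ [x2] := ⟨_, rfl⟩
  have hv' : v = (p ++ [x]) ++ y1 :: s := by rw [hv]; simp
  have c1 : ∀ q ∈ adj (y1 :: c ++ [y1]), q ∈ adj ((p ++ [x]) ++ y1 :: s) := by
    rw [← hv']
    have := Wk.comp hb (Wk.comp (a := []) (Wk.edge h2) (Wk.comp (b := []) ha (Wk.edge h1)))
    rw [hc]
    simpa [Wk] using this
  obtain ⟨i1, i2, -⟩ := sim_ins_walk (f := f) (e := 1) hTA hn (one_dvd _) hT.toSchA (p ++ [x]) y1 c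
    s c1
  rw [← hv'] at i1 i2
  obtain ⟨k, rfl⟩ : ∃ k, n = k + 1 := ⟨n - 1, by omega⟩
  obtain ⟨s', hs'⟩ : ∃ s', pow (y1 :: c) k ++ y1 :: s = y1 :: s' := ⟨_, pow_append_comm _ _ _ _⟩
  have hv1 : (p ++ [x]) ++ (pow (y1 :: c) (k + 1) ++ y1 :: s) = p ++ x :: y1 :: (c ++ y1 :: s') := by
    have h6 : pow (y1 :: c) (k + 1) ++ y1 :: s = (y1 :: c) ++ (y1 :: s') := by
      rw [FB.pow_succ, List.append_assoc, hs']
    rw [h6]; simp
  rw [hv1] at i1 i2
  have j1 := sim_block (f := f) (n := k + 1) hn p (c ++ y1 :: s') x y1 y x2 a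
    (fun q hq => (i2 q).2 (ha q hq)) ((i2 _).2 h2)
    (Zig.step ((i2 _).2 h3) ((i2 _).2 h1) (Zig.base ((i2 _).2 h2))) (by
      have e1 : p ++ x :: (pow (y :: (a ++ [x2])) (k + 1) ++ y1 :: (c ++ y1 :: s')) =
          p ++ (([x] ++ pow (y :: (a ++ [x2])) (k + 1) ++ (y1 :: (c ++ [y1]))) ++ s') := by simp
      have e2 : p ++ x :: y1 :: (c ++ y1 :: s') = p ++ (([x] ++ (y1 :: (c ++ [y1]))) ++ s') := by
        simp
      rw [e1, e2, val_append f p, val_append f p, val_append f _ s', val_append f _ s']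
      congr 2
      rw [val_append, val_append, val_append, val_pow]
      have e3 : FB.val f (y1 :: (c ++ [y1])) =
          (f y1 : WithOne T) * FB.val f b * f x2 * f y * FB.val f a * f x2 * f y1 := by
        rw [hc]
        simp only [val_append, val_cons, val_nil, mul_one, one_mul, mul_assoc, List.cons_append,
          List.append_assoc]
      have e4 : FB.val f (y :: (a ++ [x2])) = (f y : WithOne T) * FB.val f a * f x2 := by
        simp only [val_append, val_cons, val_nil, mul_one, mul_assoc]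
      have e5 : FB.val f [x] = (f x : WithOne T) := by simp [val_cons, val_nil]
      rw [e3, e4, e5]
      have := hT.r2' rfl (f x2) (f y1) (f y) (f x) (FB.val f a) (FB.val f b)
      simp only [← mul_assoc] at this ⊢
      rw [this])
  refine ⟨_, i1.trans j1, ?_, ?_⟩
  · intro q hq hne
    rw [adj_block]
    rcases (adj_split2 _ _ _ _ _).1 ((i2 q).2 hq) with h | h | h
    · exact Or.inl h
    · exact absurd h hne
    · exact Or.inr (Or.inr (Or.inr (Or.inr (Or.inr h))))
  · rw [adj_block]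
    exact Or.inr (Or.inl rfl)

/-- number of common pairs -/
def inter (u v : List ℕ) : ℕ := ((adj u).toFinset ∩ (adj v).toFinset).card

theorem inter_comm (u v : List ℕ) : inter u v = inter v u := by
  unfold inter; rw [Finset.inter_comm]

theorem inter_lt {U V V' : List ℕ} {r r' : ℕ × ℕ} (h1 : ∀ q, q ∈ adj V → q ≠ r → q ∈ adj V')
    (h2 : r' ∈ adj V') (h3 : r' ∉ adj V) (h4 : r ∉ adj U) (h5 : r' ∈ adj U) :
    inter U V < inter U V' := by
  classical
  unfold inter
  apply Finset.card_lt_card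
  rw [Finset.ssubset_iff_of_subset]
  · refine ⟨r', ?_, ?_⟩
    · rw [Finset.mem_inter, List.mem_toFinset, List.mem_toFinset]; exact ⟨h5, h2⟩
    · rw [Finset.mem_inter, List.mem_toFinset, List.mem_toFinset]; exact fun h => h3 h.2
  · intro q hq
    rw [Finset.mem_inter, List.mem_toFinset, List.mem_toFinset] at hq ⊢
    exact ⟨hq.1, h1 q hq.2 (fun h => h4 (h ▸ hq.1))⟩

include hTA hCL hn he hT in
theorem step_inter {U V : List ℕ} (hU : Maxl f n e U) (hV : Maxl f n e V)
    (hz : ∀ x y, Zig (E U) x y ↔ Zig (E V) x y)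
    (ha : ∀ p, (adj U).count p ≡ (adj V).count p [MOD e]) {x y : ℕ} (h1 : E U x y)
    (h2 : ¬ E V x y) : ∃ V', Sim' f n e V V' ∧ Maxl f n e V' ∧ inter U V < inter U V' := by
  have hreach : ∀ a b, ReflTransGen (E U) a b ↔ ReflTransGen (E V) a b := by
    intro a b
    rw [hU.reach_iff hTA hCL hn he hT, hV.reach_iff hTA hCL hn he hT]
    have : Zig (E U) = Zig (E V) := by
      funext x y; exact propext (hz x y)
    rw [this]
  have hzV : Zig (E V) x y := (hz x y).1 (Zig.base h1)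
  have hnr : ¬ ReflTransGen (E V) y x := fun h => h2 (hV.closed hTA hCL hn he hT hzV h)
  have hnrU : ¬ ReflTransGen (E U) y x := fun h => hnr ((hreach _ _).1 h)
  -- `e = 1`
  have he1 : e = 1 := by
    have c1 : (adj U).count (x, y) = 1 := by
      have : 0 < (adj U).count (x, y) := List.count_pos_iff.2 h1
      have h3 : ¬ 2 ≤ (adj U).count (x, y) := fun h => hnrU (reach_of_two _ _ _ h)
      omega
    have c2 : (adj V).count (x, y) = 0 := List.count_eq_zero.2 h2
    have h3 := ha (x, y)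
    rw [c1, c2] at h3
    exact Nat.dvd_one.1 ((Nat.modEq_zero_iff_dvd).1 h3)
  subst he1
  obtain ⟨y1, hy1⟩ := hzV.exists_right
  obtain ⟨x', hx'⟩ := hzV.exists_left
  have hyy : y1 ≠ y := by rintro rfl; exact h2 hy1
  have hxx : x' ≠ x := by rintro rfl; exact h2 hx'
  have hr1 : ReflTransGen (E V) y1 x' := by
    rcases word_T V x y1 x' y hy1 hx' (by intro h; exact hxx (Prod.mk.inj h).1.symm) with h | h
    · exact h
    · exact absurd h hnr
  have hz1 : Zig (E V) x' y1 := Zig.trans' hzV (Zig.base hx') (Zig.base hy1)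
  have hE1 : E V x' y1 := hV.closed hTA hCL hn he hT hz1 hr1
  by_cases hC1 : ∃ y2, Zig (E V) x y2 ∧ ReflTransGen (E V) y2 x
  · obtain ⟨y2, hz2, hr2⟩ := hC1
    have e1 : E V x y2 := hV.closed hTA hCL hn he hT hz2 hr2
    have hr3 : ReflTransGen (E V) y2 x' := (hr2.trans (ReflTransGen.single hy1)).trans hr1
    have e2 : E V x' y2 := hV.closed hTA hCL hn he hT (Zig.trans' hzV (Zig.base hx') hz2) hr3
    have hnot : (x', y) ∉ adj U := by
      intro h
      rcases word_T U x y x' y h1 h (by intro h'; exact hxx (Prod.mk.inj h').1.symm) with h3 | h3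
      · apply hnr
        exact (((hreach _ _).1 h3).trans (ReflTransGen.single e2)).trans hr2
      · exact hnrU h3
    obtain ⟨V', g1, g2, g3⟩ := conv2 (f := f) hTA hn hT e2 e1 hx' hr2 hr3
    exact ⟨V', g1, hV.of_sim g1 (nE_replace g2 g3 h2), inter_lt g2 g3 h2 hnot h1⟩
  · by_cases hC2 : ∃ x2, Zig (E V) x2 y ∧ ReflTransGen (E V) y x2
    · obtain ⟨x2, hz2, hr2⟩ := hC2
      have e1 : E V x2 y := hV.closed hTA hCL hn he hT hz2 hr2
      have hr3 : ReflTransGen (E V) y1 x2 := (hr1.trans (ReflTransGen.single hx')).trans hr2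
      have e2 : E V x2 y1 := hV.closed hTA hCL hn he hT
        (Zig.trans' hzV hz2 (Zig.base hy1)) hr3
      have hnot : (x, y1) ∉ adj U := by
        intro h
        rcases word_T U x y x y1 h1 h (by intro h'; exact hyy (Prod.mk.inj h').2.symm) with h3 | h3
        · exact hnrU h3
        · apply hnr
          exact (hr2.trans (ReflTransGen.single e2)).trans ((hreach _ _).1 h3)
      obtain ⟨V', g1, g2, g3⟩ := conv2' (f := f) hTA hn hT e2 e1 hy1 hr3 hr2
      exact ⟨V', g1, hV.of_sim g1 (nE_replace g2 g3 h2), inter_lt g2 g3 h2 hnot h1⟩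
    · exfalso
      have hzy1 : Zig (E U) x y1 := (hz _ _).2 (Zig.base hy1)
      obtain ⟨a, ha'⟩ := hzy1.exists_left
      rcases word_T U x y a y1 h1 ha' (by intro h'; exact hyy (Prod.mk.inj h').2.symm) with h3 | h3
      · refine hC2 ⟨a, (hz _ _).1 ?_, (hreach _ _).1 h3⟩
        exact Zig.trans' hzy1 (Zig.base ha') (Zig.base h1)
      · exact hC1 ⟨y1, Zig.base hy1, (hreach _ _).1 h3⟩

include hTA hCL hn he hT in
/-- similar maximal words with the same pairs -/
theorem exists_same_pairs {u v : List ℕ}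
    (hz : ∀ x y, Zig (E u) x y ↔ Zig (E v) x y)
    (ha : ∀ p, (adj u).count p ≡ (adj v).count p [MOD e]) :
    ∃ u' v', Sim' f n e u u' ∧ Sim' f n e v v' ∧ Maxl f n e u' ∧ Maxl f n e v' ∧
      ∀ q, q ∈ adj u' ↔ q ∈ adj v' := by
  classical
  obtain ⟨u0, hu0, hu0m⟩ := exists_maxl (f := f) (n := n) (e := e) u
  obtain ⟨v0, hv0, hv0m⟩ := exists_maxl (f := f) (n := n) (e := e) v
  -- choose a pair with the largest number of common pairs
  have hbd : ∀ u' v', Sim' f n e u u' → inter u' v' ≤ u.toFinset.card * u.toFinset.card := by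
    intro u' v' h
    have h1 : u'.toFinset = u.toFinset := by
      ext x; rw [List.mem_toFinset, List.mem_toFinset]; exact h.1.mem x
    have h2 := nE_le u'
    rw [h1] at h2
    exact (Finset.card_le_card Finset.inter_subset_left).trans h2
  have hex : ∃ k, ∃ u' v', Sim' f n e u u' ∧ Sim' f n e v v' ∧ Maxl f n e u' ∧ Maxl f n e v' ∧
      inter u' v' + k = u.toFinset.card * u.toFinset.card :=
    ⟨_, u0, v0, hu0, hv0, hu0m, hv0m, Nat.add_sub_of_le (hbd u0 v0 hu0)⟩
  obtain ⟨u', v', s1, s2, m1, m2, h3⟩ := Nat.find_spec hex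
  have hmax : ∀ u2 v2, Sim' f n e u u2 → Sim' f n e v v2 → Maxl f n e u2 → Maxl f n e v2 →
      inter u2 v2 ≤ inter u' v' := by
    intro u2 v2 k1 k2 k3 k4
    by_contra hlt
    push Not at hlt
    have h5 := Nat.find_min' hex
      ⟨u2, v2, k1, k2, k3, k4, Nat.add_sub_of_le (hbd u2 v2 k1)⟩
    have h6 := hbd u2 v2 k1
    omega
  have hz' : ∀ x y, Zig (E u') x y ↔ Zig (E v') x y := fun x y =>
    (s1.1.zig x y).trans ((hz x y).trans (s2.1.zig x y).symm)
  have ha' : ∀ p, (adj u').count p ≡ (adj v').count p [MOD e] := fun p =>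
    (s1.1.adj p).trans ((ha p).trans (s2.1.adj p).symm)
  refine ⟨u', v', s1, s2, m1, m2, ?_⟩
  rintro ⟨x, y⟩
  constructor
  · intro hq
    by_contra hq'
    obtain ⟨V', g1, g2, g3⟩ := step_inter hTA hCL hn he hT m1 m2 hz' ha' hq hq'
    exact absurd (hmax u' V' s1 (s2.trans g1) m1 g2) (not_le.2 g3)
  · intro hq
    by_contra hq'
    obtain ⟨V', g1, g2, g3⟩ := step_inter hTA hCL hn he hT m2 m1 (fun x y => (hz' x y).symm)
      (fun p => (ha' p).symm) hq hq'
    rw [inter_comm, inter_comm v' V'] at g3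
    exact absurd (hmax V' v' (s1.trans g1) s2 g2 m2) (not_le.2 g3)

end

end Pool.Agent.W435.FB
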