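import Pool.Agent.W435.FB.TR3

/-!
# Theorem R, part 4: changing the numbers of pairs by `e` times a 4-cycle
-/

set_option autoImplicit false

namespace Pool.Agent.W435.FB

open Relation

/-- indicator -/
def dl (q r : ℕ × ℕ) : ℕ := if q = r then 1 else 0

theorem count_cons_dl (r q : ℕ × ℕ) (l : List (ℕ × ℕ)) : (r :: l).count q = l.count q + dl q r := by
  rw [List.count_cons]
  unfold dl
  by_cases h : q = r
  · subst h; simp
  · have : (r == q) = false := by simpa using fun h' => h h'.symm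
    rw [this]; simp [h]

theorem adj_junction (w : List ℕ) (x z : ℕ) (t : List ℕ) (q : ℕ × ℕ) :
    (adj ((w ++ [x]) ++ z :: t)).count q =
      (adj (w ++ [x])).count q + dl q (x, z) + (adj (z :: t)).count q := by
  have : (w ++ [x]) ++ z :: t = w ++ x :: (z :: t) := by simp
  rw [this, adj_append_cons, List.count_append, adj_cons_cons, count_cons_dl]
  ring

/-- numbers of pairs in the two sides of the schema `m3` -/
theorem m3_count (x y x' y' e : ℕ) (a a' : List ℕ) (q : ℕ × ℕ) :
    (adj ((y :: a ++ [x]) ++ ((y :: a ++ [x]) ++ ((y' :: a' ++ [x']) ++ ((y' :: a' ++ [x']) ++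
      (pow ((y :: a ++ [x]) ++ (y' :: a' ++ [x'])) (e + 1) ++ (y :: a ++ [x]))))))).count q =
      5 * (adj (y :: a ++ [x])).count q - 2 * (adj (y :: a ++ [x])).count q +
      2 * (adj (y' :: a' ++ [x'])).count q + dl q (x, y) + dl q (x, y') + dl q (x', y') +
      dl q (x', y) + (e + 1) * ((adj (y :: a ++ [x])).count q + (adj (y' :: a' ++ [x'])).count q +
        dl q (x, y') + dl q (x', y)) := by
  have h1 : pow ((y :: a ++ [x]) ++ (y' :: a' ++ [x'])) (e + 1) ++ (y :: a ++ [x]) =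
      pow (y :: (a ++ [x] ++ (y' :: a' ++ [x']))) (e + 1) ++ y :: (a ++ [x]) := by simp
  obtain ⟨t, ht⟩ : ∃ t, pow (y :: (a ++ [x] ++ (y' :: a' ++ [x']))) (e + 1) ++ y :: (a ++ [x]) =
      y :: t := ⟨_, pow_append_comm _ _ _ _⟩
  have h2 : (adj (y :: t)).count q = (e + 1) * ((adj (y :: a ++ [x])).count q +
      (adj (y' :: a' ++ [x'])).count q + dl q (x, y') + dl q (x', y)) +
        (adj (y :: a ++ [x])).count q := by
    rw [← ht, adj_pow_append]
    have h3 : y :: (a ++ [x] ++ (y' :: a' ++ [x'])) ++ [y] =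
        (y :: a ++ [x]) ++ y' :: (a' ++ [x'] ++ [y]) := by simp
    have h4 : y' :: (a' ++ [x'] ++ [y]) = (y' :: a' ++ [x']) ++ y :: [] := by simp
    rw [h3, adj_junction (y :: a), h4, adj_junction (y' :: a')]
    simp only [adj_singleton, List.count_nil, List.cons_append]
    ring
  rw [h1, ht]
  have e1 : (y' :: a' ++ [x']) ++ y :: t = y' :: (a' ++ [x'] ++ y :: t) := by simp
  have e2 : (y' :: a' ++ [x']) ++ (y' :: (a' ++ [x'] ++ y :: t)) =
    y' :: (a' ++ [x'] ++ (y' :: (a' ++ [x'] ++ y :: t))) := by simp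
  have e3 : (y :: a ++ [x]) ++ (y' :: (a' ++ [x'] ++ (y' :: (a' ++ [x'] ++ y :: t)))) =
    y :: (a ++ [x] ++ (y' :: (a' ++ [x'] ++ (y' :: (a' ++ [x'] ++ y :: t))))) := by simp
  rw [e1, e2, e3, adj_junction (y :: a), ← e3, adj_junction (y :: a), ← e2,
    adj_junction (y' :: a'), ← e1, adj_junction (y' :: a'), h2]
  omega

theorem m3_count' (x y x' y' e : ℕ) (a a' : List ℕ) (q : ℕ × ℕ) :
    (adj ((y :: a ++ [x]) ++ ((y :: a ++ [x]) ++ ((y' :: a' ++ [x']) ++ ((y' :: a' ++ [x']) ++
      (pow (y :: a ++ [x]) (e + 1) ++ (pow (y' :: a' ++ [x']) (e + 1) ++ (y :: a ++ [x])))))))).count q =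
      4 * (adj (y :: a ++ [x])).count q + 3 * (adj (y' :: a' ++ [x'])).count q +
      dl q (x, y) + 2 * dl q (x, y') + dl q (x', y') + 2 * dl q (x', y) +
      e * ((adj (y :: a ++ [x])).count q + dl q (x, y)) +
      e * ((adj (y' :: a' ++ [x'])).count q + dl q (x', y')) := by
  -- the last part
  have h1 : pow (y' :: a' ++ [x']) (e + 1) ++ (y :: a ++ [x]) =
      pow (y' :: (a' ++ [x'])) e ++ y' :: (a' ++ [x'] ++ (y :: a ++ [x])) := by
    rw [pow_succ']; simp
  obtain ⟨t, ht⟩ : ∃ t, pow (y' :: (a' ++ [x'])) e ++ y' :: (a' ++ [x'] ++ (y :: a ++ [x])) =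
      y' :: t := ⟨_, pow_append_comm _ _ _ _⟩
  have h2 : (adj (y' :: t)).count q = e * ((adj (y' :: a' ++ [x'])).count q + dl q (x', y')) +
      (adj (y' :: a' ++ [x'])).count q + dl q (x', y) + (adj (y :: a ++ [x])).count q := by
    rw [← ht, adj_pow_append]
    have h3 : y' :: (a' ++ [x']) ++ [y'] = (y' :: a' ++ [x']) ++ y' :: [] := by simp
    have h4 : y' :: (a' ++ [x'] ++ (y :: a ++ [x])) = (y' :: a' ++ [x']) ++ y :: (a ++ [x]) := by simp
    rw [h3, adj_junction (y' :: a'), h4, adj_junction (y' :: a')]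
    simp only [adj_singleton, List.count_nil, List.cons_append]
    ring
  have h5 : pow (y :: a ++ [x]) (e + 1) ++ (y' :: t) =
      pow (y :: (a ++ [x])) e ++ y :: (a ++ [x] ++ (y' :: t)) := by
    rw [pow_succ']; simp
  obtain ⟨r, hr⟩ : ∃ r, pow (y :: (a ++ [x])) e ++ y :: (a ++ [x] ++ (y' :: t)) =
      y :: r := ⟨_, pow_append_comm _ _ _ _⟩
  have h6 : (adj (y :: r)).count q = e * ((adj (y :: a ++ [x])).count q + dl q (x, y)) +
      (adj (y :: a ++ [x])).count q + dl q (x, y') + (adj (y' :: t)).count q := by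
    rw [← hr, adj_pow_append]
    have h3 : y :: (a ++ [x]) ++ [y] = (y :: a ++ [x]) ++ y :: [] := by simp
    have h4 : y :: (a ++ [x] ++ (y' :: t)) = (y :: a ++ [x]) ++ y' :: t := by simp
    rw [h3, adj_junction (y :: a), h4, adj_junction (y :: a)]
    simp only [adj_singleton, List.count_nil, List.cons_append]
    ring
  rw [h1, ht, h5, hr]
  have e1 : (y' :: a' ++ [x']) ++ y :: r = y' :: (a' ++ [x'] ++ y :: r) := by simp
  have e2 : (y' :: a' ++ [x']) ++ (y' :: (a' ++ [x'] ++ y :: r)) =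
    y' :: (a' ++ [x'] ++ (y' :: (a' ++ [x'] ++ y :: r))) := by simp
  have e3 : (y :: a ++ [x]) ++ (y' :: (a' ++ [x'] ++ (y' :: (a' ++ [x'] ++ y :: r)))) =
    y :: (a ++ [x] ++ (y' :: (a' ++ [x'] ++ (y' :: (a' ++ [x'] ++ y :: r))))) := by simp
  rw [e1, e2, e3, adj_junction (y :: a), ← e3, adj_junction (y :: a), ← e2,
    adj_junction (y' :: a'), ← e1, adj_junction (y' :: a'), h6, h2]
  omega

/-- left hand side of `m3` as a word -/
def gamL (x y x' y' e : ℕ) (a a' : List ℕ) : List ℕ :=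
  (y :: a ++ [x]) ++ ((y :: a ++ [x]) ++ ((y' :: a' ++ [x']) ++ ((y' :: a' ++ [x']) ++
      (pow ((y :: a ++ [x]) ++ (y' :: a' ++ [x'])) (e + 1) ++ (y :: a ++ [x])))))

/-- right hand side of `m3` as a word -/
def gamR (x y x' y' e : ℕ) (a a' : List ℕ) : List ℕ :=
  (y :: a ++ [x]) ++ ((y :: a ++ [x]) ++ ((y' :: a' ++ [x']) ++ ((y' :: a' ++ [x']) ++
      (pow (y :: a ++ [x]) (e + 1) ++ (pow (y' :: a' ++ [x']) (e + 1) ++ (y :: a ++ [x]))))))

theorem gam_count (x y x' y' e : ℕ) (a a' : List ℕ) (q : ℕ × ℕ) :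
    (adj (gamL x y x' y' e a a')).count q + e * dl q (x, y) + e * dl q (x', y') =
      (adj (gamR x y x' y' e a a')).count q + e * dl q (x, y') + e * dl q (x', y) := by
  unfold gamL gamR
  rw [m3_count, m3_count']
  have : 5 * (adj (y :: a ++ [x])).count q - 2 * (adj (y :: a ++ [x])).count q =
    3 * (adj (y :: a ++ [x])).count q := by omega
  rw [this]
  ring

theorem gam_letters (x y x' y' e : ℕ) (a a' : List ℕ) (z : ℕ) :
    (gamL x y x' y' e a a').count z = (gamR x y x' y' e a a').count z := by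
  unfold gamL gamR
  simp only [List.count_append, count_pow]
  ring

/-- pairs of the two words -/
theorem gamL_pairs {u : List ℕ} {x y x' y' e : ℕ} {a a' : List ℕ} (h1 : Wk u y a x)
    (h2 : Wk u y' a' x') (h3 : E u x y) (h4 : E u x' y') (h5 : E u x y') (h6 : E u x' y) :
    ∀ q ∈ adj (gamL x y x' y' e a a'), q ∈ adj u := by
  intro q hq
  rw [← List.count_pos_iff] at hq
  unfold gamL at hq
  rw [m3_count] at hq
  by_contra hn
  have e1 : (adj (y :: a ++ [x])).count q = 0 :=
    List.count_eq_zero.2 (fun h => hn (h1 q h))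
  have e2 : (adj (y' :: a' ++ [x'])).count q = 0 :=
    List.count_eq_zero.2 (fun h => hn (h2 q h))
  have hd : ∀ r, r ∈ adj u → dl q r = 0 := by
    intro r hr
    unfold dl
    rw [if_neg]
    rintro rfl
    exact hn hr
  rw [e1, e2, hd _ h3, hd _ h4, hd _ h5, hd _ h6] at hq
  omega

theorem gamR_pairs {u : List ℕ} {x y x' y' e : ℕ} {a a' : List ℕ} (h1 : Wk u y a x)
    (h2 : Wk u y' a' x') (h3 : E u x y) (h4 : E u x' y') (h5 : E u x y') (h6 : E u x' y) :
    ∀ q ∈ adj (gamR x y x' y' e a a'), q ∈ adj u := by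
  intro q hq
  rw [← List.count_pos_iff] at hq
  unfold gamR at hq
  rw [m3_count'] at hq
  by_contra hn
  have e1 : (adj (y :: a ++ [x])).count q = 0 :=
    List.count_eq_zero.2 (fun h => hn (h1 q h))
  have e2 : (adj (y' :: a' ++ [x'])).count q = 0 :=
    List.count_eq_zero.2 (fun h => hn (h2 q h))
  have hd : ∀ r, r ∈ adj u → dl q r = 0 := by
    intro r hr
    unfold dl
    rw [if_neg]
    rintro rfl
    exact hn hr
  rw [e1, e2, hd _ h3, hd _ h4, hd _ h5, hd _ h6] at hq
  omega

section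
variable {T : Type} [Semigroup T] {f : ℕ → T} {n e : ℕ}

/-- agreement of all data except the numbers of pairs -/
structure Gd (f : ℕ → T) (n : ℕ) (u u' : List ℕ) : Prop where
  val : FB.val f u' = FB.val f u
  head : u'.head? = u.head?
  last : u'.getLast? = u.getLast?
  cnt : ∀ x, u'.count x ≡ u.count x [MOD n]
  edg : ∀ q, q ∈ adj u' ↔ q ∈ adj u

theorem Gd.refl (u : List ℕ) : Gd f n u u := ⟨rfl, rfl, rfl, fun _ => rfl, fun _ => Iff.rfl⟩

theorem Gd.trans {u v w : List ℕ} (h1 : Gd f n u v) (h2 : Gd f n v w) : Gd f n u w :=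
  ⟨h2.val.trans h1.val, h2.head.trans h1.head, h2.last.trans h1.last,
    fun x => (h2.cnt x).trans (h1.cnt x), fun q => (h2.edg q).trans (h1.edg q)⟩

variable (hTA : TAStmt) (hCL : CLStmt) (hn : 0 < n) (he : e ∣ n) (hT : SchR n e T)

include hTA hn hT in
/-- one 4-cycle move -/
theorem move4 {u : List ℕ} {x y x' y' : ℕ} (h3 : E u x y) (h4 : E u x' y')
    (h5 : E u x y') (h6 : E u x' y) (h7 : ReflTransGen (E u) y x) (h8 : ReflTransGen (E u) y' x') :
    ∃ u', Gd f n u u' ∧ ∀ q, (adj u').count q + e * dl q (x, y') + e * dl q (x', y) ≡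
      (adj u).count q + e * dl q (x, y) + e * dl q (x', y') [MOD n] := by
  obtain ⟨a, ha⟩ := exists_wk' h7 h3
  obtain ⟨a', ha'⟩ := exists_wk' h8 h4
  obtain ⟨p, s, hu⟩ := List.append_of_mem (mem_of_mem_adj_left h3)
  obtain ⟨L, hL⟩ : ∃ L, L = gamL x y x' y' e a a' := ⟨_, rfl⟩
  obtain ⟨R, hR⟩ : ∃ R, R = gamR x y x' y' e a a' := ⟨_, rfl⟩
  -- `L = y :: l ++ [x]`
  obtain ⟨l, hl⟩ : ∃ l, L = y :: l ++ [x] := by
    refine ⟨(a ++ [x]) ++ ((y :: a ++ [x]) ++ ((y' :: a' ++ [x']) ++ ((y' :: a' ++ [x']) ++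
      (pow ((y :: a ++ [x]) ++ (y' :: a' ++ [x'])) (e + 1) ++ (y :: a))))), ?_⟩
    rw [hL]; unfold gamL; simp
  obtain ⟨r, hr⟩ : ∃ r, R = y :: r ++ [x] := by
    refine ⟨(a ++ [x]) ++ ((y :: a ++ [x]) ++ ((y' :: a' ++ [x']) ++ ((y' :: a' ++ [x']) ++
      (pow (y :: a ++ [x]) (e + 1) ++ (pow (y' :: a' ++ [x']) (e + 1) ++ (y :: a)))))), ?_⟩
    rw [hR]; unfold gamR; simp
  have c1 : ∀ q ∈ adj (x :: (y :: l) ++ [x]), q ∈ adj (p ++ x :: s) := by
    rw [← hu]
    intro q hq
    have e1 : x :: (y :: l) ++ [x] = x :: y :: (l ++ [x]) := by simp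
    rw [e1, adj_cons_cons] at hq
    rcases List.mem_cons.1 hq with rfl | hq
    · exact h3
    · have e2 : y :: (l ++ [x]) = L := by rw [hl]; simp
      rw [e2, hL] at hq
      exact gamL_pairs ha ha' h3 h4 h5 h6 q hq
  obtain ⟨i1, i2, i3⟩ := sim_ins_walk (f := f) (e := 1) hTA hn (one_dvd _) hT.toSchA p x (y :: l) s c1
  rw [← hu] at i1 i2 i3
  obtain ⟨k, rfl⟩ : ∃ k, n = k + 1 := ⟨n - 1, by omega⟩
  -- the word after insertion is `p ++ x :: (L ++ S)`
  obtain ⟨S, hS⟩ : ∃ S, S = pow (y :: l ++ [x]) k ++ s := ⟨_, rfl⟩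
  have hu1 : p ++ (pow (x :: (y :: l)) (k + 1) ++ x :: s) = p ++ x :: (L ++ S) := by
    rw [pow_append_comm, FB.pow_succ, hS, hl]; simp
  rw [hu1] at i1 i2 i3
  have hv1 : FB.val f (p ++ x :: (R ++ S)) = FB.val f (p ++ x :: (L ++ S)) := by
    rw [val_append, val_append, val_cons, val_cons, val_append, val_append]
    congr 3
    rw [hR, hL]
    unfold gamL gamR
    simp only [val_append f (y :: a ++ [x]), val_append f (y' :: a' ++ [x']), val_append f (pow _ _),
      val_pow]
    -- the elements of `T`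
    have hw : FB.val f (y :: a ++ [x]) = ((ev f (y, a ++ [x]) : T) : WithOne T) := by
      rw [coe_ev]; rfl
    have hw' : FB.val f (y' :: a' ++ [x']) = ((ev f (y', a' ++ [x']) : T) : WithOne T) := by
      rw [coe_ev]; rfl
    rw [hw, hw']
    have := hT.m3 (ev f (y, a ++ [x])) (ev f (y', a' ++ [x']))
    simp only [pow_two, ← mul_assoc] at this ⊢
    rw [this]
  have hadj : ∀ G g : List ℕ, G = y :: g ++ [x] → ∀ q, (adj (p ++ x :: (G ++ S))).count q =
      (adj (p ++ [x])).count q + dl q (x, y) + (adj G).count q + (adj (x :: S)).count q := by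
    intro G g hG q
    have e1 : p ++ x :: (G ++ S) = p ++ x :: (y :: g ++ x :: S) := by rw [hG]; simp
    rw [e1, adj_append_cons, List.count_append]
    have e2 : x :: (y :: g ++ x :: S) = x :: y :: (g ++ x :: S) := by simp
    have e3 : y :: (g ++ x :: S) = (y :: g) ++ x :: S := by simp
    rw [e2, adj_cons_cons, count_cons_dl, e3, adj_append_cons (y :: g) x S, List.count_append, hG]
    ring
  have hcount : ∀ q, (adj (p ++ x :: (R ++ S))).count q + e * dl q (x, y') + e * dl q (x', y) =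
      (adj (p ++ x :: (L ++ S))).count q + e * dl q (x, y) + e * dl q (x', y') := by
    intro q
    rw [hadj R r hr, hadj L l hl]
    have := gam_count x y x' y' e a a' q
    rw [← hL, ← hR] at this
    omega
  refine ⟨p ++ x :: (R ++ S), ⟨hv1.trans i1.1.val, ?_, ?_, ?_, ?_⟩, ?_⟩
  · refine Eq.trans ?_ i1.2.1
    cases p <;> simp
  · refine Eq.trans ?_ i1.2.2
    rw [List.getLast?_append_of_ne_nil _ (List.cons_ne_nil _ _),
      List.getLast?_append_of_ne_nil _ (List.cons_ne_nil _ _)]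
    have e1 : x :: (R ++ S) = (x :: y :: r) ++ x :: S := by rw [hr]; simp
    have e2 : x :: (L ++ S) = (x :: y :: l) ++ x :: S := by rw [hl]; simp
    rw [e1, e2, List.getLast?_append_of_ne_nil _ (List.cons_ne_nil _ _),
      List.getLast?_append_of_ne_nil _ (List.cons_ne_nil _ _)]
  · intro z
    refine Nat.ModEq.trans ?_ (i1.1.cnt z)
    have e1 : (p ++ x :: (R ++ S)).count z = (p ++ x :: (L ++ S)).count z := by
      simp only [List.count_append, List.count_cons]
      rw [hR, hL, gam_letters]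
    rw [e1]
  · intro q
    rw [← i2 q]
    constructor
    · intro hq
      rw [← List.count_pos_iff, hadj R r hr] at hq
      rw [i2 q]
      by_contra hnq
      have k1 : (adj (p ++ [x])).count q = 0 := List.count_eq_zero.2 (fun h => hnq (by
        rw [hu, adj_append_cons]; exact List.mem_append_left _ h))
      have k2 : dl q (x, y) = 0 := by
        unfold dl; rw [if_neg]; rintro rfl; exact hnq h3
      have k3 : (adj R).count q = 0 := List.count_eq_zero.2 (fun h => hnq (by
        rw [hR] at h; exact gamR_pairs ha ha' h3 h4 h5 h6 q h))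
      have k4 : (adj (x :: S)).count q = 0 := by
        have h9 : (adj (p ++ x :: (L ++ S))).count q = 0 :=
          List.count_eq_zero.2 (fun h => hnq ((i2 q).1 h))
        rw [hadj L l hl] at h9
        omega
      omega
    · intro hq
      have hqu := (i2 q).1 hq
      rw [← List.count_pos_iff, hadj L l hl] at hq
      rw [← List.count_pos_iff, hadj R r hr]
      by_contra hnq
      have k0 : (adj R).count q = 0 := by omega
      have k1 : (adj L).count q ≠ 0 := by omega
      apply k1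
      -- all pairs of `L` are pairs of `R`
      rw [hR] at k0
      rw [hL]
      unfold gamR at k0
      rw [m3_count'] at k0
      unfold gamL
      rw [m3_count]
      have m1 : (adj (y :: a ++ [x])).count q = 0 := by omega
      have m2 : (adj (y' :: a' ++ [x'])).count q = 0 := by omega
      have m3 : dl q (x, y) = 0 := by omega
      have m4 : dl q (x, y') = 0 := by omega
      have m5 : dl q (x', y') = 0 := by omega
      have m6 : dl q (x', y) = 0 := by omega
      rw [m1, m2, m3, m4, m5, m6]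
      simp
  · intro q
    rw [hcount q]
    exact ((i3 q).add_right _).add_right _

end

end Pool.Agent.W435.FB
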