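import Pool.Agent.W435.FB.TR4

/-!
# Theorem R, part 5: adjustment of the numbers of pairs modulo `n`
-/

set_option autoImplicit false

namespace Pool.Agent.W435.FB

open Relation

/-- row sums of the numbers of pairs -/
theorem row_sum (w : List ℕ) (hw : w ≠ []) (F : Finset ℕ) (hF : ∀ a ∈ w, a ∈ F) (x : ℕ) :
    ∑ y ∈ F, (adj w).count (x, y) + (if w.getLast hw = x then 1 else 0) = w.count x := by
  induction w with
  | nil => exact absurd rfl hw
  | cons a w ih =>
    cases w with
    | nil =>
      simp only [adj_singleton, List.count_nil, Finset.sum_const_zero, zero_add,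
        List.getLast_singleton, List.count_singleton]
      by_cases h : a = x <;> simp [h]
    | cons b w =>
      have ih' := ih (List.cons_ne_nil _ _) (fun c hc => hF c (List.mem_cons_of_mem _ hc))
      rw [List.count_cons, ← ih']
      simp only [adj_cons_cons, count_cons_dl, Finset.sum_add_distrib, getLast_cons_cons]
      have h1 : ∑ y ∈ F, dl (x, y) (a, b) = if a = x then 1 else 0 := by
        unfold dl
        by_cases h : a = x
        · rw [if_pos h, Finset.sum_eq_single b]
          · rw [if_pos]; rw [h]
          · intro y _ hy
            rw [if_neg]; intro h'; exact hy (Prod.mk.inj h').2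
          · intro hb; exact absurd (hF b (by simp)) hb
        · rw [if_neg h]
          apply Finset.sum_eq_zero
          intro y _
          rw [if_neg]; intro h'; exact h (Prod.mk.inj h').1.symm
      rw [h1]
      have h2 : (if (a == x) = true then 1 else 0) = if a = x then 1 else 0 := by
        by_cases h : a = x <;> simp [h]
      rw [h2]
      ring

/-- column sums of the numbers of pairs -/
theorem col_sum (w : List ℕ) (hw : w ≠ []) (F : Finset ℕ) (hF : ∀ a ∈ w, a ∈ F) (y : ℕ) :
    ∑ x ∈ F, (adj w).count (x, y) + (if w.head hw = y then 1 else 0) = w.count y := by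
  induction w with
  | nil => exact absurd rfl hw
  | cons a w ih =>
    cases w with
    | nil =>
      simp only [adj_singleton, List.count_nil, Finset.sum_const_zero, zero_add,
        List.head_cons, List.count_singleton]
      by_cases h : a = y <;> simp [h]
    | cons b w =>
      have ih' := ih (List.cons_ne_nil _ _) (fun c hc => hF c (List.mem_cons_of_mem _ hc))
      rw [List.count_cons, ← ih']
      simp only [adj_cons_cons, count_cons_dl, Finset.sum_add_distrib, List.head_cons]
      have h1 : ∑ x ∈ F, dl (x, y) (a, b) = if b = y then 1 else 0 := by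
        unfold dl
        by_cases h : b = y
        · rw [if_pos h, Finset.sum_eq_single a]
          · rw [if_pos]; rw [h]
          · intro y _ hy
            rw [if_neg]; intro h'; exact hy (Prod.mk.inj h').1
          · intro hb; exact absurd (hF a (by simp)) hb
        · rw [if_neg h]
          apply Finset.sum_eq_zero
          intro y _
          rw [if_neg]; intro h'; exact h (Prod.mk.inj h').2.symm
      rw [h1]
      have h2 : (if (a == y) = true then 1 else 0) = if a = y then 1 else 0 := by
        by_cases h : a = y <;> simp [h]
      rw [h2]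
      by_cases h3 : b = y <;> by_cases h4 : a = y <;> simp [h3, h4]

theorem exists_mul_modEq {a b e n : ℕ} (hn : 0 < n) (he : e ∣ n) (h : a ≡ b [MOD e]) :
    ∃ j, a + e * j ≡ b [MOD n] := by
  have h1 : a ≤ b + n * a := le_add_left (Nat.le_mul_of_pos_left a hn)
  have h2 : e ∣ b + n * a - a := by
    rw [← Nat.modEq_iff_dvd' h1]
    exact h.trans (modEq_add_mul_of_dvd he).symm
  obtain ⟨j, hj⟩ := h2
  refine ⟨j, ?_⟩
  rw [← hj, Nat.add_sub_cancel' h1]
  exact modEq_add_mul_of_dvd dvd_rfl

section
variable {T : Type} [Semigroup T] {f : ℕ → T} {n e : ℕ}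
variable (hTA : TAStmt) (hCL : CLStmt) (hn : 0 < n) (he : e ∣ n) (hT : SchR n e T)

include hTA hn hT in
/-- several 4-cycle moves -/
theorem move4_iter (j : ℕ) {u : List ℕ} {x y x' y' : ℕ} (h3 : E u x y) (h4 : E u x' y')
    (h5 : E u x y') (h6 : E u x' y) (h7 : ReflTransGen (E u) y x) (h8 : ReflTransGen (E u) y' x') :
    ∃ u', Gd f n u u' ∧ ∀ q, (adj u').count q + e * j * dl q (x, y') + e * j * dl q (x', y) ≡
      (adj u).count q + e * j * dl q (x, y) + e * j * dl q (x', y') [MOD n] := by
  induction j with
  | zero => exact ⟨u, Gd.refl u, fun q => by simp; rfl⟩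
  | succ j ih =>
    obtain ⟨u', g1, g2⟩ := ih
    have hE : E u' = E u := by
      funext a b; exact propext (g1.edg (a, b))
    obtain ⟨u'', g3, g4⟩ := move4 (f := f) hTA hn hT (u := u') (x := x) (y := y) (x' := x')
      (y' := y') ((g1.edg _).2 h3) ((g1.edg _).2 h4) ((g1.edg _).2 h5) ((g1.edg _).2 h6)
      (by rw [hE]; exact h7) (by rw [hE]; exact h8)
    refine ⟨u'', g1.trans g3, fun q => ?_⟩
    have k1 := (g4 q).add_right (e * j * dl q (x, y') + e * j * dl q (x', y))
    have k2 := (g2 q).add_right (e * dl q (x, y) + e * dl q (x', y'))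
    have k3 : (adj u').count q + e * dl q (x, y) + e * dl q (x', y') +
        (e * j * dl q (x, y') + e * j * dl q (x', y)) =
        (adj u').count q + e * j * dl q (x, y') + e * j * dl q (x', y) +
        (e * dl q (x, y) + e * dl q (x', y')) := by ring
    rw [k3] at k1
    have k4 := k1.trans k2
    have e1 : (adj u'').count q + e * (j + 1) * dl q (x, y') + e * (j + 1) * dl q (x', y) =
        (adj u'').count q + e * dl q (x, y') + e * dl q (x', y) +
        (e * j * dl q (x, y') + e * j * dl q (x', y)) := by ring
    have e2 : (adj u).count q + e * (j + 1) * dl q (x, y) + e * (j + 1) * dl q (x', y') =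
        (adj u).count q + e * j * dl q (x, y) + e * j * dl q (x', y') +
        (e * dl q (x, y) + e * dl q (x', y')) := by ring
    rw [e1, e2]
    exact k4

/-- lexicographic order on pairs -/
def lx (p q : ℕ × ℕ) : Prop := p.1 < q.1 ∨ (p.1 = q.1 ∧ p.2 ≤ q.2)

theorem lx_refl (p : ℕ × ℕ) : lx p p := Or.inr ⟨rfl, le_rfl⟩

theorem lx_trans {p q r : ℕ × ℕ} (h1 : lx p q) (h2 : lx q r) : lx p r := by
  unfold lx at *
  omega

open Classical in
include hTA hCL hn he hT in
theorem adjust {v : List ℕ} (hv : v ≠ []) (hM : Maxl f n e v) : ∀ (m : ℕ) (u : List ℕ) (hu : u ≠ []),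
    u.head hu = v.head hv → u.getLast hu = v.getLast hv → (∀ q, q ∈ adj u ↔ q ∈ adj v) →
    (∀ x, u.count x ≡ v.count x [MOD n]) →
    (∀ q, (adj u).count q ≡ (adj v).count q [MOD e]) →
    ((adj v).toFinset.filter fun q => ∃ r, ¬ ((adj u).count r ≡ (adj v).count r [MOD n]) ∧
      lx r q).card ≤ m → FB.val f u = FB.val f v := by
  classical
  intro m
  induction m with
  | zero =>
    intro u hu h1 h2 h3 h4 h5 h6
    have hall : ∀ q, (adj u).count q ≡ (adj v).count q [MOD n] := by
      intro q
      by_contra hq
      have hqv : q ∈ adj v := by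
        by_contra hqv
        have hqu : q ∉ adj u := fun h => hqv ((h3 q).1 h)
        apply hq
        rw [List.count_eq_zero.2 hqv, List.count_eq_zero.2 hqu]
      have : q ∈ (adj v).toFinset.filter fun q => ∃ r,
          ¬ ((adj u).count r ≡ (adj v).count r [MOD n]) ∧ lx r q := by
        rw [Finset.mem_filter, List.mem_toFinset]
        exact ⟨hqv, q, hq, lx_refl q⟩
      have h7 := Finset.card_pos.2 ⟨q, this⟩
      omega
    refine hTA n hn T hT.toSchA f u v hu hv ?_ ?_ h3 hall
    · rw [List.head?_eq_some_head hu, List.head?_eq_some_head hv, h1]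
    · rw [List.getLast?_eq_getLast_of_ne_nil hu, List.getLast?_eq_getLast_of_ne_nil hv, h2]
  | succ m ih =>
    intro u hu h1 h2 h3 h4 h5 h6
    have hE : E u = E v := by funext a b; exact propext (h3 (a, b))
    by_cases hall : ∀ q, (adj u).count q ≡ (adj v).count q [MOD n]
    · refine hTA n hn T hT.toSchA f u v hu hv ?_ ?_ h3 hall
      · rw [List.head?_eq_some_head hu, List.head?_eq_some_head hv, h1]
      · rw [List.getLast?_eq_getLast_of_ne_nil hu, List.getLast?_eq_getLast_of_ne_nil hv, h2]
    · push Not at hall
      -- minimal bad pair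
      have hx : ∃ x, ∃ y, ¬ ((adj u).count (x, y) ≡ (adj v).count (x, y) [MOD n]) := by
        obtain ⟨⟨x, y⟩, h⟩ := hall
        exact ⟨x, y, h⟩
      obtain ⟨x, hx1, hx2⟩ : ∃ x, (∃ y, ¬ ((adj u).count (x, y) ≡ (adj v).count (x, y) [MOD n])) ∧
          ∀ x' < x, ¬ ∃ y, ¬ ((adj u).count (x', y) ≡ (adj v).count (x', y) [MOD n]) :=
        ⟨Nat.find hx, Nat.find_spec hx, fun x' hx' => Nat.find_min hx hx'⟩
      obtain ⟨y, hy1, hy2⟩ : ∃ y, ¬ ((adj u).count (x, y) ≡ (adj v).count (x, y) [MOD n]) ∧
          ∀ y' < y, ¬ ¬ ((adj u).count (x, y') ≡ (adj v).count (x, y') [MOD n]) :=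
        ⟨Nat.find hx1, Nat.find_spec hx1, fun y' hy' => Nat.find_min hx1 hy'⟩
      have hmin : ∀ r, ¬ ((adj u).count r ≡ (adj v).count r [MOD n]) → lx (x, y) r := by
        rintro ⟨r1, r2⟩ hr
        unfold lx
        rcases Nat.lt_trichotomy r1 x with h | h | h
        · exact absurd ⟨r2, hr⟩ (hx2 r1 h)
        · subst h
          right
          refine ⟨rfl, ?_⟩
          by_contra h'
          push Not at h'
          exact hy2 r2 h' hr
        · exact Or.inl h
      -- bad pairs are pairs of `v`, on closed walks
      have hbadE : ∀ a b, ¬ ((adj u).count (a, b) ≡ (adj v).count (a, b) [MOD n]) → E v a b := by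
        intro a b hab
        by_contra hqv
        have hqu : (a, b) ∉ adj u := fun h => hqv ((h3 _).1 h)
        apply hab
        rw [List.count_eq_zero.2 hqv, List.count_eq_zero.2 hqu]
      have hbadR : ∀ a b, ¬ ((adj u).count (a, b) ≡ (adj v).count (a, b) [MOD n]) →
          ReflTransGen (E v) b a := by
        intro a b hab
        by_contra hr
        have k1 : ¬ 2 ≤ (adj v).count (a, b) := fun h => hr (reach_of_two _ _ _ h)
        have k2 : ¬ 2 ≤ (adj u).count (a, b) := fun h => hr (by
          rw [← hE]; exact reach_of_two _ _ _ h)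
        have k3 : 0 < (adj v).count (a, b) := List.count_pos_iff.2 (hbadE a b hab)
        have k4 : 0 < (adj u).count (a, b) := List.count_pos_iff.2 ((h3 _).2 (hbadE a b hab))
        have k5 : (adj u).count (a, b) = (adj v).count (a, b) := by omega
        exact hab (by rw [k5])
      obtain ⟨F, hF⟩ : ∃ F : Finset ℕ, F = u.toFinset ∪ v.toFinset := ⟨_, rfl⟩
      have hFu : ∀ a ∈ u, a ∈ F := fun a ha => by rw [hF]; simp [ha]
      have hFv : ∀ a ∈ v, a ∈ F := fun a ha => by rw [hF]; simp [ha]
      have hNZ : NeZero n := ⟨hn.ne'⟩
      -- another bad pair in the row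
      obtain ⟨y', hy', hyy⟩ : ∃ y', ¬ ((adj u).count (x, y') ≡ (adj v).count (x, y') [MOD n]) ∧
          y' ≠ y := by
        by_contra hno
        push Not at hno
        apply hy1
        have s1 := row_sum u hu F hFu x
        have s2 := row_sum v hv F hFv x
        rw [h2] at s1
        have s3 := h4 x
        rw [← s1, ← s2] at s3
        have s4 := Nat.ModEq.add_right_cancel' _ s3
        rw [← ZMod.natCast_eq_natCast_iff] at s4 ⊢
        push_cast at s4
        have hyF : y ∈ F := hFv y (mem_of_mem_adj_right (hbadE x y hy1))
        rw [← Finset.add_sum_erase F _ hyF, ← Finset.add_sum_erase F _ hyF] at s4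
        have s5 : ∑ b ∈ F.erase y, ((adj u).count (x, b) : ZMod n) =
            ∑ b ∈ F.erase y, ((adj v).count (x, b) : ZMod n) := by
          apply Finset.sum_congr rfl
          intro b hb
          rw [ZMod.natCast_eq_natCast_iff]
          by_contra hb'
          exact (Finset.ne_of_mem_erase hb) (hno b hb')
        rw [s5] at s4
        exact add_right_cancel s4
      obtain ⟨x', hx', hxx⟩ : ∃ x', ¬ ((adj u).count (x', y) ≡ (adj v).count (x', y) [MOD n]) ∧
          x' ≠ x := by
        by_contra hno
        push Not at hno
        apply hy1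
        have s1 := col_sum u hu F hFu y
        have s2 := col_sum v hv F hFv y
        rw [h1] at s1
        have s3 := h4 y
        rw [← s1, ← s2] at s3
        have s4 := Nat.ModEq.add_right_cancel' _ s3
        rw [← ZMod.natCast_eq_natCast_iff] at s4 ⊢
        push_cast at s4
        have hxF : x ∈ F := hFv x (mem_of_mem_adj_left (hbadE x y hy1))
        rw [← Finset.add_sum_erase F _ hxF, ← Finset.add_sum_erase F _ hxF] at s4
        have s5 : ∑ b ∈ F.erase x, ((adj u).count (b, y) : ZMod n) =
            ∑ b ∈ F.erase x, ((adj v).count (b, y) : ZMod n) := by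
          apply Finset.sum_congr rfl
          intro b hb
          rw [ZMod.natCast_eq_natCast_iff]
          by_contra hb'
          exact (Finset.ne_of_mem_erase hb) (hno b hb')
        rw [s5] at s4
        exact add_right_cancel s4
      have hylt : y < y' := by
        have := hmin _ hy'
        unfold lx at this
        simp only at this
        omega
      have hxlt : x < x' := by
        have := hmin _ hx'
        unfold lx at this
        simp only at this
        omega
      -- the four pairs
      have p1 := hbadE x y hy1
      have p2 := hbadE x y' hy'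
      have p3 := hbadE x' y hx'
      have r1 := hbadR x y hy1
      have r2 := hbadR x y' hy'
      have r3 := hbadR x' y hx'
      have r4 : ReflTransGen (E v) y' x' := (r2.trans (ReflTransGen.single p1)).trans r3
      have p4 : E v x' y' := hM.closed hTA hCL hn he hT
        (Zig.step p3 p1 (Zig.base p2)) r4
      obtain ⟨j, hj⟩ := exists_mul_modEq hn he (h5 (x, y))
      obtain ⟨u', g1, g2⟩ := move4_iter (f := f) hTA hn hT j (u := u) (x := x) (y := y) (x' := x')
        (y' := y') ((h3 _).2 p1) ((h3 _).2 p4) ((h3 _).2 p2) ((h3 _).2 p3)
        (by rw [hE]; exact r1) (by rw [hE]; exact r4)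
      have hu' : u' ≠ [] := by
        rintro rfl
        have := g1.head
        rw [List.head?_nil] at this
        exact hu (List.head?_eq_none_iff.1 this.symm)
      rw [← g1.val]
      have hedg : ∀ q, q ∈ adj u' ↔ q ∈ adj v := fun q => (g1.edg q).trans (h3 q)
      refine ih u' hu' ?_ ?_ hedg (fun z => (g1.cnt z).trans (h4 z)) ?_ ?_
      · have := g1.head
        rw [List.head?_eq_some_head hu, List.head?_eq_some_head hu'] at this
        rw [Option.some.inj this, h1]
      · have := g1.last
        rw [List.getLast?_eq_getLast_of_ne_nil hu, List.getLast?_eq_getLast_of_ne_nil hu'] at this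
        rw [Option.some.inj this, h2]
      · intro q
        refine Nat.ModEq.trans ?_ (h5 q)
        have k1 := (g2 q).of_dvd he
        have k2 : ∀ a b c d : ℕ, a + e * j * b + e * j * c ≡ a [MOD e] := by
          intro a b c d
          have : a + e * j * b + e * j * c = a + e * (j * b + j * c) := by ring
          rw [this]
          exact modEq_add_mul_of_dvd dvd_rfl
        exact (k2 _ _ _ 0).symm.trans (k1.trans (k2 _ _ _ 0))
      · -- the measure decreases
        have hlt : ((adj v).toFinset.filter fun q => ∃ r,
            ¬ ((adj u').count r ≡ (adj v).count r [MOD n]) ∧ lx r q) ⊂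
            ((adj v).toFinset.filter fun q => ∃ r,
            ¬ ((adj u).count r ≡ (adj v).count r [MOD n]) ∧ lx r q) := by
          have hbad' : ∀ r, ¬ ((adj u').count r ≡ (adj v).count r [MOD n]) →
              lx (x, y) r ∧ r ≠ (x, y) := by
            intro r hr
            have hrne : r ≠ (x, y) := by
              rintro rfl
              apply hr
              have := g2 (x, y)
              have d1 : dl (x, y) (x, y') = 0 := by
                unfold dl; rw [if_neg]; intro h; exact hyy (Prod.mk.inj h).2.symm
              have d2 : dl (x, y) (x', y) = 0 := by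
                unfold dl; rw [if_neg]; intro h; exact hxx (Prod.mk.inj h).1.symm
              have d3 : dl (x, y) (x, y) = 1 := by unfold dl; rw [if_pos rfl]
              have d4 : dl (x, y) (x', y') = 0 := by
                unfold dl; rw [if_neg]; intro h; exact hxx (Prod.mk.inj h).1.symm
              rw [d1, d2, d3, d4] at this
              simp only [mul_zero, add_zero, mul_one] at this
              exact this.trans hj
            refine ⟨?_, hrne⟩
            by_cases q1 : r = (x, y')
            · rw [q1]; exact Or.inr ⟨rfl, hylt.le⟩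
            by_cases q2 : r = (x', y)
            · rw [q2]; exact Or.inl hxlt
            by_cases q3 : r = (x', y')
            · rw [q3]; exact Or.inl hxlt
            apply hmin
            intro h
            apply hr
            have := g2 r
            have d1 : dl r (x, y') = 0 := by unfold dl; rw [if_neg q1]
            have d2 : dl r (x', y) = 0 := by unfold dl; rw [if_neg q2]
            have d3 : dl r (x, y) = 0 := by unfold dl; rw [if_neg hrne]
            have d4 : dl r (x', y') = 0 := by unfold dl; rw [if_neg q3]
            rw [d1, d2, d3, d4] at this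
            simp only [mul_zero, add_zero] at this
            exact this.trans h
          rw [Finset.ssubset_iff_of_subset]
          · refine ⟨(x, y), ?_, ?_⟩
            · rw [Finset.mem_filter, List.mem_toFinset]
              exact ⟨p1, (x, y), hy1, lx_refl _⟩
            · rw [Finset.mem_filter]
              rintro ⟨-, r, hr1, hr2⟩
              obtain ⟨k1, k2⟩ := hbad' r hr1
              apply k2
              unfold lx at k1 hr2
              obtain ⟨ra, rb⟩ := r
              simp only at k1 hr2
              have : ra = x ∧ rb = y := by omega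
              rw [this.1, this.2]
          · intro q hq
            rw [Finset.mem_filter] at hq ⊢
            obtain ⟨hq1, r, hr1, hr2⟩ := hq
            exact ⟨hq1, (x, y), hy1, lx_trans (hbad' r hr1).1 hr2⟩
        have := Finset.card_lt_card hlt
        omega

end

end Pool.Agent.W435.FB
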